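import Pool.Agent.OddRank.Irred

/-!
# Square-zero elements of rank two

An irreducible symplectic Lie algebra which is generated by idempotents and contains an element
of square zero and rank two contains an element of square zero and rank one, hence is the full
algebra of similitudes.
-/

set_option autoImplicit false
set_option linter.unusedSectionVars false

namespace Pool.Agent.OddRank

section Pure

variable {K A : Type*} [Field K] [CharZero K] [Ring A] [Algebra K A]

/-- The general assumptions, without a condition on the rank `s`. -/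
structure Setup0 (tr : A →ₗ[K] K) (σ : A →ₗ[K] A) (g : Submodule K A) (s : ℕ) : Prop where
  tr_comm : ∀ x y, tr (x * y) = tr (y * x)
  σ_mul : ∀ x y, σ (x * y) = σ y * σ x
  σσ : ∀ x, σ (σ x) = x
  lie : ∀ a ∈ g, ∀ b ∈ g, a * b - b * a ∈ g
  gsp : ∀ x ∈ g, ∃ κ : K, x + σ x = κ • 1
  nd : ∀ x ∈ g, (∀ y ∈ g, tr (x * y) = 0) → x = 0
  s_ne : (s : K) ≠ 0

variable {tr : A →ₗ[K] K} {σ : A →ₗ[K] A} {g : Submodule K A} {s : ℕ}

namespace Setup0

theorem σ_one (S : Setup0 tr σ g s) : σ 1 = 1 := by
  have h1 : σ (σ 1 * 1) = σ 1 * 1 := by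
    rw [S.σ_mul, S.σσ, mul_one]
  rw [mul_one, S.σσ] at h1
  exact h1.symm

/-- commutators are skew -/
theorem skew_comm (S : Setup0 tr σ g s) {x y : A} {κ κ' : K} (hx : x + σ x = κ • 1)
    (hy : y + σ y = κ' • 1) : σ (x * y - y * x) = -(x * y - y * x) := by
  have hx' : σ x = κ • 1 - x := by rw [← hx]; abel
  have hy' : σ y = κ' • 1 - y := by rw [← hy]; abel
  rw [map_sub, S.σ_mul, S.σ_mul, hx', hy']
  simp only [mul_sub, sub_mul, smul_mul_assoc, mul_smul_comm, one_mul, mul_one]
  module

end Setup0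

/-- the quadratic operator of a square-zero element -/
theorem quad_mem0 (hlie : ∀ a ∈ g, ∀ b ∈ g, a * b - b * a ∈ g) {y z : A} (hy : y ∈ g)
    (hyy : y * y = 0) (hz : z ∈ g) : y * z * y ∈ g := by
  have h1 := hlie _ hy _ (hlie _ hy _ hz)
  have h3 : y * (y * z - z * y) - (y * z - z * y) * y = (-2 : K) • (y * z * y) := by
    simp only [mul_sub, sub_mul, ← mul_assoc, hyy, zero_mul]
    rw [mul_assoc z y y, hyy, mul_zero, neg_smul, two_smul]
    abel
  have h4 := g.smul_mem (-2⁻¹ : K) h1
  rw [h3, smul_smul] at h4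
  have h5 : (-2⁻¹ : K) * -2 = 1 := by norm_num
  rw [h5, one_smul] at h4
  exact h4

/-- existence of a pair for an extremal element of degree one -/
theorem exists_pair0 (S : Setup0 tr σ g s) {E d : A} (hEE : E * E = E)
    (hEg : ∀ x ∈ g, E * x - x * E ∈ g) (hσE : σ E = 1 - E) (hdg : d ∈ g)
    (hEd : E * d = d) (hdE : d * E = 0)
    (hdext : ∀ x ∈ g, d * x * d = (tr (d * x) / s) • d) (h0 : d ≠ 0) :
    ∃ f, Pair tr σ g s E d f := by
  have hE1 : (1 - E) * E = 0 := by rw [sub_mul, one_mul, hEE, sub_self]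
  have h1E : E * (1 - E) = 0 := by rw [mul_sub, mul_one, hEE, sub_self]
  have h11 : (1 - E) * (1 - E) = 1 - E := by
    rw [mul_sub, mul_one, hE1, sub_zero]
  have hd1 : d * (1 - E) = d := by rw [mul_sub, mul_one, hdE, sub_zero]
  have hEskew : E + σ E = (1 : K) • (1 : A) := by rw [hσE, one_smul]; abel
  have hσd : σ d = -d := by
    have h1 : d = E * d - d * E := by rw [hEd, hdE, sub_zero]
    obtain ⟨κ, hκ⟩ := S.gsp _ hdg
    have h2 := S.skew_comm hEskew hκ
    rwa [← h1] at h2
  have hskew2 : ∀ x ∈ g, σ ((1 - E) * x * E) = -((1 - E) * x * E) := by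
    intro x hx
    have h1 : (1 - E) * x * E = (((1 - E) * x * E) * E) - E * ((1 - E) * x * E) := by
      rw [mul_assoc ((1 - E) * x) E E, hEE, ← mul_assoc E, ← mul_assoc E, h1E, zero_mul, zero_mul,
        sub_zero]
    obtain ⟨κ, hκ⟩ := S.gsp _ (deg_neg_mem hEE hEg hx)
    rw [h1]
    exact S.skew_comm hκ hEskew
  -- the partner
  obtain ⟨x, hx, hx0⟩ : ∃ x ∈ g, tr (d * x) ≠ 0 := by
    by_contra hcon
    push Not at hcon
    exact h0 (S.nd d hdg hcon)
  set y : A := (s / tr (d * x)) • ((1 - E) * x * E) with hy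
  have hyg : y ∈ g := g.smul_mem _ (deg_neg_mem hEE hEg hx)
  have hdy : tr (d * y) = s := by
    have h1 : tr (d * ((1 - E) * x * E)) = tr (d * x) := by
      rw [← mul_assoc, S.tr_comm, ← mul_assoc, ← mul_assoc, hEd, hd1]
    rw [hy, mul_smul_comm, map_smul, h1, smul_eq_mul]
    field_simp
  have hdyd : d * y * d = d := by
    rw [hdext y hyg, hdy, div_self S.s_ne, one_smul]
  have hEy : E * y = 0 := by
    rw [hy, mul_smul_comm, ← mul_assoc, ← mul_assoc, h1E, zero_mul, zero_mul, smul_zero]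
  have hyE : y * E = y := by
    rw [hy, smul_mul_assoc, mul_assoc ((1 - E) * x) E E, hEE]
  have hyy : y * y = 0 := by
    calc y * y = (y * E) * y := by rw [hyE]
      _ = y * (E * y) := mul_assoc _ _ _
      _ = 0 := by rw [hEy, mul_zero]
  have hσy : σ y = -y := by
    rw [hy, map_smul, hskew2 x hx, smul_neg]
  refine ⟨y * d * y, ⟨hEE, hEg, hσE, hdg, quad_mem0 S.lie hyg hyy hdg, hEd, hdE, ?_, ?_, ?_, ?_,
    hdext, hσd, ?_, h0⟩⟩
  · rw [← mul_assoc, ← mul_assoc, hEy, zero_mul, zero_mul]
  · rw [mul_assoc, hyE]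
  · have : d * (y * d * y) * d = (d * y * d) * y * d := by simp only [← mul_assoc]
    rw [this, hdyd, hdyd]
  · have : y * d * y * d * (y * d * y) = y * ((d * y * d) * y * d) * y := by
      simp only [← mul_assoc]
    rw [this, hdyd, hdyd]
  · rw [S.σ_mul, S.σ_mul, hσy, hσd]
    simp only [neg_mul, mul_neg, neg_neg, ← mul_assoc]

namespace Blk

variable {E c f P Q R : A} (B : Blk tr σ g s E c f P Q R)
include B

/-- the component of weight two -/
theorem two0 (hlie : ∀ a ∈ g, ∀ b ∈ g, a * b - b * a ∈ g) {D : A} (hD : D ∈ g) :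
    ∃ κ : K, P * D * Q = κ • c := by
  have h1 := B.ext _ (quad_mem0 hlie B.fg B.ff hD)
  refine ⟨tr (c * (f * D * f)) / s, ?_⟩
  rw [← h1, ← B.cf, ← B.fc]
  simp only [mul_assoc]

/-- the component of weight minus one -/
theorem dn_mem0 (hlie : ∀ a ∈ g, ∀ b ∈ g, a * b - b * a ∈ g) {D : A} (hD : D ∈ g) :
    R * D * P + Q * D * R ∈ g := by
  have hPQ : P - Q ∈ g := by
    rw [← B.cf, ← B.fc]
    exact hlie _ B.cg _ B.fg
  have h2m : P * D * Q ∈ g := by
    obtain ⟨κ, h⟩ := B.two0 hlie hD
    rw [h]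
    exact g.smul_mem _ B.cg
  have h0 : D - P * D * Q - Q * D * P ∈ g :=
    g.sub_mem (g.sub_mem hD h2m) (B.mtwo_mem hD)
  have h1 := hlie _ hPQ _ h0
  have h2 := hlie _ hPQ _ h1
  have h4 := g.smul_mem (2⁻¹ : K) (g.sub_mem h2 h1)
  convert h4 using 1
  rw [eq_inv_smul_iff₀ (two_ne_zero), B.hR, two_smul]
  simp only [mul_sub, sub_mul, mul_one, one_mul, mul_assoc, B.PP, B.QQ, B.PQ, B.QP, B.PPa, B.QQa,
    B.PQa, B.QPa, mul_zero]
  abel

/-- the corner `P D P` and the opposite corner -/
theorem corner0 (hlie : ∀ a ∈ g, ∀ b ∈ g, a * b - b * a ∈ g) {D : A} (hD : D ∈ g) :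
    ∃ κ : K, P * D * P = κ • P + c * D * f := by
  obtain ⟨κ, h⟩ := B.two0 hlie (hlie _ hD _ B.cg)
  refine ⟨κ, ?_⟩
  have h1 : P * (D * c - c * D) * Q * f = P * D * P - c * D * f := by
    rw [mul_assoc _ Q f, B.Qf]
    simp only [mul_sub, sub_mul, mul_assoc]
    rw [B.cf, ← mul_assoc P c, B.Pc]
  rw [h, smul_mul_assoc, B.cf] at h1
  rw [h1]
  abel

end Blk

end Pure

section Two

variable {K V : Type*} [Field K] [CharZero K] [IsAlgClosed K] [AddCommGroup V] [Module K V]
  [FiniteDimensional K V]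

/-- an element of rank at most two of a Lie algebra without square-zero elements of rank one is
extremal -/
theorem two_ext {g : Submodule K (Module.End K V)} (hlie : ∀ a ∈ g, ∀ b ∈ g, a * b - b * a ∈ g)
    (hno : ∀ d ∈ g, d * d = 0 → Module.finrank K (LinearMap.range d) ≠ 1)
    {c : Module.End K V} (hc : c ∈ g) (hcc : c * c = 0)
    (hrk : Module.finrank K (LinearMap.range c) ≤ 2) {x : Module.End K V} (hx : x ∈ g) :
    ∃ t : K, c * x * c = t • c := by
  by_cases hc0 : c = 0
  · exact ⟨0, by rw [hc0]; simp⟩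
  obtain ⟨u₀, hu₀⟩ : ∃ u, c u ≠ 0 := by
    by_contra h
    push Not at h
    exact hc0 (LinearMap.ext h)
  obtain ⟨t, u, hu0, hut⟩ : ∃ (t : K) (u : V), c u ≠ 0 ∧ c (x (c u)) = t • c u := by
    have hmap : ∀ w ∈ LinearMap.range c, (c * x) w ∈ LinearMap.range c := by
      intro w _
      exact ⟨x w, rfl⟩
    have : Nontrivial (LinearMap.range c) :=
      ⟨⟨⟨c u₀, u₀, rfl⟩, 0, fun h => hu₀ (congrArg Subtype.val h)⟩⟩
    obtain ⟨t, ht⟩ := Module.End.exists_eigenvalue ((c * x).restrict hmap)
    obtain ⟨⟨w, u, rfl⟩, hw⟩ := ht.exists_hasEigenvector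
    refine ⟨t, u, fun h => hw.2 (Subtype.ext h), ?_⟩
    have := congrArg Subtype.val hw.apply_eq_smul
    simpa using this
  refine ⟨t, ?_⟩
  obtain ⟨d, hd⟩ : ∃ d, d = c * x * c - t • c := ⟨_, rfl⟩
  have hdg : d ∈ g := hd ▸ g.sub_mem (quad_mem0 hlie hc hcc hx) (g.smul_mem _ hc)
  have hdd : d * d = 0 := by
    rw [hd]
    simp only [sub_mul, mul_sub, smul_mul_assoc, mul_smul_comm, mul_assoc]
    have h1 : ∀ z, c * (c * z) = 0 := fun z => by rw [← mul_assoc, hcc, zero_mul]
    simp only [h1, hcc, mul_zero, smul_zero, sub_zero]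
  have hker : LinearMap.ker c < LinearMap.ker d := by
    refine lt_of_le_of_ne ?_ ?_
    · intro v hv
      rw [LinearMap.mem_ker] at hv ⊢
      rw [hd, LinearMap.sub_apply, Module.End.mul_apply, hv, map_zero, LinearMap.smul_apply, hv,
        smul_zero, sub_zero]
    · intro h
      have : u ∈ LinearMap.ker d := by
        rw [LinearMap.mem_ker, hd, LinearMap.sub_apply, LinearMap.smul_apply]
        simp only [Module.End.mul_apply]
        rw [hut, sub_self]
      rw [← h, LinearMap.mem_ker] at this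
      exact hu0 this
  have h1 := Submodule.finrank_lt_finrank_of_lt hker
  have h2 := LinearMap.finrank_range_add_finrank_ker c
  have h3 := LinearMap.finrank_range_add_finrank_ker d
  have h4 := hno d hdg hdd
  have h5 : Module.finrank K (LinearMap.range d) = 0 := by omega
  have h6 : d = 0 := by
    rw [Submodule.finrank_eq_zero, LinearMap.range_eq_bot] at h5
    exact h5
  rw [hd, sub_eq_zero] at h6
  exact h6

/-- a symmetric bilinear form on the span of two vectors has an isotropic combination -/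
theorem exists_isotropic {b : V → V → K} (hadd : ∀ x y z, b (x + y) z = b x z + b y z)
    (hsmul : ∀ (r : K) x z, b (r • x) z = r * b x z) (hsym : ∀ x y, b x y = b y x)
    {u v : V} (huv : ∀ r : K, u + r • v ≠ 0) (hv : v ≠ 0) :
    ∃ r s : K, r • u + s • v ≠ 0 ∧ b (r • u + s • v) (r • u + s • v) = 0 := by
  by_cases hvv : b v v = 0
  · refine ⟨0, 1, by simpa using hv, ?_⟩
    rw [zero_smul, one_smul, zero_add, hvv]
  · obtain ⟨δ, hδ⟩ := IsAlgClosed.exists_pow_nat_eq (b u v ^ 2 - b v v * b u u) (n := 2)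
      (by norm_num)
    refine ⟨1, (-b u v + δ) / b v v, by rw [one_smul]; exact huv _, ?_⟩
    have e : ∀ s : K, b (u + s • v) (u + s • v) = b u u + 2 * s * b u v + s ^ 2 * b v v := by
      intro s
      rw [hadd, hsmul, hsym u (u + s • v), hsym v (u + s • v), hadd, hadd, hsmul, hsmul,
        hsym v u]
      ring
    rw [one_smul, e]
    field_simp
    linear_combination hδ

/-- a two-dimensional subspace is spanned by any two independent vectors -/
theorem mem_of_two {X : Submodule K V} (hX : Module.finrank K X = 2) {a w z : V} (ha : a ∈ X)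
    (hw : w ∈ X) (hz : z ∈ X) (ha0 : a ≠ 0) (hwa : w ∉ K ∙ a) : ∃ r s : K, z = r • a + s • w := by
  have hli : LinearIndependent K ![a, w] := by
    rw [LinearIndependent.pair_iff' ha0]
    intro r hr
    exact hwa (hr ▸ Submodule.smul_mem _ _ (Submodule.mem_span_singleton_self a))
  have h1 : Module.finrank K (Submodule.span K (Set.range ![a, w])) = 2 := by
    rw [finrank_span_eq_card hli, Fintype.card_fin]
  have h2 : Submodule.span K (Set.range ![a, w]) ≤ X := by
    rw [Submodule.span_le]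
    rintro _ ⟨i, rfl⟩
    fin_cases i
    · exact ha
    · exact hw
  have h3 := Submodule.eq_of_le_of_finrank_eq h2 (h1.trans hX.symm)
  rw [← h3] at hz
  have h4 : Set.range ![a, w] = {a, w} := by
    ext y
    simp only [Set.mem_range, Fin.exists_fin_two, Matrix.cons_val_zero, Matrix.cons_val_one,
      Set.mem_insert_iff, Set.mem_singleton_iff]
    constructor <;> rintro (rfl | rfl) <;> simp
  rw [h4, Submodule.mem_span_pair] at hz
  obtain ⟨r, s, h⟩ := hz
  exact ⟨r, s, h.symm⟩

/-- The irreducible case. -/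
theorem irred_two {ψ : V →ₗ[K] V →ₗ[K] K} (halt : ∀ x, ψ x x = 0)
    (hnd : ∀ x, (∀ y, ψ x y = 0) → x = 0) {g : Submodule K (Module.End K V)}
    (hlie : ∀ a ∈ g, ∀ b ∈ g, a * b - b * a ∈ g)
    (hgsp : ∀ x ∈ g, ∃ κ : K, ∀ u v, ψ (x u) v + ψ u (x v) = κ * ψ u v)
    {G : Set (Module.End K V)} (hG : ∀ e ∈ G, e ∈ g) (hGe : ∀ e ∈ G, e * e = e)
    (hGψ : ∀ e ∈ G, ∀ x y, ψ (e x) y + ψ x (e y) = ψ x y)
    (hirr : ∀ W : Submodule K V, (∀ e ∈ G, ∀ w ∈ W, e w ∈ W) → W = ⊥ ∨ W = ⊤)
    {N : Module.End K V} (hN : N ∈ g) (hNN : N * N = 0)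
    (hrk : Module.finrank K (LinearMap.range N) = 2) (u v : V) : mm ψ u v ∈ g := by
  by_cases hone : ∃ d ∈ g, d * d = 0 ∧ Module.finrank K (LinearMap.range d) = 1
  · obtain ⟨d, hd, hdd, hd1⟩ := hone
    exact irred halt hnd hlie hgsp hG hGe hGψ hirr hd hdd (by rw [hd1]; exact odd_one) u v
  exfalso
  have hno : ∀ d ∈ g, d * d = 0 → Module.finrank K (LinearMap.range d) ≠ 1 :=
    fun d hd hdd h => hone ⟨d, hd, hdd, h⟩
  have hN0 : N ≠ 0 := by
    rintro rfl
    rw [LinearMap.range_zero, finrank_bot] at hrk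
    exact absurd hrk (by decide)
  have hnt : Nontrivial V := by
    by_contra h
    rw [not_nontrivial_iff_subsingleton] at h
    have : Module.finrank K (LinearMap.range N) = 0 := Module.finrank_zero_of_subsingleton
    omega
  have hs := alt_neg halt
  have htr := trace_nondeg g hlie fun W hW => hirr W fun e he => hW e (hG e he)
  obtain ⟨σ, hσ⟩ := exists_adjoint halt hnd
  have hadj : ∀ {x : Module.End K V} {κ : K}, (∀ u v, ψ (x u) v + ψ u (x v) = κ * ψ u v) →
      x + σ x = κ • 1 := by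
    intro x κ hκ
    ext v
    rw [← sub_eq_zero]
    apply hnd
    intro u
    rw [hs, neg_eq_zero, map_sub, sub_eq_zero]
    have h5 := hκ u v
    rw [hσ.1] at h5
    simp only [LinearMap.add_apply, map_add, LinearMap.smul_apply, Module.End.one_apply, map_smul,
      smul_eq_mul]
    rw [← h5, add_comm]
  have S : Setup0 (LinearMap.trace K V) σ g 2 :=
    ⟨LinearMap.trace_mul_comm K, hσ.2.1, hσ.2.2.1, hlie,
      fun x hx => (hgsp x hx).imp fun κ hκ => hadj hκ, htr, by norm_num⟩
  have hGσ : ∀ e ∈ G, σ e = 1 - e := by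
    intro e he
    have h1 := hadj (x := e) (κ := 1) (fun u v => by rw [hGψ e he, one_mul])
    rw [one_smul] at h1
    rw [← h1, add_sub_cancel_left]
  -- a generator that does not commute with `N`
  obtain ⟨e, he, hec⟩ : ∃ e ∈ G, e * N ≠ N * e := by
    by_contra hcon
    push Not at hcon
    rcases hirr (LinearMap.ker N) (fun e he w hw => by
      rw [LinearMap.mem_ker] at hw ⊢
      rw [← Module.End.mul_apply, ← hcon e he, Module.End.mul_apply, hw, map_zero]) with h | h
    · apply hN0
      rw [LinearMap.ker_eq_bot] at h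
      ext w
      apply h
      rw [← Module.End.mul_apply, hNN]
      simp
    · exact hN0 (LinearMap.ker_eq_top.1 h)
  obtain ⟨E, hEE, hEg, hσE, hEc⟩ := exists_E hlie S.σ_one (hG e he) (hGe e he) (hGσ e he) hec
  -- the extremal element
  obtain ⟨c, hcdef⟩ : ∃ c, c = E * N * (1 - E) := ⟨_, rfl⟩
  rw [← hcdef] at hEc
  have hE1 : (1 - E) * E = 0 := by rw [sub_mul, one_mul, hEE, sub_self]
  have hcg : c ∈ g := hcdef ▸ deg_one_mem hEE hEg hN
  have hEd : E * c = c := by rw [hcdef, ← mul_assoc, ← mul_assoc, hEE]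
  have hdE : c * E = 0 := by rw [hcdef, mul_assoc, hE1, mul_zero]
  have hcc : c * c = 0 := by
    calc c * c = c * (E * c) := by rw [hEd]
      _ = 0 := by rw [← mul_assoc, hdE, zero_mul]
  have hcr : Module.finrank K (LinearMap.range c) ≤ 2 := by
    have h1 : LinearMap.range c ≤ (LinearMap.range N).map E := by
      rintro _ ⟨w, rfl⟩
      exact ⟨N ((1 - E) w), ⟨_, rfl⟩, by rw [hcdef]; rfl⟩
    calc Module.finrank K (LinearMap.range c) ≤ _ := Submodule.finrank_mono h1
      _ ≤ Module.finrank K (LinearMap.range N) := Submodule.finrank_map_le _ _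
      _ = 2 := hrk
  have hc2 : Module.finrank K (LinearMap.range c) = 2 := by
    have h1 := hno c hcg hcc
    have h2 : Module.finrank K (LinearMap.range c) ≠ 0 := by
      intro h
      rw [Submodule.finrank_eq_zero, LinearMap.range_eq_bot] at h
      exact hEc h
    omega
  have hext : ∀ x ∈ g, c * x * c = (LinearMap.trace K V (c * x) / ((2 : ℕ) : K)) • c := by
    intro x hx
    obtain ⟨t, ht⟩ := two_ext hlie hno hcg hcc hcr hx
    have h1 := (ext_trace c x t 1 (by
      rw [pow_one, sub_mul, ht, Algebra.algebraMap_eq_smul_one, smul_mul_assoc, one_mul,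
        sub_self])).1
    rw [h1, hc2, ht]
    congr 1
    field_simp
  obtain ⟨f, hpair⟩ := exists_pair0 S hEE hEg hσE hcg hEd hdE hext hEc
  have B := hpair.blk
  obtain ⟨P, hP⟩ : ∃ P, P = c * f := ⟨_, rfl⟩
  obtain ⟨Q, hQ⟩ : ∃ Q, Q = f * c := ⟨_, rfl⟩
  rw [← hP, ← hQ] at B
  obtain ⟨R, hR⟩ : ∃ R, R = 1 - P - Q := ⟨_, rfl⟩
  rw [← hR] at B
  have hPP := B.PP
  have hPr : ∀ w, P (P w) = P w := fun w => by rw [← Module.End.mul_apply, hPP]
  have hP2 : Module.finrank K (LinearMap.range P) = 2 := by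
    have h1 : LinearMap.range P = LinearMap.range c := by
      apply le_antisymm
      · rintro _ ⟨w, rfl⟩
        exact ⟨f w, by rw [hP]; rfl⟩
      · rintro _ ⟨w, rfl⟩
        exact ⟨c w, by rw [← Module.End.mul_apply, B.Pc]⟩
    rw [h1, hc2]
  have hσP : σ P = Q := by rw [hP, hσ.2.1, B.σc, B.σf, neg_mul_neg, hQ]
  have hfs : ∀ x y, ψ x (f y) = -ψ (f x) y := by
    intro x y
    rw [hσ.1, B.σf, LinearMap.neg_apply, map_neg, neg_neg]
  have hcs : ∀ x y, ψ (c x) y = -ψ x (c y) := by
    intro x y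
    rw [hσ.1, B.σc, LinearMap.neg_apply, map_neg]
  have hsym : ∀ x y, ψ x (f y) = ψ y (f x) := by
    intro x y
    rw [hfs, hs, neg_neg]
  have hPf : ∀ x y, ψ (P x) (f y) = ψ x (f y) := by
    intro x y
    rw [hσ.1, hσP, ← Module.End.mul_apply, B.Qf]
  -- an isotropic vector in the range of `P`
  obtain ⟨a, ha0, hPa, haa⟩ : ∃ a, a ≠ 0 ∧ P a = a ∧ ψ a (f a) = 0 := by
    obtain ⟨v, hv, hv0⟩ : ∃ v ∈ LinearMap.range P, v ≠ 0 := by
      by_contra h
      push Not at h
      have : LinearMap.range P = ⊥ := by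
        rw [eq_bot_iff]
        intro x hx
        exact (Submodule.mem_bot K).2 (h x hx)
      rw [this, finrank_bot] at hP2
      exact absurd hP2 (by decide)
    obtain ⟨u, hu, huv⟩ : ∃ u ∈ LinearMap.range P, u ∉ K ∙ v := by
      by_contra h
      push Not at h
      have h1 : LinearMap.range P ≤ K ∙ v := h
      have h2 := Submodule.finrank_mono h1
      rw [hP2] at h2
      have h3 := finrank_span_singleton (K := K) hv0
      omega
    obtain ⟨r, s, h0, h1⟩ := exists_isotropic (b := fun x y => ψ x (f y))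
      (fun x y z => by simp only [map_add, LinearMap.add_apply])
      (fun r x z => by simp only [map_smul, LinearMap.smul_apply, smul_eq_mul])
      hsym (u := u) (v := v)
      (fun r h => huv (by
        have : u = (-r) • v := by rw [neg_smul]; exact eq_neg_of_add_eq_zero_left h
        rw [this]
        exact Submodule.smul_mem _ _ (Submodule.mem_span_singleton_self v))) hv0
    refine ⟨_, h0, ?_, h1⟩
    obtain ⟨u', rfl⟩ := hu
    obtain ⟨v', rfl⟩ := hv
    rw [map_add, map_smul, map_smul, hPr, hPr]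
  have har : a ∈ LinearMap.range P := ⟨a, hPa⟩
  -- the orthogonal of `a` in the range of `P`
  have hline : ∀ w ∈ LinearMap.range P, ψ w (f a) = 0 → w ∈ K ∙ a := by
    intro w hw hwa
    by_contra hcon
    have hfa : f a ≠ 0 := by
      intro h
      apply ha0
      rw [← hPa, hP, Module.End.mul_apply, h, map_zero]
    apply hfa
    have h1 : ∀ y, ψ (f a) y = 0 := by
      intro y
      rw [hs, ← hPf, neg_eq_zero]
      obtain ⟨r, s, h⟩ := mem_of_two hP2 har hw ⟨y, rfl⟩ ha0 hcon
      rw [h, map_add, map_smul, map_smul, LinearMap.add_apply, LinearMap.smul_apply,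
        LinearMap.smul_apply, haa, hwa, smul_zero, smul_zero, add_zero]
    exact hnd _ h1
  -- `a` is an eigenvector of all corners
  have heig : ∀ D ∈ g, ∃ κ : K, P (D a) = κ • a := by
    intro D hD
    have h1 : ψ (P (D a)) (f a) = 0 := by
      obtain ⟨κ₁, h1⟩ := B.corner0 hlie hD
      obtain ⟨κ₂, h2⟩ := hgsp D hD
      have e1 : ψ (P (D a)) (f a) = -ψ a (D (f a)) := by
        rw [hPf]
        have := h2 a (f a)
        rw [haa, mul_zero] at this
        linear_combination this
      have e2 : P (D a) = κ₁ • a + c (D (f a)) := by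
        have := LinearMap.congr_fun h1 a
        simp only [LinearMap.add_apply, Module.End.mul_apply, LinearMap.smul_apply, hPa] at this
        exact this
      have e3 : ψ (P (D a)) (f a) = ψ a (D (f a)) := by
        rw [e2, map_add, map_smul, LinearMap.add_apply, LinearMap.smul_apply, haa, smul_zero,
          zero_add, hcs]
        have : c (f a) = a := by rw [← Module.End.mul_apply, ← hP, hPa]
        rw [this, hs, neg_neg]
      have e4 : (2 : K) * ψ (P (D a)) (f a) = 0 := by linear_combination e1 + e3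
      rcases mul_eq_zero.1 e4 with h | h
      · exact absurd h two_ne_zero
      · exact h
    obtain ⟨κ, hκ⟩ := Submodule.mem_span_singleton.1 (hline _ ⟨_, rfl⟩ h1)
    exact ⟨κ, hκ.symm⟩
  -- the stable subspace
  have hst := gen_stab (N := {y | y ∈ g ∧ P * y = 0}) (D := {D | D ∈ g}) (w := a) ?_ ?_
  · have hU := hirr (gen {y | y ∈ g ∧ P * y = 0} a) (fun e he w hw => hst e (hG e he) w hw)
    have hU' : gen {y | y ∈ g ∧ P * y = 0} a = ⊤ := by
      rcases hU with h | h
      · have := gen_self {y | y ∈ g ∧ P * y = 0} a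
        rw [h, Submodule.mem_bot] at this
        exact absurd this ha0
      · exact h
    have hle : gen {y | y ∈ g ∧ P * y = 0} a ≤ (K ∙ a).comap P := by
      refine gen_le ?_ ?_
      · rw [Submodule.mem_comap, hPa]
        exact Submodule.mem_span_singleton_self a
      · rintro y ⟨_, hy⟩ u _
        rw [Submodule.mem_comap, ← Module.End.mul_apply, hy, LinearMap.zero_apply]
        exact zero_mem _
    have h1 : LinearMap.range P ≤ K ∙ a := by
      rintro _ ⟨w, rfl⟩
      have : w ∈ gen {y | y ∈ g ∧ P * y = 0} a := hU' ▸ Submodule.mem_top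
      exact hle this
    have h2 := Submodule.finrank_mono h1
    rw [hP2, finrank_span_singleton ha0] at h2
    omega
  · intro D hD
    obtain ⟨κ, hκ⟩ := heig D hD
    obtain ⟨κ', h'⟩ := B.mtwo hD
    have h1 : D a = κ • a + (R * D * P + Q * D * R) a + κ' • f a := by
      have h2 : (Q * D * R) a = 0 := by
        rw [← hPa, ← Module.End.mul_apply, mul_assoc, B.RP, mul_zero, LinearMap.zero_apply]
      have h3 : D a = P (D a) + R (D a) + Q (D a) := by
        calc D a = (P + Q + R) (D a) := by rw [← B.one_eq]; rfl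
          _ = _ := by
            rw [LinearMap.add_apply, LinearMap.add_apply]
            abel
      have h4 : (R * D * P) a = R (D a) := by
        simp only [Module.End.mul_apply, hPa]
      have h5 : κ' • f a = Q (D a) := by
        rw [← LinearMap.smul_apply, ← h']
        simp only [Module.End.mul_apply, hPa]
      rw [LinearMap.add_apply, h2, h4, h5, add_zero, ← hκ]
      exact h3
    rw [h1]
    refine add_mem (add_mem (Submodule.smul_mem _ _ (gen_self _ a)) ?_) (Submodule.smul_mem _ _ ?_)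
    · have h6 : (R * D * P + Q * D * R) ∈ {y | y ∈ g ∧ P * y = 0} := by
        refine ⟨B.dn_mem0 hlie hD, ?_⟩
        simp only [mul_add, ← mul_assoc, B.PR, B.PQ, zero_mul, add_zero]
      exact gen_stable _ a h6 (gen_self _ a)
    · have h6 : f ∈ {y | y ∈ g ∧ P * y = 0} := ⟨B.fg, B.Pf⟩
      exact gen_stable _ a h6 (gen_self _ a)
  · rintro D hD y ⟨hy, _⟩
    exact hlie _ hD _ hy

end Two

end Pool.Agent.OddRank
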