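import Mathlib

/-!
# Stable and irreducible subspaces
-/

set_option autoImplicit false
set_option linter.unusedSectionVars false

namespace Pool.Agent.OddRank

variable {K V : Type*} [Field K] [AddCommGroup V] [Module K V]

/-- `U` is stable under all elements of `G`. -/
def Stable (G : Set (Module.End K V)) (U : Submodule K V) : Prop :=
  ∀ e ∈ G, ∀ u ∈ U, e u ∈ U

/-- `U` is stable, nonzero and has no stable subspaces other than `0` and `U`. -/
def Irreducible (G : Set (Module.End K V)) (U : Submodule K V) : Prop :=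
  Stable G U ∧ U ≠ ⊥ ∧ ∀ U', Stable G U' → U' ≤ U → U' = ⊥ ∨ U' = U

/-- every stable subspace has a stable complement -/
def Semisimple (G : Set (Module.End K V)) : Prop :=
  ∀ U, Stable G U → ∃ U', Stable G U' ∧ IsCompl U U'

/-- a linear map between subspaces commutes with `G` -/
def Equiv (G : Set (Module.End K V)) {U U' : Submodule K V} (φ : U →ₗ[K] U') : Prop :=
  ∀ e ∈ G, ∀ u v : U, (v : V) = e u → (φ v : V) = e (φ u)

variable {G : Set (Module.End K V)}

theorem Stable.inf {U U' : Submodule K V} (h : Stable G U) (h' : Stable G U') :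
    Stable G (U ⊓ U') := fun e he u hu => ⟨h e he u hu.1, h' e he u hu.2⟩

theorem stable_sSup {S : Set (Submodule K V)} (h : ∀ U ∈ S, Stable G U) :
    Stable G (sSup S) := by
  intro e he u hu
  have : sSup S ≤ (sSup S).comap e :=
    sSup_le fun U hU v hv => (le_sSup hU : U ≤ sSup S) (h U hU e he v hv)
  exact this hu

/-- the equivariant projection -/
theorem exists_proj (hss : Semisimple G) {U : Submodule K V} (hU : Stable G U) :
    ∃ p : V →ₗ[K] U, (∀ u : U, p u = u) ∧ (∀ e ∈ G, ∀ v, (p (e v) : V) = e (p v)) := by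
  obtain ⟨U', hU', hc⟩ := hss U hU
  refine ⟨U.projectionOnto U' hc, fun u => ?_, ?_⟩
  · exact Submodule.projectionOnto_apply_left hc u
  · intro e he v
    have h1 : v ∈ U ⊔ U' := by rw [hc.sup_eq_top]; exact Submodule.mem_top
    obtain ⟨u, hu, u', hu', rfl⟩ := Submodule.mem_sup.1 h1
    have h2 : e (u + u') = e u + e u' := map_add _ _ _
    have h3 := hU e he u hu
    have h4 := hU' e he u' hu'
    have e1 : U.projectionOnto U' hc (e u) = ⟨e u, h3⟩ :=
      Submodule.projectionOnto_apply_left hc ⟨e u, h3⟩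
    have e2 : U.projectionOnto U' hc (e u') = 0 :=
      Submodule.projectionOnto_apply_right hc ⟨e u', h4⟩
    have e3 : U.projectionOnto U' hc u = ⟨u, hu⟩ :=
      Submodule.projectionOnto_apply_left hc ⟨u, hu⟩
    have e4 : U.projectionOnto U' hc u' = 0 :=
      Submodule.projectionOnto_apply_right hc ⟨u', hu'⟩
    rw [h2, map_add, map_add, e1, e2, e3, e4, add_zero, add_zero]

/-- Schur's lemma -/
theorem schur {U U' : Submodule K V} (hU : Irreducible G U) (hU' : Irreducible G U')
    {φ : U →ₗ[K] U'} (hφ : Equiv G φ) (h0 : φ ≠ 0) : Function.Bijective φ := by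
  constructor
  · rw [← LinearMap.ker_eq_bot]
    have h1 : Stable G ((LinearMap.ker φ).map U.subtype) := by
      rintro e he _ ⟨u, hu, rfl⟩
      refine ⟨⟨e u, hU.1 e he u u.2⟩, ?_, rfl⟩
      rw [SetLike.mem_coe, LinearMap.mem_ker] at hu ⊢
      have h2 := hφ e he u ⟨e u, hU.1 e he u u.2⟩ rfl
      rw [hu, ZeroMemClass.coe_zero, map_zero] at h2
      exact Subtype.ext h2
    rcases hU.2.2 _ h1 (Submodule.map_subtype_le _ _) with h | h
    · rw [eq_bot_iff]
      intro u hu
      have h2 : (u : V) ∈ (LinearMap.ker φ).map U.subtype := ⟨u, hu, rfl⟩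
      rw [h, Submodule.mem_bot] at h2
      exact (Submodule.mem_bot K).2 (Subtype.ext h2)
    · exfalso
      apply h0
      ext u
      have h2 : (u : V) ∈ (LinearMap.ker φ).map U.subtype := by rw [h]; exact u.2
      obtain ⟨u', hu', h3⟩ := h2
      have h4 : u' = u := Subtype.ext h3
      rw [← h4]
      rw [SetLike.mem_coe, LinearMap.mem_ker] at hu'
      rw [hu', LinearMap.zero_apply]
  · rw [← LinearMap.range_eq_top]
    have h1 : Stable G ((LinearMap.range φ).map U'.subtype) := by
      rintro e he _ ⟨_, ⟨u, rfl⟩, rfl⟩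
      refine ⟨φ ⟨e u, hU.1 e he u u.2⟩, ⟨_, rfl⟩, ?_⟩
      exact hφ e he u ⟨e u, hU.1 e he u u.2⟩ rfl
    rcases hU'.2.2 _ h1 (Submodule.map_subtype_le _ _) with h | h
    · exfalso
      apply h0
      ext u
      have h2 : (φ u : V) ∈ (LinearMap.range φ).map U'.subtype := ⟨φ u, ⟨u, rfl⟩, rfl⟩
      rw [h, Submodule.mem_bot] at h2
      rw [h2, LinearMap.zero_apply, ZeroMemClass.coe_zero]
    · rw [eq_top_iff]
      intro x _
      have h2 : (x : V) ∈ (LinearMap.range φ).map U'.subtype := by rw [h]; exact x.2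
      obtain ⟨x', hx', h3⟩ := h2
      have h4 : x' = x := Subtype.ext h3
      rwa [h4] at hx'

/-- there is an irreducible subspace in every nonzero stable subspace -/
theorem exists_irr [FiniteDimensional K V] {U : Submodule K V} (hU : Stable G U) (h0 : U ≠ ⊥) :
    ∃ W ≤ U, Irreducible G W := by
  classical
  have hex : ∃ n : ℕ, ∃ W ≤ U, Stable G W ∧ W ≠ ⊥ ∧ Module.finrank K W = n :=
    ⟨_, U, le_rfl, hU, h0, rfl⟩
  obtain ⟨W, hWU, hW, hW0, hn⟩ := Nat.find_spec hex
  refine ⟨W, hWU, hW, hW0, fun U' hU' hle => ?_⟩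
  by_cases h : U' = ⊥
  · exact Or.inl h
  · right
    apply Submodule.eq_of_le_of_finrank_le hle
    rw [hn]
    exact Nat.find_min' hex ⟨U', hle.trans hWU, hU', h, rfl⟩

/-- `V` is the sum of finitely many irreducible subspaces -/
theorem exists_family [FiniteDimensional K V] (hss : Semisimple G) :
    ∃ t : Finset (Submodule K V), (∀ W ∈ t, Irreducible G W) ∧ t.sup id = ⊤ := by
  obtain ⟨t, ht, hsup⟩ := CompleteLattice.WellFoundedGT.isSupFiniteCompact (Submodule K V)
    {W | Irreducible G W}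
  refine ⟨t, fun W hW => ht hW, ?_⟩
  rw [← hsup]
  by_contra hne
  have hst : Stable G (sSup {W : Submodule K V | Irreducible G W}) :=
    stable_sSup fun W hW => hW.1
  obtain ⟨U', hU', hc⟩ := hss _ hst
  have hU'0 : U' ≠ ⊥ := by
    rintro rfl
    exact hne (eq_top_of_isCompl_bot hc)
  obtain ⟨W, hWU, hW⟩ := exists_irr hU' hU'0
  have h1 : W ≤ sSup {W : Submodule K V | Irreducible G W} := le_sSup hW
  have h2 : W ≤ ⊥ := by
    rw [← hc.inf_eq_bot]
    exact le_inf h1 hWU
  exact hW.2.1 (le_bot_iff.1 h2)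

end Pool.Agent.OddRank
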