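import Mathlib

/-!
# Lie algebras of similitudes that contain a long root element
-/

set_option autoImplicit false
set_option linter.unusedSectionVars false

namespace Pool.Agent.OddRank

variable {K V : Type*} [Field K] [CharZero K] [AddCommGroup V] [Module K V]

/-- `u ↦ ψ(w,u) w' + ψ(w',u) w` -/
def mm (ψ : V →ₗ[K] V →ₗ[K] K) (w w' : V) : Module.End K V :=
  (ψ w).smulRight w' + (ψ w').smulRight w

theorem mm_apply (ψ : V →ₗ[K] V →ₗ[K] K) (w w' u : V) :
    mm ψ w w' u = ψ w u • w' + ψ w' u • w := rfl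

theorem mm_comm (ψ : V →ₗ[K] V →ₗ[K] K) (w w' : V) : mm ψ w w' = mm ψ w' w := by
  rw [mm, mm, add_comm]

theorem mm_add (ψ : V →ₗ[K] V →ₗ[K] K) (w v v' : V) :
    mm ψ w (v + v') = mm ψ w v + mm ψ w v' := by
  ext u
  simp only [mm_apply, LinearMap.add_apply, map_add, smul_add, add_smul]
  abel

theorem mm_smul (ψ : V →ₗ[K] V →ₗ[K] K) (w v : V) (a : K) :
    mm ψ w (a • v) = a • mm ψ w v := by
  ext u
  simp only [mm_apply, LinearMap.smul_apply, map_smul, smul_eq_mul]
  module

theorem mm_zero (ψ : V →ₗ[K] V →ₗ[K] K) (w : V) : mm ψ w 0 = 0 := by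
  have := mm_smul ψ w 0 0
  rwa [zero_smul, zero_smul] at this

variable {ψ : V →ₗ[K] V →ₗ[K] K}

theorem mm_skew (halt : ∀ x, ψ x x = 0) (w w' x y : V) :
    ψ (mm ψ w w' x) y + ψ x (mm ψ w w' y) = 0 := by
  have hs : ∀ x y, ψ x y = -ψ y x := by
    intro x y
    have := halt (x + y)
    simp only [map_add, LinearMap.add_apply, halt, zero_add, add_zero] at this
    linear_combination this
  simp only [mm_apply, map_add, map_smul, LinearMap.add_apply, LinearMap.smul_apply, smul_eq_mul]
  rw [hs x w', hs x w]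
  ring

theorem comm_mm {D : Module.End K V} {κ : K} (hD : ∀ x y, ψ (D x) y + ψ x (D y) = κ * ψ x y)
    (w w' : V) : D * mm ψ w w' - mm ψ w w' * D =
      mm ψ (D w) w' + mm ψ w (D w') - κ • mm ψ w w' := by
  ext u
  have h1 : ψ w (D u) = κ * ψ w u - ψ (D w) u := by rw [← hD w u]; ring
  have h2 : ψ w' (D u) = κ * ψ w' u - ψ (D w') u := by rw [← hD w' u]; ring
  simp only [LinearMap.sub_apply, Module.End.mul_apply, mm_apply, LinearMap.add_apply,
    LinearMap.smul_apply, map_add, map_smul, h1, h2]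
  module

/-- all `m(u, v)` belong to `g` -/
theorem mm_mem {g : Submodule K (Module.End K V)} (halt : ∀ x, ψ x x = 0)
    (hnd : ∀ x, (∀ y, ψ x y = 0) → x = 0)
    (hlie : ∀ a ∈ g, ∀ b ∈ g, a * b - b * a ∈ g) {G : Set (Module.End K V)}
    (hG : ∀ e ∈ G, ∀ b ∈ g, e * b - b * e ∈ g) (hGe : ∀ e ∈ G, e * e = e)
    (hGψ : ∀ e ∈ G, ∀ x y, ψ (e x) y + ψ x (e y) = ψ x y)
    (hirr : ∀ W : Submodule K V, (∀ e ∈ G, ∀ w ∈ W, e w ∈ W) → W = ⊥ ∨ W = ⊤)
    {w₀ : V} (hw₀ : w₀ ≠ 0) (hm : mm ψ w₀ w₀ ∈ g) (u v : V) : mm ψ u v ∈ g := by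
  have h2 : (2 : K) ≠ 0 := two_ne_zero
  have hGψ' : ∀ e ∈ G, ∀ x y, ψ (e x) y + ψ x (e y) = 1 * ψ x y := by
    intro e he x y
    rw [one_mul, hGψ e he]
  have hs : ∀ x y, ψ x y = -ψ y x := by
    intro x y
    have := halt (x + y)
    simp only [map_add, LinearMap.add_apply, halt, zero_add, add_zero] at this
    linear_combination this
  -- the set `T`
  have hT : ∀ w, mm ψ w w ∈ g → ∀ e ∈ G, mm ψ w (e w) ∈ g ∧ mm ψ (e w) (e w) ∈ g := by
    intro w hw e he
    have h3 := hG e he _ hw
    rw [comm_mm (hGψ' e he), one_smul, mm_comm ψ (e w) w] at h3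
    have h4 : mm ψ w (e w) ∈ g := by
      have h5 := g.smul_mem (2⁻¹ : K) (g.add_mem h3 hw)
      rwa [sub_add_cancel, ← two_smul K, smul_smul, inv_mul_cancel₀ h2, one_smul] at h5
    refine ⟨h4, ?_⟩
    have h5 := hG e he _ h4
    rw [comm_mm (hGψ' e he), one_smul, ← Module.End.mul_apply, hGe e he, add_sub_cancel_right] at h5
    exact h5
  -- the span of `T` is everything
  have hspan : ∀ (X : Set V), (∀ e ∈ G, ∀ w ∈ X, e w ∈ X) → (∃ w ∈ X, w ≠ 0) →
      Submodule.span K X = ⊤ := by
    rintro X hX ⟨w, hw, hw0⟩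
    have hst : ∀ e ∈ G, ∀ w ∈ Submodule.span K X, e w ∈ Submodule.span K X := by
      intro e he w hw
      induction hw using Submodule.span_induction with
      | mem x hx => exact Submodule.subset_span (hX e he x hx)
      | zero => rw [map_zero]; exact zero_mem _
      | add x y _ _ hx hy => rw [map_add]; exact add_mem hx hy
      | smul a x _ hx => rw [map_smul]; exact Submodule.smul_mem _ _ hx
    rcases hirr (Submodule.span K X) hst with h | h
    · exfalso
      have : w ∈ Submodule.span K X := Submodule.subset_span hw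
      rw [h, Submodule.mem_bot] at this
      exact hw0 this
    · exact h
  have hspanT : Submodule.span K {w | mm ψ w w ∈ g} = ⊤ :=
    hspan _ (fun e he w hw => (hT w hw e he).2) ⟨w₀, hm, hw₀⟩
  -- the general commutator
  have hcomm : ∀ w v w', mm ψ w v ∈ g → mm ψ w' w' ∈ g →
      ψ w w' • mm ψ v w' + ψ v w' • mm ψ w w' ∈ g := by
    intro w v w' h3 h4
    have h5 := hlie _ h3 _ h4
    have h6 : ∀ x y, ψ (mm ψ w v x) y + ψ x (mm ψ w v y) = 0 * ψ x y := by
      intro x y
      rw [mm_skew halt, zero_mul]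
    rw [comm_mm h6, zero_smul, sub_zero, mm_comm ψ (mm ψ w v w') w', ← two_smul K] at h5
    have h7 := g.smul_mem (2⁻¹ : K) h5
    rw [smul_smul, inv_mul_cancel₀ h2, one_smul, mm_apply, mm_add, mm_smul, mm_smul,
      mm_comm ψ w' v, mm_comm ψ w' w] at h7
    exact h7
  -- dichotomy
  have hdich : ∀ w w', mm ψ w w ∈ g → mm ψ w' w' ∈ g → mm ψ w w' ∉ g →
      ∀ v, mm ψ w v ∈ g → ψ v w' = 0 := by
    intro w w' hw hw' hn v hv
    have h3 : ψ w w' = 0 := by
      by_contra h
      apply hn
      have h4 := g.smul_mem ((2 * ψ w w')⁻¹) (hcomm w w w' hw hw')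
      rwa [← add_smul, ← two_mul, smul_smul, inv_mul_cancel₀ (mul_ne_zero h2 h), one_smul] at h4
    by_contra h
    apply hn
    have h4 := g.smul_mem ((ψ v w')⁻¹) (hcomm w v w' hv hw')
    rwa [h3, zero_smul, zero_add, smul_smul, inv_mul_cancel₀ h, one_smul] at h4
  -- `L_w = V` for `w` in `T`, `w ≠ 0`
  have hL : ∀ w, mm ψ w w ∈ g → w ≠ 0 → ∀ v, mm ψ w v ∈ g := by
    intro w hw hw0
    have hst : ∀ e ∈ G, ∀ v ∈ {v | mm ψ v v ∈ g ∧ mm ψ w v ∈ g},
        e v ∈ {v | mm ψ v v ∈ g ∧ mm ψ w v ∈ g} := by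
      rintro e he v ⟨hv1, hv2⟩
      obtain ⟨h3, h4⟩ := hT v hv1 e he
      refine ⟨h4, ?_⟩
      by_contra hn
      -- `v + e v` is in `T` and not in `L_w`
      have h5 : mm ψ (v + e v) (v + e v) ∈ g := by
        rw [mm_add, mm_comm ψ (v + e v) v, mm_comm ψ (v + e v) (e v), mm_add, mm_add,
          mm_comm ψ (e v) v]
        exact add_mem (add_mem hv1 h3) (add_mem h3 h4)
      have h6 : mm ψ w (v + e v) ∉ g := by
        intro h
        rw [mm_add] at h
        apply hn
        have := g.sub_mem h hv2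
        rwa [add_sub_cancel_left] at this
      have h7 : ∀ u, mm ψ w u ∈ g → ψ u v = 0 := by
        intro u hu
        have h8 := hdich w (v + e v) hw h5 h6 u hu
        have h9 := hdich w (e v) hw h4 hn u hu
        rwa [map_add, h9, add_zero] at h8
      have h8 : ∀ t, mm ψ t t ∈ g → ψ v t = 0 := by
        intro t ht
        by_cases h : mm ψ w t ∈ g
        · rw [hs, h7 t h, neg_zero]
        · exact hdich w t hw ht h v hv2
      have h9 : ∀ t, ψ v t = 0 := by
        intro t
        have ht : t ∈ Submodule.span K {w | mm ψ w w ∈ g} := hspanT ▸ Submodule.mem_top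
        induction ht using Submodule.span_induction with
        | mem x hx => exact h8 x hx
        | zero => rw [map_zero]
        | add x y _ _ hx hy => rw [map_add, hx, hy, add_zero]
        | smul a x _ hx => rw [map_smul, hx, smul_zero]
      have h10 := hnd v h9
      apply hn
      rw [h10, map_zero, mm_zero]
      exact zero_mem _
    have hsp := hspan _ hst ⟨w, ⟨hw, hw⟩, hw0⟩
    intro v
    have hv : v ∈ Submodule.span K {v | mm ψ v v ∈ g ∧ mm ψ w v ∈ g} := hsp ▸ Submodule.mem_top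
    induction hv using Submodule.span_induction with
    | mem x hx => exact hx.2
    | zero => rw [mm_zero]; exact zero_mem _
    | add x y _ _ hx hy => rw [mm_add]; exact add_mem hx hy
    | smul a x _ hx => rw [mm_smul]; exact g.smul_mem _ hx
  -- conclusion
  have hu : u ∈ Submodule.span K {w | mm ψ w w ∈ g} := hspanT ▸ Submodule.mem_top
  rw [mm_comm]
  induction hu using Submodule.span_induction with
  | mem x hx =>
    by_cases h0 : x = 0
    · rw [h0, mm_zero]; exact zero_mem _
    · rw [mm_comm]; exact hL x hx h0 v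
  | zero => rw [mm_zero]; exact zero_mem _
  | add x y _ _ hx hy => rw [mm_add]; exact add_mem hx hy
  | smul a x _ hx => rw [mm_smul]; exact g.smul_mem _ hx

/-- every skew endomorphism is a sum of `m(u, v)` -/
theorem skew_mem [FiniteDimensional K V] {g : Submodule K (Module.End K V)}
    (halt : ∀ x, ψ x x = 0) (hnd : ∀ x, (∀ y, ψ x y = 0) → x = 0)
    (hm : ∀ u v, mm ψ u v ∈ g) {D : Module.End K V} (hD : ∀ x y, ψ (D x) y + ψ x (D y) = 0) :
    D ∈ g := by
  have hs : ∀ x y, ψ x y = -ψ y x := by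
    intro x y
    have := halt (x + y)
    simp only [map_add, LinearMap.add_apply, halt, zero_add, add_zero] at this
    linear_combination this
  have hinj : Function.Injective ψ := by
    rw [injective_iff_map_eq_zero]
    intro x hx
    exact hnd x fun y => by rw [hx, LinearMap.zero_apply]
  let J : V ≃ₗ[K] Module.Dual K V :=
    LinearMap.linearEquivOfInjective ψ hinj Subspace.dual_finrank_eq.symm
  have hJ : ∀ v, J v = ψ v := fun v => rfl
  let b := Module.finBasis K V
  have h1 : ∀ u, u = ∑ i, ψ (J.symm (b.coord i)) u • b i := by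
    intro u
    have : ∀ i, ψ (J.symm (b.coord i)) u = b.coord i u := by
      intro i
      rw [← hJ, LinearEquiv.apply_symm_apply]
    simp only [this, Module.Basis.coord_apply, Module.Basis.sum_repr]
  have h2 : ∀ x, x = -∑ i, ψ (b i) x • J.symm (b.coord i) := by
    intro x
    rw [← sub_eq_zero]
    apply hnd
    intro y
    conv_lhs => rw [map_sub, LinearMap.sub_apply]
    have h3 : ψ x y = ∑ i, ψ (J.symm (b.coord i)) y * ψ x (b i) := by
      conv_lhs => rw [h1 y, map_sum]
      simp only [map_smul, smul_eq_mul]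
    have h4 : ψ (-∑ i, ψ (b i) x • J.symm (b.coord i)) y =
        -∑ i, ψ (b i) x * ψ (J.symm (b.coord i)) y := by
      rw [map_neg, LinearMap.neg_apply, map_sum, LinearMap.sum_apply]
      simp only [map_smul, LinearMap.smul_apply, smul_eq_mul]
    rw [h3, h4, sub_neg_eq_add, ← Finset.sum_add_distrib]
    refine Finset.sum_eq_zero fun i _ => ?_
    rw [hs x (b i)]
    ring
  have h5 : D = (2⁻¹ : K) • ∑ i, mm ψ (J.symm (b.coord i)) (D (b i)) := by
    rw [eq_inv_smul_iff₀ (two_ne_zero)]
    ext u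
    rw [LinearMap.smul_apply, LinearMap.sum_apply]
    simp only [mm_apply]
    rw [Finset.sum_add_distrib, two_smul]
    congr 1
    · conv_lhs => rw [h1 u, map_sum]
      simp only [map_smul]
    · conv_lhs => rw [h2 (D u)]
      rw [← Finset.sum_neg_distrib]
      refine Finset.sum_congr rfl fun i _ => ?_
      rw [← neg_smul]
      congr 1
      linear_combination -(hD (b i) u)
  rw [h5]
  exact g.smul_mem _ (Submodule.sum_mem _ fun i _ => hm _ _)

end Pool.Agent.OddRank
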