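import Mathlib

/-!
# Square-zero elements of odd rank in Lie algebras generated by idempotents: the algebraic part

`A` is an algebra with a trace `tr`, an anti-involution `σ` and a Lie subalgebra `g` on which the
trace form is non-degenerate. An extremal element `c` of `g` (`c x c ∈ K c` for `x ∈ g`) that has
degree one for an idempotent `E` is completed to a pair `c, f`; `P = c f` and `Q = f c` are
idempotents of odd trace `s`. We show that `P x R y P` is a multiple of `P` for all `x, y` in `g`,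
where `R = 1 - P - Q`.
-/

set_option autoImplicit false
set_option linter.unusedSectionVars false

namespace Pool.Agent.OddRank

variable {K A : Type*} [Field K] [CharZero K] [Ring A] [Algebra K A]

/-- The general assumptions. -/
structure Setup (tr : A →ₗ[K] K) (σ : A →ₗ[K] A) (g : Submodule K A) (s : ℕ) : Prop where
  tr_comm : ∀ x y, tr (x * y) = tr (y * x)
  tr_idem : ∀ p, p * p = p → ∃ k : ℕ, tr p = k
  σ_mul : ∀ x y, σ (x * y) = σ y * σ x
  σσ : ∀ x, σ (σ x) = x
  tr_σ : ∀ x, tr (σ x) = tr x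
  lie : ∀ a ∈ g, ∀ b ∈ g, a * b - b * a ∈ g
  gsp : ∀ x ∈ g, ∃ κ : K, x + σ x = κ • 1
  nd : ∀ x ∈ g, (∀ y ∈ g, tr (x * y) = 0) → x = 0
  odd : Odd s

variable {tr : A →ₗ[K] K} {σ : A →ₗ[K] A} {g : Submodule K A} {s : ℕ}

namespace Setup

theorem s_ne (S : Setup tr σ g s) : (s : K) ≠ 0 := by
  have h := S.odd.pos
  exact_mod_cast h.ne'

theorem σ_one (S : Setup tr σ g s) : σ 1 = 1 := by
  have h1 : σ (σ 1 * 1) = σ 1 * 1 := by
    rw [S.σ_mul, S.σσ, mul_one]
  rw [mul_one, S.σσ] at h1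
  exact h1.symm

/-- commutators are skew -/
theorem skew_comm (S : Setup tr σ g s) {x y : A} {κ κ' : K} (hx : x + σ x = κ • 1)
    (hy : y + σ y = κ' • 1) : σ (x * y - y * x) = -(x * y - y * x) := by
  have hx' : σ x = κ • 1 - x := by rw [← hx]; abel
  have hy' : σ y = κ' • 1 - y := by rw [← hy]; abel
  rw [map_sub, S.σ_mul, S.σ_mul, hx', hy']
  simp only [mul_sub, sub_mul, smul_mul_assoc, mul_smul_comm, one_mul, mul_one]
  module

/-- a skew element with scalar square and odd size -/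
theorem skew_sq (S : Setup tr σ g s) [IsAlgClosed K] {P T : A} (hPP : P * P = P) (hP : tr P = s)
    (hPT : P * T = T) (hTP : T * P = T) {κ : K} (hT : T * T = κ • P) (ht : tr T = 0) : κ = 0 := by
  by_contra hκ
  obtain ⟨τ, hτ⟩ := IsAlgClosed.exists_pow_nat_eq κ (n := 2) (by norm_num)
  have hτ0 : τ ≠ 0 := by
    rintro rfl
    apply hκ
    rw [← hτ]
    simp
  set p : A := (2⁻¹ : K) • (P + τ⁻¹ • T) with hp
  have hpp : p * p = p := by
    have h1 : (P + τ⁻¹ • T) * (P + τ⁻¹ • T) = (2 : K) • (P + τ⁻¹ • T) := by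
      have e1 : (P + τ⁻¹ • T) * (P + τ⁻¹ • T) = P * P + τ⁻¹ • (P * T) + τ⁻¹ • (T * P) +
          (τ⁻¹ * τ⁻¹) • (T * T) := by
        simp only [mul_add, add_mul, smul_mul_assoc, mul_smul_comm]
        module
      rw [e1, hPP, hPT, hTP, hT, smul_smul]
      have e2 : τ⁻¹ * τ⁻¹ * κ = 1 := by
        rw [← hτ]
        field_simp
      rw [e2, one_smul, two_smul]
      abel
    rw [hp, smul_mul_smul_comm, h1, smul_smul]
    congr 1
    norm_num
  obtain ⟨k, hk⟩ := S.tr_idem p hpp
  have h2 : tr p = 2⁻¹ * s := by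
    rw [hp, map_smul, map_add, map_smul, hP, ht, smul_zero, add_zero, smul_eq_mul]
  have h3 : ((2 * k : ℕ) : K) = (s : K) := by
    push_cast
    rw [← hk, h2]
    ring
  have h4 : 2 * k = s := by exact_mod_cast h3
  have h5 := S.odd
  rw [← h4] at h5
  exact (Nat.not_odd_iff_even.2 (even_two_mul k)) h5

end Setup

/-- An extremal pair of degree one for the idempotent `E`. -/
structure Pair (tr : A →ₗ[K] K) (σ : A →ₗ[K] A) (g : Submodule K A) (s : ℕ) (E c f : A) :
    Prop where
  EE : E * E = E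
  Eg : ∀ x ∈ g, E * x - x * E ∈ g
  σE : σ E = 1 - E
  cg : c ∈ g
  fg : f ∈ g
  Ec : E * c = c
  cE : c * E = 0
  Ef : E * f = 0
  fE : f * E = f
  cfc : c * f * c = c
  fcf : f * c * f = f
  ext : ∀ x ∈ g, c * x * c = (tr (c * x) / s) • c
  σc : σ c = -c
  σf : σ f = -f
  c0 : c ≠ 0

/-- degree components with respect to an idempotent -/
theorem deg_one_mem {E x : A} (hEE : E * E = E) (hEg : ∀ x ∈ g, E * x - x * E ∈ g) (hx : x ∈ g) :
    E * x * (1 - E) ∈ g := by
  have h1 := hEg _ hx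
  have h2 := hEg _ h1
  have h3 : E * (E * x - x * E) - (E * x - x * E) * E + (E * x - x * E) =
      (2 : K) • (E * x * (1 - E)) := by
    simp only [mul_sub, sub_mul, mul_one, ← mul_assoc, hEE]
    rw [mul_assoc x E E, hEE, two_smul]
    abel
  have h4 := g.smul_mem (2⁻¹ : K) (g.add_mem h2 h1)
  rw [h3, smul_smul, inv_mul_cancel₀ (two_ne_zero), one_smul] at h4
  exact h4

theorem deg_neg_mem {E x : A} (hEE : E * E = E) (hEg : ∀ x ∈ g, E * x - x * E ∈ g) (hx : x ∈ g) :
    (1 - E) * x * E ∈ g := by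
  have h1 := hEg _ hx
  have h2 := hEg _ h1
  have h3 : E * (E * x - x * E) - (E * x - x * E) * E - (E * x - x * E) =
      (2 : K) • ((1 - E) * x * E) := by
    simp only [mul_sub, sub_mul, one_mul, ← mul_assoc, hEE]
    rw [mul_assoc x E E, hEE, two_smul]
    abel
  have h4 := g.smul_mem (2⁻¹ : K) (g.sub_mem h2 h1)
  rw [h3, smul_smul, inv_mul_cancel₀ (two_ne_zero), one_smul] at h4
  exact h4

/-- the quadratic operator of a square-zero element -/
theorem quad_mem (S : Setup tr σ g s) {y z : A} (hy : y ∈ g) (hyy : y * y = 0) (hz : z ∈ g) :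
    y * z * y ∈ g := by
  have h1 := S.lie _ hy _ (S.lie _ hy _ hz)
  have h3 : y * (y * z - z * y) - (y * z - z * y) * y = (-2 : K) • (y * z * y) := by
    simp only [mul_sub, sub_mul, ← mul_assoc, hyy, zero_mul]
    rw [mul_assoc z y y, hyy, mul_zero, neg_smul, two_smul]
    abel
  have h4 := g.smul_mem (-2⁻¹ : K) h1
  rw [h3, smul_smul] at h4
  have h5 : (-2⁻¹ : K) * -2 = 1 := by norm_num
  rw [h5, one_smul] at h4
  exact h4

/-- existence of a pair -/
theorem exists_pair (S : Setup tr σ g s) {E c : A} (hEE : E * E = E)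
    (hEg : ∀ x ∈ g, E * x - x * E ∈ g) (hσE : σ E = 1 - E) (hc : c ∈ g)
    (hext : ∀ x ∈ g, c * x * c = (tr (c * x) / s) • c) (h0 : E * c * (1 - E) ≠ 0) :
    ∃ c' f, Pair tr σ g s E c' f := by
  set d : A := E * c * (1 - E) with hd
  have hE1 : (1 - E) * E = 0 := by rw [sub_mul, one_mul, hEE, sub_self]
  have h1E : E * (1 - E) = 0 := by rw [mul_sub, mul_one, hEE, sub_self]
  have h11 : (1 - E) * (1 - E) = 1 - E := by
    rw [mul_sub, mul_one, hE1, sub_zero]
  have hdg : d ∈ g := deg_one_mem hEE hEg hc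
  have hEd : E * d = d := by rw [hd, ← mul_assoc, ← mul_assoc, hEE]
  have hdE : d * E = 0 := by rw [hd, mul_assoc, hE1, mul_zero]
  have hd1 : d * (1 - E) = d := by rw [mul_sub, mul_one, hdE, sub_zero]
  have hEskew : E + σ E = (1 : K) • (1 : A) := by rw [hσE, one_smul]; abel
  -- elements of `g` of degree `1` or `-1` are skew
  have hskew1 : ∀ x ∈ g, σ (E * x * (1 - E)) = -(E * x * (1 - E)) := by
    intro x hx
    have h1 : E * x * (1 - E) = E * (E * x * (1 - E)) - (E * x * (1 - E)) * E := by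
      rw [← mul_assoc, ← mul_assoc, hEE, mul_assoc (E * x) (1 - E) E, hE1, mul_zero, sub_zero]
    obtain ⟨κ, hκ⟩ := S.gsp _ (deg_one_mem hEE hEg hx)
    rw [h1]
    exact S.skew_comm hEskew hκ
  have hskew2 : ∀ x ∈ g, σ ((1 - E) * x * E) = -((1 - E) * x * E) := by
    intro x hx
    have h1 : (1 - E) * x * E = (((1 - E) * x * E) * E) - E * ((1 - E) * x * E) := by
      rw [mul_assoc ((1 - E) * x) E E, hEE, ← mul_assoc E, ← mul_assoc E, h1E, zero_mul, zero_mul,
        sub_zero]
    obtain ⟨κ, hκ⟩ := S.gsp _ (deg_neg_mem hEE hEg hx)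
    rw [h1]
    exact S.skew_comm hκ hEskew
  -- `d` is extremal
  have hdext : ∀ x ∈ g, d * x * d = (tr (d * x) / s) • d := by
    intro x hx
    have h1 := hext _ (deg_neg_mem hEE hEg hx)
    have h2 : d * x * d = E * (c * ((1 - E) * x * E) * c) * (1 - E) := by
      rw [hd]
      simp only [← mul_assoc]
    have h3 : tr (c * ((1 - E) * x * E)) = tr (d * x) := by
      rw [← mul_assoc, S.tr_comm, hd]
      simp only [← mul_assoc]
    rw [h2, h1, h3, hd, mul_smul_comm, smul_mul_assoc]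
  -- the partner
  obtain ⟨x, hx, hx0⟩ : ∃ x ∈ g, tr (d * x) ≠ 0 := by
    by_contra hcon
    push Not at hcon
    exact h0 (S.nd d hdg hcon)
  set y : A := (s / tr (d * x)) • ((1 - E) * x * E) with hy
  have hyg : y ∈ g := g.smul_mem _ (deg_neg_mem hEE hEg hx)
  have hdy : tr (d * y) = s := by
    have h1 : tr (d * ((1 - E) * x * E)) = tr (d * x) := by
      rw [← mul_assoc, S.tr_comm, ← mul_assoc, ← mul_assoc, hEd, hd1]
    rw [hy, mul_smul_comm, map_smul, h1, smul_eq_mul]
    field_simp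
  have hdyd : d * y * d = d := by
    rw [hdext y hyg, hdy, div_self S.s_ne, one_smul]
  have hEy : E * y = 0 := by
    rw [hy, mul_smul_comm, ← mul_assoc, ← mul_assoc, h1E, zero_mul, zero_mul, smul_zero]
  have hyE : y * E = y := by
    rw [hy, smul_mul_assoc, mul_assoc ((1 - E) * x) E E, hEE]
  have hyy : y * y = 0 := by
    calc y * y = (y * E) * y := by rw [hyE]
      _ = y * (E * y) := mul_assoc _ _ _
      _ = 0 := by rw [hEy, mul_zero]
  have hσy : σ y = -y := by
    rw [hy, map_smul, hskew2 x hx, smul_neg]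
  refine ⟨d, y * d * y, ⟨hEE, hEg, hσE, hdg, quad_mem S hyg hyy hdg, hEd, hdE, ?_, ?_, ?_, ?_,
    hdext, hskew1 c hc, ?_, h0⟩⟩
  · rw [← mul_assoc, ← mul_assoc, hEy, zero_mul, zero_mul]
  · rw [mul_assoc, hyE]
  · have : d * (y * d * y) * d = (d * y * d) * y * d := by simp only [← mul_assoc]
    rw [this, hdyd, hdyd]
  · have : y * d * y * d * (y * d * y) = y * ((d * y * d) * y * d) * y := by
      simp only [← mul_assoc]
    rw [this, hdyd, hdyd]
  · have hσd : σ d = -d := hskew1 c hc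
    rw [S.σ_mul, S.σ_mul, hσy, hσd]
    simp only [neg_mul, mul_neg, neg_neg, ← mul_assoc]

end Pool.Agent.OddRank
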