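import Mathlib

/-!
# The trace form of an irreducible Lie algebra of endomorphisms is nondegenerate
-/

set_option autoImplicit false

namespace Pool.Agent.OddRank

attribute [local instance 100] LieRing.ofAssociativeRing

section Gen

variable {K V : Type*} [Field K] [AddCommGroup V] [Module K V]

/-- a space of endomorphisms closed under commutators, as a Lie subalgebra -/
def tndLie (I : Submodule K (Module.End K V)) (hI : ∀ a ∈ I, ∀ b ∈ I, a * b - b * a ∈ I) :
    LieSubalgebra K (Module.End K V) :=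
  { I with
    lie_mem' := fun {a b} ha hb => by
      rw [LieRing.of_associative_ring_bracket]
      exact hI a ha b hb }

theorem tnd_derived {L : Type*} [LieRing L] [LieAlgebra K L] (u v : L) :
    ⁅u, v⁆ ∈ LieAlgebra.derivedSeries K L 1 := by
  rw [LieAlgebra.derivedSeries_def, LieAlgebra.derivedSeriesOfIdeal_succ,
    LieAlgebra.derivedSeriesOfIdeal_zero]
  exact LieSubmodule.lie_mem_lie (LieSubmodule.mem_top u) (LieSubmodule.mem_top v)

theorem tnd_engel [FiniteDimensional K V] [Nontrivial V] (I : Submodule K (Module.End K V))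
    (hI : ∀ a ∈ I, ∀ b ∈ I, a * b - b * a ∈ I) (hnil : ∀ a ∈ I, IsNilpotent a) :
    ∃ v : V, v ≠ 0 ∧ ∀ a ∈ I, a v = 0 := by
  have h1 : LieModule.IsNilpotent (tndLie I hI) V := by
    rw [LieModule.isNilpotent_iff_forall' (R := K)]
    rintro ⟨x, hx⟩
    have h2 : LieModule.toEnd K (tndLie I hI) V ⟨x, hx⟩ = x := by ext v; rfl
    rw [h2]
    exact hnil x hx
  have h2 := LieModule.nontrivial_max_triv_of_isNilpotent K (tndLie I hI) V
  obtain ⟨v, hv⟩ := exists_ne (0 : LieModule.maxTrivSubmodule K (tndLie I hI) V)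
  refine ⟨v, by simpa using hv, fun a ha => ?_⟩
  exact v.2 ⟨a, ha⟩

theorem tnd_ideal [FiniteDimensional K V] [Nontrivial V] (g I : Submodule K (Module.End K V))
    (hirr : ∀ W : Submodule K V, (∀ a ∈ g, ∀ w ∈ W, a w ∈ W) → W = ⊥ ∨ W = ⊤)
    (hI : ∀ a ∈ I, ∀ b ∈ I, a * b - b * a ∈ I)
    (hgI : ∀ a ∈ g, ∀ b ∈ I, a * b - b * a ∈ I)
    (hnil : ∀ a ∈ I, IsNilpotent a) : ∀ a ∈ I, a = 0 := by
  obtain ⟨v, hv0, hv⟩ := tnd_engel I hI hnil
  let W : Submodule K V :=
    { carrier := {w | ∀ a ∈ I, a w = 0}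
      add_mem' := fun {x y} hx hy a ha => by rw [map_add, hx a ha, hy a ha, add_zero]
      zero_mem' := fun a _ => map_zero a
      smul_mem' := fun c x hx a ha => by rw [map_smul, hx a ha, smul_zero] }
  have hW : ∀ w : V, w ∈ W ↔ ∀ a ∈ I, a w = 0 := fun w => Iff.rfl
  have hst : ∀ a ∈ g, ∀ w ∈ W, a w ∈ W := by
    intro a ha w hw
    rw [hW]
    intro b hb
    have h1 := (hW w).1 hw _ (hgI a ha b hb)
    rw [LinearMap.sub_apply, Module.End.mul_apply, Module.End.mul_apply, (hW w).1 hw b hb,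
      map_zero, zero_sub, neg_eq_zero] at h1
    exact h1
  rcases hirr W hst with h | h
  · exfalso
    have : v ∈ W := (hW v).2 hv
    rw [h, Submodule.mem_bot] at this
    exact hv0 this
  · intro a ha
    ext w
    have : w ∈ W := by rw [h]; trivial
    exact (hW w).1 this a ha

end Gen

section Char0

variable {K V : Type*} [Field K] [CharZero K] [IsAlgClosed K] [AddCommGroup V] [Module K V]
    [FiniteDimensional K V] [Nontrivial V]

/-- the radical of the trace form -/
def tndRad (g : Submodule K (Module.End K V)) : Submodule K (Module.End K V) where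
  carrier := {x | x ∈ g ∧ ∀ y ∈ g, LinearMap.trace K V (x * y) = 0}
  add_mem' := fun {x y} hx hy => ⟨g.add_mem hx.1 hy.1, fun z hz => by
    rw [add_mul, map_add, hx.2 z hz, hy.2 z hz, add_zero]⟩
  zero_mem' := ⟨g.zero_mem, fun z _ => by rw [zero_mul, map_zero]⟩
  smul_mem' := fun c x hx => ⟨g.smul_mem c hx.1, fun z hz => by
    rw [smul_mul_assoc, map_smul, hx.2 z hz, smul_zero]⟩

omit [CharZero K] [IsAlgClosed K] [FiniteDimensional K V] [Nontrivial V] in
theorem tnd_mem_rad (g : Submodule K (Module.End K V)) (x : Module.End K V) :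
    x ∈ tndRad g ↔ x ∈ g ∧ ∀ y ∈ g, LinearMap.trace K V (x * y) = 0 := Iff.rfl

omit [CharZero K] [IsAlgClosed K] [FiniteDimensional K V] [Nontrivial V] in
theorem tnd_rad_ideal (g : Submodule K (Module.End K V))
    (hlie : ∀ a ∈ g, ∀ b ∈ g, a * b - b * a ∈ g) :
    ∀ a ∈ g, ∀ x ∈ tndRad g, a * x - x * a ∈ tndRad g := by
  intro a ha x hx
  rw [tnd_mem_rad] at hx ⊢
  refine ⟨hlie a ha x hx.1, fun y hy => ?_⟩
  have h1 := hx.2 _ (hlie y hy a ha)
  rw [mul_sub, map_sub] at h1
  rw [sub_mul, map_sub, mul_assoc, LinearMap.trace_mul_comm, mul_assoc, mul_assoc]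
  exact h1

theorem tnd_pow {A : Type*} [Ring A] (N D z : A) (h1 : N * D = D * N + z) (h2 : N * z = z * N)
    (k : ℕ) : N ^ (k + 1) * D = D * N ^ (k + 1) + ((k : A) + 1) * (z * N ^ k) := by
  induction k with
  | zero => simpa using h1
  | succ k ih =>
    have h3 : N ^ (k + 1) * z = z * N ^ (k + 1) := ((show Commute N z from h2).pow_left (k + 1)).eq
    calc N ^ (k + 1 + 1) * D = N ^ (k + 1) * (N * D) := by rw [pow_succ, mul_assoc]
      _ = N ^ (k + 1) * D * N + z * N ^ (k + 1) := by rw [h1, mul_add, h3, mul_assoc]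
      _ = (D * N ^ (k + 1) + ((k : A) + 1) * (z * N ^ k)) * N + z * N ^ (k + 1) := by rw [ih]
      _ = D * N ^ (k + 1 + 1) + (((k + 1 : ℕ) : A) + 1) * (z * N ^ (k + 1)) := by
        push_cast
        rw [add_mul, mul_assoc, ← pow_succ, mul_assoc, mul_assoc, ← pow_succ]
        noncomm_ring

omit [CharZero K] in
theorem tnd_scalar (g : Submodule K (Module.End K V))
    (hirr : ∀ W : Submodule K V, (∀ a ∈ g, ∀ w ∈ W, a w ∈ W) → W = ⊥ ∨ W = ⊤)
    (x : Module.End K V) (hx : ∀ D ∈ g, x * (x * D - D * x) = (x * D - D * x) * x) :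
    ∃ l : K, IsNilpotent (x - algebraMap K _ l) := by
  obtain ⟨l, hl⟩ := Module.End.exists_eigenvalue x
  refine ⟨l, ?_⟩
  have hst : ∀ a ∈ g, ∀ w ∈ x.maxGenEigenspace l, a w ∈ x.maxGenEigenspace l := by
    intro D hD w hw
    rw [Module.End.mem_maxGenEigenspace] at hw ⊢
    obtain ⟨m, hm⟩ := hw
    refine ⟨m + 1, ?_⟩
    have e1 : x - l • (1 : Module.End K V) = x - algebraMap K _ l := by
      rw [Algebra.algebraMap_eq_smul_one]
    have key := tnd_pow (x - l • (1 : Module.End K V)) D (x * D - D * x)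
      (by simp [sub_mul, mul_sub]) (by
        rw [sub_mul, mul_sub _ _ (l • (1 : Module.End K V)), hx D hD]
        simp) m
    have k2 := congrArg (fun f : Module.End K V => f w) key
    simp only [Module.End.mul_apply, LinearMap.add_apply] at k2
    rw [k2, hm, map_zero, pow_succ', Module.End.mul_apply, hm, map_zero, map_zero]
    simp
  have hne : x.maxGenEigenspace l ≠ ⊥ := by
    intro h
    apply hl
    rw [eq_bot_iff, ← h]
    exact (x.genEigenspace l).monotone le_top
  have htop := (hirr _ hst).resolve_left hne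
  refine ⟨Module.finrank K V, ?_⟩
  ext v
  have hv : v ∈ x.maxGenEigenspace l := by rw [htop]; trivial
  rw [Module.End.maxGenEigenspace_eq_genEigenspace_finrank, Module.End.mem_genEigenspace_nat] at hv
  rw [Algebra.algebraMap_eq_smul_one]
  exact hv

theorem trace_nondeg (g : Submodule K (Module.End K V))
    (hlie : ∀ a ∈ g, ∀ b ∈ g, a * b - b * a ∈ g)
    (hirr : ∀ W : Submodule K V, (∀ a ∈ g, ∀ w ∈ W, a w ∈ W) → W = ⊥ ∨ W = ⊤) :
    ∀ x ∈ g, (∀ y ∈ g, LinearMap.trace K V (x * y) = 0) → x = 0 := by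
  have hR1 := tnd_rad_ideal g hlie
  have hRg : ∀ x ∈ tndRad g, x ∈ g := fun x hx => hx.1
  have hR2 : ∀ a ∈ tndRad g, ∀ b ∈ tndRad g, a * b - b * a ∈ tndRad g :=
    fun a ha b hb => hR1 a (hRg a ha) b hb
  -- the derived algebra of the radical acts nilpotently
  have hnil : LieModule.IsNilpotent (LieAlgebra.derivedSeries K (tndLie (tndRad g) hR2) 1) V := by
    apply LieModule.isNilpotent_derivedSeries_of_traceForm_eq_zero
    ext ⟨x, hx⟩ ⟨y, hy⟩
    exact hx.2 y (hRg y hy)
  rw [LieModule.isNilpotent_iff_forall' (R := K)] at hnil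
  let I : Submodule K (Module.End K V) :=
    Submodule.span K {c | ∃ x ∈ tndRad g, ∃ y ∈ tndRad g, x * y - y * x = c}
  have hIR : ∀ c ∈ I, ∃ hc : c ∈ tndRad g,
      (⟨c, hc⟩ : tndLie (tndRad g) hR2) ∈ LieAlgebra.derivedSeries K (tndLie (tndRad g) hR2) 1 := by
    intro c hc
    induction hc using Submodule.span_induction with
    | mem c hc =>
      obtain ⟨x, hx, y, hy, rfl⟩ := hc
      exact ⟨hR2 x hx y hy, tnd_derived (L := tndLie (tndRad g) hR2) ⟨x, hx⟩ ⟨y, hy⟩⟩
    | zero => exact ⟨(tndRad g).zero_mem, (LieAlgebra.derivedSeries K _ 1).zero_mem⟩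
    | add x y _ _ hx hy =>
      obtain ⟨h1, h2⟩ := hx
      obtain ⟨h3, h4⟩ := hy
      exact ⟨(tndRad g).add_mem h1 h3, (LieAlgebra.derivedSeries K _ 1).add_mem h2 h4⟩
    | smul a x _ hx =>
      obtain ⟨h1, h2⟩ := hx
      exact ⟨(tndRad g).smul_mem a h1, (LieAlgebra.derivedSeries K _ 1).smul_mem a h2⟩
  have hInil : ∀ c ∈ I, IsNilpotent c := by
    intro c hc
    obtain ⟨h1, h2⟩ := hIR c hc
    have h3 := hnil ⟨⟨c, h1⟩, h2⟩
    exact h3
  have hgI : ∀ a ∈ g, ∀ b ∈ I, a * b - b * a ∈ I := by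
    intro a ha b hb
    induction hb using Submodule.span_induction with
    | mem c hc =>
      obtain ⟨x, hx, y, hy, rfl⟩ := hc
      have e : a * (x * y - y * x) - (x * y - y * x) * a =
          ((a * x - x * a) * y - y * (a * x - x * a)) +
            (x * (a * y - y * a) - (a * y - y * a) * x) := by noncomm_ring
      rw [e]
      exact I.add_mem (Submodule.subset_span ⟨_, hR1 a ha x hx, y, hy, rfl⟩)
        (Submodule.subset_span ⟨x, hx, _, hR1 a ha y hy, rfl⟩)
    | zero => simp
    | add x y _ _ hx hy =>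
      have e : a * (x + y) - (x + y) * a = (a * x - x * a) + (a * y - y * a) := by noncomm_ring
      rw [e]
      exact I.add_mem hx hy
    | smul c x _ hx =>
      rw [mul_smul_comm, smul_mul_assoc, ← smul_sub]
      exact I.smul_mem c hx
  have hI0 := tnd_ideal g I hirr (fun a ha b hb => hgI a (hRg a (hIR a ha).1) b hb) hgI hInil
  have hcomm : ∀ x ∈ tndRad g, ∀ y ∈ tndRad g, x * y = y * x := fun x hx y hy =>
    sub_eq_zero.1 (hI0 _ (Submodule.subset_span ⟨x, hx, y, hy, rfl⟩))
  have hRnil : ∀ x ∈ tndRad g, IsNilpotent x := by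
    intro x hx
    obtain ⟨l, hl⟩ := tnd_scalar g hirr x (fun D hD => by
      have h1 := hR1 D hD x hx
      have h2 : x * D - D * x ∈ tndRad g := by
        have := (tndRad g).neg_mem h1
        rwa [neg_sub] at this
      exact hcomm x hx _ h2)
    have h1 : LinearMap.trace K V (x * x) = 0 := hx.2 x hx.1
    set N := x - algebraMap K (Module.End K V) l with hN
    have e : x * x = (l * l) • (1 : Module.End K V) + (2 * l) • N + N * N := by
      have hx' : x = N + l • 1 := by rw [hN, Algebra.algebraMap_eq_smul_one]; abel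
      rw [hx']
      simp only [add_mul, mul_add, smul_mul_assoc, mul_smul_comm, mul_one, one_mul, smul_smul,
        two_mul, add_smul, smul_add]
      abel
    have t1 : LinearMap.trace K V N = 0 :=
      (LinearMap.isNilpotent_trace_of_isNilpotent hl).eq_zero
    have t2 : LinearMap.trace K V (N * N) = 0 :=
      (LinearMap.isNilpotent_trace_of_isNilpotent ((Commute.refl N).isNilpotent_mul_left hl)).eq_zero
    rw [e, map_add, map_add, map_smul, map_smul, t1, t2, LinearMap.trace_one, smul_zero, add_zero,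
      add_zero, smul_eq_mul, mul_eq_zero] at h1
    have h2 : l = 0 := by
      rcases h1 with h1 | h1
      · exact mul_self_eq_zero.1 h1
      · exfalso
        have : (0 : ℕ) < Module.finrank K V := Module.finrank_pos
        exact this.ne' (Nat.cast_eq_zero.1 h1)
    rw [hN, h2, map_zero, sub_zero] at hl
    exact hl
  have hR0 := tnd_ideal g (tndRad g) hirr hR2 hR1 hRnil
  intro x hx h
  exact hR0 x ⟨hx, h⟩

end Char0

end Pool.Agent.OddRank
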