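import Pool.Agent.OddRank.Main
import Pool.Agent.OddRank.Decomp

/-!
# The commutant form of the theorem
-/

set_option autoImplicit false
set_option linter.unusedSectionVars false

namespace Pool.Agent.OddRank

/-- the Lie algebra generated by a set of endomorphisms: the smallest subspace that contains the
set and is closed under commutators -/
def lieSpan {K V : Type*} [Field K] [AddCommGroup V] [Module K V] (G : Set (Module.End K V)) :
    Submodule K (Module.End K V) :=
  sInf {g | G ⊆ g ∧ ∀ a ∈ g, ∀ b ∈ g, a * b - b * a ∈ g}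

section Span

variable {K V : Type*} [Field K] [AddCommGroup V] [Module K V] {G : Set (Module.End K V)}

theorem subset_lieSpan : ∀ e ∈ G, e ∈ lieSpan G := by
  intro e he
  rw [lieSpan, Submodule.mem_sInf]
  exact fun g hg => hg.1 he

theorem lieSpan_lie : ∀ a ∈ lieSpan G, ∀ b ∈ lieSpan G, a * b - b * a ∈ lieSpan G := by
  intro a ha b hb
  rw [lieSpan, Submodule.mem_sInf] at ha hb ⊢
  exact fun g hg => hg.2 a (ha g hg) b (hb g hg)

theorem lieSpan_le {g : Submodule K (Module.End K V)} (h1 : ∀ e ∈ G, e ∈ g)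
    (h2 : ∀ a ∈ g, ∀ b ∈ g, a * b - b * a ∈ g) : lieSpan G ≤ g :=
  sInf_le ⟨h1, h2⟩

/-- a subspace that is stable under the generators is stable under the Lie algebra -/
theorem stable_span {U : Submodule K V} (hU : Stable G U) :
    ∀ x ∈ lieSpan G, ∀ u ∈ U, x u ∈ U := by
  let g : Submodule K (Module.End K V) :=
    { carrier := {x | ∀ u ∈ U, x u ∈ U}
      add_mem' := fun ha hb u hu => U.add_mem (ha u hu) (hb u hu)
      zero_mem' := fun u _ => U.zero_mem
      smul_mem' := fun c x hx u hu => U.smul_mem c (hx u hu) }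
  exact fun x hx => (lieSpan_le (g := g) hU fun a ha b hb u hu =>
    U.sub_mem (ha _ (hb u hu)) (hb _ (ha u hu))) hx

/-- the Lie algebra commutes with the commutant of the generators -/
theorem comm_span {T : Module.End K V} (hT : ∀ e ∈ G, e * T = T * e) :
    ∀ x ∈ lieSpan G, x * T = T * x := by
  let g : Submodule K (Module.End K V) :=
    { carrier := {x | x * T = T * x}
      add_mem' := fun {a b} ha hb => by
        simp only [Set.mem_ofPred_eq] at ha hb ⊢
        rw [add_mul, mul_add, ha, hb]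
      zero_mem' := by
        simp only [Set.mem_ofPred_eq]
        rw [zero_mul, mul_zero]
      smul_mem' := fun c x hx => by
        simp only [Set.mem_ofPred_eq] at hx ⊢
        rw [smul_mul_assoc, mul_smul_comm, hx] }
  refine fun x hx => (lieSpan_le (g := g) hT fun a ha b hb => ?_) hx
  change (a * b - b * a) * T = T * (a * b - b * a)
  change a * T = T * a at ha
  change b * T = T * b at hb
  rw [sub_mul, mul_sub, mul_assoc, hb, ← mul_assoc, ha, mul_assoc, mul_assoc b, ha, ← mul_assoc b,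
    hb, mul_assoc]

/-- the elements of the Lie algebra are similitudes of all forms at the same time -/
theorem simil_span {α : Type*} {U : α → Submodule K V}
    {φ : α → V →ₗ[K] V →ₗ[K] K} (hU : ∀ a, Stable G (U a))
    (hφ : ∀ e ∈ G, ∀ a, ∀ u ∈ U a, ∀ v ∈ U a, φ a (e u) v + φ a u (e v) = φ a u v) :
    ∀ x ∈ lieSpan G, ∃ κ : K, ∀ a, ∀ u ∈ U a, ∀ v ∈ U a,
      φ a (x u) v + φ a u (x v) = κ * φ a u v := by
  let g : Submodule K (Module.End K V) :=
    { carrier := {x | (∀ a, ∀ u ∈ U a, x u ∈ U a) ∧ ∃ κ : K, ∀ a, ∀ u ∈ U a, ∀ v ∈ U a,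
        φ a (x u) v + φ a u (x v) = κ * φ a u v}
      add_mem' := by
        rintro x y ⟨hx, κ, hκ⟩ ⟨hy, κ', hκ'⟩
        refine ⟨fun a u hu => (U a).add_mem (hx a u hu) (hy a u hu), κ + κ',
          fun a u hu v hv => ?_⟩
        simp only [LinearMap.add_apply, map_add]
        linear_combination hκ a u hu v hv + hκ' a u hu v hv
      zero_mem' := ⟨fun a u _ => (U a).zero_mem, 0, fun a u hu v hv => by simp⟩
      smul_mem' := by
        rintro c x ⟨hx, κ, hκ⟩
        refine ⟨fun a u hu => (U a).smul_mem c (hx a u hu), c * κ, fun a u hu v hv => ?_⟩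
        simp only [LinearMap.smul_apply, map_smul, smul_eq_mul]
        linear_combination c * hκ a u hu v hv }
  refine fun x hx => ((lieSpan_le (g := g) ?_ ?_) hx).2
  · intro e he
    exact ⟨fun a => hU a e he, 1, fun a u hu v hv => by rw [hφ e he a u hu v hv, one_mul]⟩
  · rintro x ⟨hx, κ, hκ⟩ y ⟨hy, κ', hκ'⟩
    refine ⟨fun a u hu => (U a).sub_mem (hx a _ (hy a u hu)) (hy a _ (hx a u hu)), 0,
      fun a u hu v hv => ?_⟩
    simp only [LinearMap.sub_apply, map_sub, Module.End.mul_apply]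
    have h1 := hκ a (y u) (hy a u hu) v hv
    have h2 := hκ a u hu (y v) (hy a v hv)
    have h3 := hκ' a (x u) (hx a u hu) v hv
    have h4 := hκ' a u hu (x v) (hx a v hv)
    have h5 := hκ a u hu v hv
    have h6 := hκ' a u hu v hv
    linear_combination h1 - h3 - h4 + h2 + κ * h6 - κ' * h5

end Span

variable {K V : Type*} [Field K] [CharZero K] [IsAlgClosed K] [AddCommGroup V] [Module K V]
  [FiniteDimensional K V]

/-- a symplectic form on `W` with multiplier one for the generators -/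
def FormOn (G : Set (Module.End K V)) (W : Submodule K V) (φ : V →ₗ[K] V →ₗ[K] K) : Prop :=
  (∀ x ∈ W, φ x x = 0) ∧ (∀ x ∈ W, (∀ y ∈ W, φ x y = 0) → x = 0) ∧
    ∀ e ∈ G, ∀ x ∈ W, ∀ y ∈ W, φ (e x) y + φ x (e y) = φ x y

/-- elements of the double commutant preserve stable subspaces -/
theorem stable_of_comm {G : Set (Module.End K V)} (hss : Semisimple G) {D : Module.End K V}
    (hD : ∀ T : Module.End K V, (∀ e ∈ G, e * T = T * e) → D * T = T * D) {U : Submodule K V}
    (hU : Stable G U) : ∀ u ∈ U, D u ∈ U := by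
  obtain ⟨p, hp, hpe⟩ := exists_proj hss hU
  intro u hu
  have h1 := hD (U.subtype ∘ₗ p) (fun e he => by
    ext v
    exact (hpe e he v).symm)
  have h2 := LinearMap.congr_fun h1 u
  have h3 : (U.subtype ∘ₗ p) u = u := by
    rw [LinearMap.comp_apply, hp ⟨u, hu⟩]
    rfl
  rw [Module.End.mul_apply, h3, Module.End.mul_apply] at h2
  rw [h2]
  exact (p (D u)).2

/-- an equivariant map between stable subspaces commutes with the double commutant -/
theorem comm_of_equiv {G : Set (Module.End K V)} (hss : Semisimple G) {D : Module.End K V}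
    (hD : ∀ T : Module.End K V, (∀ e ∈ G, e * T = T * e) → D * T = T * D) {U U' : Submodule K V}
    (hU : Stable G U) {φ : U →ₗ[K] U'} (hφ : Equiv G φ) (u v : U) (huv : (v : V) = D u) :
    (φ v : V) = D (φ u) := by
  obtain ⟨p, hp, hpe⟩ := exists_proj hss hU
  have h1 := hD (U'.subtype ∘ₗ φ ∘ₗ p) (fun e he => by
    ext w
    exact (hφ e he (p w) (p (e w)) (hpe e he w)).symm)
  have h2 := LinearMap.congr_fun h1 u
  have h3 : (U'.subtype ∘ₗ φ ∘ₗ p) u = φ u := by
    rw [LinearMap.comp_apply, LinearMap.comp_apply, hp u]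
    rfl
  have h4 : (U'.subtype ∘ₗ φ ∘ₗ p) v = φ v := by
    rw [LinearMap.comp_apply, LinearMap.comp_apply, hp v]
    rfl
  rw [Module.End.mul_apply, h3, Module.End.mul_apply, ← huv, h4] at h2
  exact h2.symm

/-- similitudes in the double commutant are similitudes on irreducible subspaces -/
theorem simil_irr {G : Set (Module.End K V)} (hss : Semisimple G) {ψ : V →ₗ[K] V →ₗ[K] K}
    (hnd : ∀ x, (∀ y, ψ x y = 0) → x = 0)
    (hGψ : ∀ e ∈ G, ∀ x y, ψ (e x) y + ψ x (e y) = ψ x y) {D : Module.End K V} {κ : K}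
    (hκ : ∀ x y, ψ (D x) y + ψ x (D y) = κ * ψ x y)
    (hD : ∀ T : Module.End K V, (∀ e ∈ G, e * T = T * e) → D * T = T * D)
    {t : Finset (Submodule K V)} (ht : ∀ W ∈ t, Irreducible G W) (hsup : t.sup id = ⊤)
    {W : Submodule K V} (hW : Irreducible G W) {φ : V →ₗ[K] V →ₗ[K] K} (hφ : FormOn G W φ) :
    ∀ u ∈ W, ∀ v ∈ W, φ (D u) v + φ u (D v) = κ * φ u v := by
  obtain ⟨w, hw, hw0⟩ := (Submodule.ne_bot_iff W).1 hW.2.1
  -- an irreducible subspace that pairs with `W`
  obtain ⟨U, hUt, y₀, hy₀, hy₀0⟩ : ∃ U ∈ t, ∃ y ∈ U, ψ w y ≠ 0 := by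
    by_contra hcon
    push Not at hcon
    apply hw0
    apply hnd
    have h1 : t.sup id ≤ LinearMap.ker (ψ w) :=
      Finset.sup_le fun U hU y hy => hcon U hU y hy
    rw [hsup] at h1
    exact fun y => h1 Submodule.mem_top
  have hU := ht U hUt
  -- the duality of `W`
  let J : W →ₗ[K] Module.Dual K W := (φ.compl₁₂ W.subtype W.subtype).flip
  have hJa : ∀ (z x : W), J z x = φ x z := fun z x => rfl
  have hsymm : ∀ x ∈ W, ∀ y ∈ W, φ x y = -φ y x := by
    intro x hx y hy
    have h1 := hφ.1 (x + y) (W.add_mem hx hy)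
    simp only [map_add, LinearMap.add_apply, hφ.1 x hx, hφ.1 y hy, zero_add, add_zero] at h1
    linear_combination h1
  have hJinj : Function.Injective J := by
    rw [injective_iff_map_eq_zero]
    intro z hz
    apply Subtype.ext
    apply hφ.2.1 z z.2
    intro y hy
    rw [hsymm z z.2 y hy, ← hJa z ⟨y, hy⟩, hz, LinearMap.zero_apply, neg_zero]
  let Je : W ≃ₗ[K] Module.Dual K W :=
    LinearMap.linearEquivOfInjective J hJinj Subspace.dual_finrank_eq.symm
  have hJe : ∀ z, Je z = J z := fun z => rfl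
  let T : U →ₗ[K] W := Je.symm.toLinearMap ∘ₗ (ψ.compl₁₂ W.subtype U.subtype).flip
  have hT : ∀ (x : W) (y : U), φ x (T y) = ψ x y := by
    intro x y
    rw [← hJa (T y) x, ← hJe]
    change Je (Je.symm ((ψ.compl₁₂ W.subtype U.subtype).flip y)) x = _
    rw [LinearEquiv.apply_symm_apply]
    rfl
  have hTe : Equiv G T := by
    intro e he u v huv
    have h1 : (T v : V) - e (T u) = 0 := by
      apply hφ.2.1 _ (W.sub_mem (T v).2 (hW.1 e he _ (T u).2))
      intro x hx
      rw [hsymm _ (W.sub_mem (T v).2 (hW.1 e he _ (T u).2)) x hx, neg_eq_zero, map_sub,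
        sub_eq_zero]
      have h2 := hT ⟨x, hx⟩ v
      have h3 := hφ.2.2 e he x hx (T u) (T u).2
      have h4 := hT ⟨x, hx⟩ u
      have h5 := hT ⟨e x, hW.1 e he x hx⟩ u
      have h6 := hGψ e he x u
      rw [huv] at h2
      simp only at h2 h4 h5
      linear_combination h2 - h3 + h5 - h4 + h6
    exact sub_eq_zero.1 h1
  have hT0 : T ≠ 0 := by
    intro h
    have h1 := hT ⟨w, hw⟩ ⟨y₀, hy₀⟩
    rw [h, LinearMap.zero_apply, ZeroMemClass.coe_zero, map_zero] at h1
    exact hy₀0 h1.symm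
  have hbij := schur hU hW hTe hT0
  intro u hu v hv
  obtain ⟨y, hy⟩ := hbij.2 ⟨v, hv⟩
  have hDu := stable_of_comm hss hD hW.1 u hu
  have hDy := stable_of_comm hss hD hU.1 y y.2
  have h1 := comm_of_equiv hss hD hU.1 hTe y ⟨D y, hDy⟩ rfl
  have h2 := hT ⟨D u, hDu⟩ y
  have h3 := hT ⟨u, hu⟩ ⟨D y, hDy⟩
  have h4 := hT ⟨u, hu⟩ y
  have h5 := hκ u y
  rw [h1] at h3
  rw [hy] at h2 h3 h4
  simp only at h2 h3 h4
  rw [h2, h3, h4, h5]

/-- isomorphic stable subspaces -/
def Iso (G : Set (Module.End K V)) (U U' : Submodule K V) : Prop :=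
  ∃ φ : U →ₗ[K] U', Equiv G φ ∧ Function.Bijective φ

theorem Iso.refl {G : Set (Module.End K V)} (U : Submodule K V) : Iso G U U :=
  ⟨LinearMap.id, fun _ _ _ _ h => h, Function.bijective_id⟩

theorem Iso.symm {G : Set (Module.End K V)} {U U' : Submodule K V} (hU : Stable G U)
    (h : Iso G U U') : Iso G U' U := by
  obtain ⟨φ, hφ, hb⟩ := h
  refine ⟨(LinearEquiv.ofBijective φ hb).symm.toLinearMap, ?_,
    (LinearEquiv.ofBijective φ hb).symm.bijective⟩
  intro e he u v huv
  obtain ⟨x, rfl⟩ := hb.2 u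
  obtain ⟨y, rfl⟩ := hb.2 v
  have h1 : ∀ z, (LinearEquiv.ofBijective φ hb).symm.toLinearMap (φ z) = z := by
    intro z
    change (LinearEquiv.ofBijective φ hb).symm (φ z) = z
    rw [LinearEquiv.symm_apply_eq]
    rfl
  rw [h1, h1]
  have h2 := hφ e he x ⟨e x, hU e he x x.2⟩ rfl
  have h3 : φ y = φ ⟨e x, hU e he x x.2⟩ := Subtype.ext (huv.trans h2.symm)
  rw [hb.1 h3]

theorem Iso.trans {G : Set (Module.End K V)} {U U' U'' : Submodule K V}
    (h : Iso G U U') (h' : Iso G U' U'') : Iso G U U'' := by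
  obtain ⟨φ, hφ, hb⟩ := h
  obtain ⟨φ', hφ', hb'⟩ := h'
  refine ⟨φ' ∘ₗ φ, ?_, hb'.comp hb⟩
  intro e he u v huv
  have h1 := hφ e he u v huv
  exact hφ' e he (φ u) (φ v) h1

/-- The theorem in commutant form. -/
theorem commutant_full {ψ : V →ₗ[K] V →ₗ[K] K} (hnd : ∀ x, (∀ y, ψ x y = 0) → x = 0)
    {G : Set (Module.End K V)} (hGe : ∀ e ∈ G, e * e = e)
    (hGψ : ∀ e ∈ G, ∀ x y, ψ (e x) y + ψ x (e y) = ψ x y) (hss : Semisimple G)
    (hform : ∀ W, Irreducible G W → ∃ φ, FormOn G W φ)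
    (hodd : ∀ W, Irreducible G W → ∃ N ∈ lieSpan G, N * N = 0 ∧
      Odd (Module.finrank K (W.map N))) (D : Module.End K V) :
    D ∈ lieSpan G ↔ (∃ κ : K, ∀ x y, ψ (D x) y + ψ x (D y) = κ * ψ x y) ∧
      ∀ T : Module.End K V, (∀ e ∈ G, e * T = T * e) → D * T = T * D := by
  constructor
  · intro hD
    refine ⟨?_, fun T hT => comm_span hT D hD⟩
    obtain ⟨κ, hκ⟩ := simil_span (α := Unit) (U := fun _ => ⊤) (φ := fun _ => ψ)
      (fun _ e _ u _ => Submodule.mem_top) (fun e he _ u _ v _ => hGψ e he u v) D hD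
    exact ⟨κ, fun x y => hκ () x Submodule.mem_top y Submodule.mem_top⟩
  rintro ⟨⟨κ, hκ⟩, hcomm⟩
  obtain ⟨t, ht, hsup⟩ := exists_family hss
  -- representatives
  let r : Setoid {W : Submodule K V // W ∈ t} :=
    { r := fun W W' => Iso G W.1 W'.1
      iseqv := ⟨fun W => Iso.refl W.1, fun {W _} h => Iso.symm (ht W.1 W.2).1 h,
        fun {_ _ _} h h' => Iso.trans h h'⟩ }
  let WW : Quotient r → Submodule K V := fun i => i.out.1
  have hWW : ∀ i, Irreducible G (WW i) := fun i => ht _ i.out.2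
  have hWWn : ∀ i j, i ≠ j → ¬ Iso G (WW i) (WW j) := by
    intro i j hij h
    apply hij
    rw [← Quotient.out_eq i, ← Quotient.out_eq j]
    exact Quotient.sound h
  have hrep : ∀ U ∈ t, ∃ i, Iso G (WW i) U := by
    intro U hU
    refine ⟨Quotient.mk r ⟨U, hU⟩, ?_⟩
    exact Quotient.mk_out (⟨U, hU⟩ : {W : Submodule K V // W ∈ t})
  have hfin : Finite (Quotient r) := Quotient.finite r
  choose φ hφ using fun i => hform (WW i) (hWW i)
  choose p hp hpe using fun i => exists_proj hss (hWW i).1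
  -- restriction
  let R : Module.End K V →ₗ[K] ∀ i, Module.End K (WW i) :=
    { toFun := fun x i => (p i) ∘ₗ x ∘ₗ (WW i).subtype
      map_add' := fun x y => by
        funext i
        ext w
        simp
      map_smul' := fun c x => by
        funext i
        ext w
        simp }
  have hR : ∀ x : Module.End K V, ∀ i, (∀ w ∈ WW i, x w ∈ WW i) → ∀ w : WW i,
      (R x i w : V) = x w := by
    intro x i hx w
    change (p i (x w) : V) = x w
    rw [hp i ⟨x w, hx w w.2⟩]
  have hRmul : ∀ x y : Module.End K V, (∀ i, ∀ w ∈ WW i, x w ∈ WW i) →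
      (∀ i, ∀ w ∈ WW i, y w ∈ WW i) → R (x * y) = R x * R y := by
    intro x y hx hy
    funext i
    ext w
    rw [hR (x * y) i (fun w hw => hx i _ (hy i w hw)) w]
    change x (y w) = (R x i (R y i w) : V)
    rw [hR x i (hx i), hR y i (hy i)]
  have hGst : ∀ e ∈ G, ∀ i, ∀ w ∈ WW i, e w ∈ WW i := fun e he i => (hWW i).1 e he
  have hgst : ∀ x ∈ lieSpan G, ∀ i, ∀ w ∈ WW i, x w ∈ WW i :=
    fun x hx i => stable_span (hWW i).1 x hx
  have hDst : ∀ U, Stable G U → ∀ w ∈ U, D w ∈ U := fun U hU => stable_of_comm hss hcomm hU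
  have H : Data (fun i => (φ i).compl₁₂ (WW i).subtype (WW i).subtype) ((lieSpan G).map R)
      (R '' G) := by
    refine ⟨?_, ?_, ?_, ?_, ?_, ?_, ?_, ?_, ?_, ?_⟩
    · intro i x
      exact (hφ i).1 x x.2
    · intro i x hx
      exact Subtype.ext ((hφ i).2.1 x x.2 fun y hy => hx ⟨y, hy⟩)
    · rintro _ ⟨x, hx, rfl⟩ _ ⟨y, hy, rfl⟩
      refine ⟨x * y - y * x, lieSpan_lie x hx y hy, ?_⟩
      rw [map_sub, hRmul x y (hgst x hx) (hgst y hy), hRmul y x (hgst y hy) (hgst x hx)]
    · rintro _ ⟨x, hx, rfl⟩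
      obtain ⟨κ', hκ'⟩ := simil_span (U := WW) (φ := φ) (fun i => (hWW i).1)
        (fun e he i u hu v hv => (hφ i).2.2 e he u hu v hv) x hx
      refine ⟨κ', fun i u v => ?_⟩
      have h1 := hκ' i u u.2 v v.2
      change φ i (R x i u) v + φ i u (R x i v) = κ' * φ i u v
      rw [hR x i (hgst x hx i), hR x i (hgst x hx i), h1]
    · rintro _ ⟨e, he, rfl⟩
      exact ⟨e, subset_lieSpan e he, rfl⟩
    · rintro _ ⟨e, he, rfl⟩
      rw [← hRmul e e (hGst e he) (hGst e he), hGe e he]
    · rintro _ ⟨e, he, rfl⟩ i u v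
      change φ i (R e i u) v + φ i u (R e i v) = φ i u v
      rw [hR e i (hGst e he i), hR e i (hGst e he i)]
      exact (hφ i).2.2 e he u u.2 v v.2
    · intro i U hU
      have h1 : Stable G (U.map (WW i).subtype) := by
        rintro e he _ ⟨w, hw, rfl⟩
        refine ⟨R e i w, hU _ ⟨e, he, rfl⟩ w hw, ?_⟩
        exact hR e i (hGst e he i) w
      rcases (hWW i).2.2 _ h1 (Submodule.map_subtype_le _ _) with h | h
      · left
        rw [eq_bot_iff]
        intro u hu
        have h2 : (u : V) ∈ U.map (WW i).subtype := ⟨u, hu, rfl⟩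
        rw [h, Submodule.mem_bot] at h2
        exact (Submodule.mem_bot K).2 (Subtype.ext h2)
      · right
        rw [eq_top_iff]
        intro u _
        have h2 : (u : V) ∈ U.map (WW i).subtype := by rw [h]; exact u.2
        obtain ⟨u', hu', h3⟩ := h2
        have h4 : u' = u := Subtype.ext h3
        rwa [h4] at hu'
    · intro i j hij f
      by_contra hcon
      push Not at hcon
      apply hWWn i j hij
      refine ⟨f.toLinearMap, ?_, f.bijective⟩
      intro e he u v huv
      have h1 := hcon _ ⟨e, he, rfl⟩ u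
      have h2 : R e i u = v := Subtype.ext ((hR e i (hGst e he i) u).trans huv.symm)
      rw [h2] at h1
      change (f v : V) = e (f u)
      rw [h1]
      exact hR e j (hGst e he j) (f u)
    · intro i
      obtain ⟨N, hN, hNN, hNo⟩ := hodd (WW i) (hWW i)
      refine ⟨R N, ⟨N, hN, rfl⟩, ?_, ?_⟩
      · rw [← hRmul N N (hgst N hN) (hgst N hN), hNN, map_zero]
      · have h1 : (LinearMap.range (R N i)).map (WW i).subtype = (WW i).map N := by
          ext v
          constructor
          · rintro ⟨_, ⟨w, rfl⟩, rfl⟩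
            exact ⟨w, w.2, (hR N i (hgst N hN i) w).symm⟩
          · rintro ⟨w, hw, rfl⟩
            exact ⟨R N i ⟨w, hw⟩, ⟨_, rfl⟩, hR N i (hgst N hN i) ⟨w, hw⟩⟩
        have h2 : Module.finrank K ((LinearMap.range (R N i)).map (WW i).subtype) =
            Module.finrank K (LinearMap.range (R N i)) :=
          Submodule.finrank_map_subtype_eq _ _
        rw [← h2, h1]
        exact hNo
  -- the restriction of `D` belongs to the image
  have hRD : R D ∈ (lieSpan G).map R := by
    rw [H.full]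
    refine ⟨κ, fun i u v => ?_⟩
    change φ i (R D i u) v + φ i u (R D i v) = κ * φ i u v
    rw [hR D i (hDst _ (hWW i).1), hR D i (hDst _ (hWW i).1)]
    exact simil_irr hss hnd hGψ hκ hcomm ht hsup (hWW i) (hφ i) u u.2 v v.2
  obtain ⟨x, hx, hxD⟩ := hRD
  have hxcomm : ∀ T : Module.End K V, (∀ e ∈ G, e * T = T * e) → x * T = T * x :=
    fun T hT => comm_span hT x hx
  have hDx : ∀ i, ∀ w : WW i, D w = x w := by
    intro i w
    rw [← hR D i (hDst _ (hWW i).1), ← hR x i (hgst x hx i), hxD]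
  suffices h : D = x by rw [h]; exact hx
  have hle : t.sup id ≤ LinearMap.ker (D - x) := by
    refine Finset.sup_le fun U hU u hu => ?_
    obtain ⟨i, f, hf, hfb⟩ := hrep U hU
    obtain ⟨w, hw⟩ := hfb.2 ⟨u, hu⟩
    have h1 := comm_of_equiv hss hcomm (hWW i).1 hf w ⟨D w, hDst _ (hWW i).1 w w.2⟩ rfl
    have h2 := comm_of_equiv hss hxcomm (hWW i).1 hf w ⟨D w, hDst _ (hWW i).1 w w.2⟩ (hDx i w)
    rw [hw] at h1 h2
    rw [LinearMap.mem_ker, LinearMap.sub_apply, sub_eq_zero]
    change D u = x u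
    rw [← h1, h2]
  rw [hsup] at hle
  ext v
  have h3 : v ∈ LinearMap.ker (D - x) := hle Submodule.mem_top
  rw [LinearMap.mem_ker, LinearMap.sub_apply, sub_eq_zero] at h3
  exact h3

end Pool.Agent.OddRank
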