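import Pool.Agent.OddRank.Alg

/-!
# The adjoint with respect to an alternating form
-/

set_option autoImplicit false
set_option linter.unusedSectionVars false

namespace Pool.Agent.OddRank

variable {K V : Type*} [Field K] [AddCommGroup V] [Module K V] [FiniteDimensional K V]

omit [FiniteDimensional K V] in
/-- the alternating form is antisymmetric -/
theorem alt_neg {ψ : V →ₗ[K] V →ₗ[K] K} (halt : ∀ x, ψ x x = 0) (x y : V) : ψ x y = -ψ y x := by
  have := halt (x + y)
  simp only [map_add, LinearMap.add_apply, halt, zero_add, add_zero] at this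
  linear_combination this

/-- there is an adjoint operator -/
theorem exists_adjoint {ψ : V →ₗ[K] V →ₗ[K] K} (halt : ∀ x, ψ x x = 0)
    (hnd : ∀ x, (∀ y, ψ x y = 0) → x = 0) :
    ∃ σ : Module.End K V →ₗ[K] Module.End K V,
      (∀ D x y, ψ (D x) y = ψ x (σ D y)) ∧ (∀ D E, σ (D * E) = σ E * σ D) ∧
      (∀ D, σ (σ D) = D) ∧ (∀ D, LinearMap.trace K V (σ D) = LinearMap.trace K V D) := by
  have hs := alt_neg halt
  have hinj : Function.Injective ψ := by
    rw [injective_iff_map_eq_zero]
    intro x hx
    exact hnd x fun y => by rw [hx, LinearMap.zero_apply]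
  let J : V ≃ₗ[K] Module.Dual K V :=
    LinearMap.linearEquivOfInjective ψ hinj Subspace.dual_finrank_eq.symm
  have hJ : ∀ v, J v = ψ v := fun v => rfl
  let σ : Module.End K V →ₗ[K] Module.End K V :=
    (J.symm.conj.toLinearMap).comp (Module.Dual.transpose (R := K) (M := V) (M' := V))
  have h1 : ∀ D x y, ψ (D x) y = ψ x (σ D y) := by
    intro D x y
    have h2 : ψ (σ D y) = (ψ y).comp D := by
      rw [← hJ]
      change J (J.symm.conj (Module.Dual.transpose (R := K) D) y) = _
      rw [LinearEquiv.conj_apply_apply, LinearEquiv.apply_symm_apply, LinearEquiv.symm_symm,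
        hJ, Module.Dual.transpose_apply]
    rw [hs x, h2, LinearMap.comp_apply, ← hs]
  have hnd' : ∀ x, (∀ y, ψ y x = 0) → x = 0 := by
    intro x hx
    apply hnd
    intro y
    rw [hs, hx, neg_zero]
  have huniq : ∀ D E : Module.End K V, (∀ x y, ψ x (D y) = ψ x (E y)) → D = E := by
    intro D E h
    ext y
    rw [← sub_eq_zero]
    apply hnd'
    intro x
    rw [map_sub, h, sub_self]
  refine ⟨σ, h1, ?_, ?_, ?_⟩
  · intro D E
    apply huniq
    intro x y
    rw [← h1, Module.End.mul_apply, Module.End.mul_apply, ← h1, ← h1]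
  · intro D
    apply huniq
    intro x y
    rw [← h1, hs, ← h1, hs, neg_neg]
  · intro D
    change LinearMap.trace K V (J.symm.conj (Module.Dual.transpose (R := K) D)) = _
    rw [LinearMap.trace_conj', LinearMap.trace_transpose']

/-- the trace of an idempotent is a natural number -/
theorem trace_idem {p : Module.End K V} (hp : p * p = p) :
    ∃ k : ℕ, LinearMap.trace K V p = k := by
  refine ⟨Module.finrank K (LinearMap.range p), ?_⟩
  refine LinearMap.IsProj.trace (p := LinearMap.range p) ⟨fun x => ⟨x, rfl⟩, ?_⟩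
  rintro _ ⟨x, rfl⟩
  rw [← Module.End.mul_apply, hp]

end Pool.Agent.OddRank
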