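import Mathlib

/-!
# A square zero element of minimal odd rank is extremal
-/

set_option autoImplicit false

namespace Pool.Agent.OddRank

open Polynomial

section Gen

variable {K V : Type*} [Field K] [AddCommGroup V] [Module K V]

theorem ext_cBc (c x : Module.End K V) (hc : c * c = 0) (k : ℕ) : c * (c * x) ^ k * c = 0 := by
  cases k with
  | zero => simpa using hc
  | succ k => rw [pow_succ', mul_assoc c x, ← mul_assoc c c, hc, zero_mul, zero_mul]

theorem ext_cpc (c x : Module.End K V) (hc : c * c = 0) (p : K[X]) :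
    c * aeval (c * x) p * c = 0 := by
  induction p using Polynomial.induction_on' with
  | add p q hp hq => rw [map_add, mul_add, add_mul, hp, hq, add_zero]
  | monomial n a =>
    rw [aeval_monomial, Algebra.algebraMap_eq_smul_one, smul_mul_assoc, one_mul, mul_smul_comm,
      smul_mul_assoc, ext_cBc c x hc, smul_zero]

theorem ext_pc_range (c x : Module.End K V) (p : K[X]) :
    ∃ y : Module.End K V, aeval (c * x) p * c = c * y := by
  induction p using Polynomial.induction_on' with
  | add p q hp hq =>
    obtain ⟨y, hy⟩ := hp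
    obtain ⟨z, hz⟩ := hq
    exact ⟨y + z, by rw [map_add, add_mul, hy, hz, mul_add]⟩
  | monomial n a =>
    refine ⟨a • (x * c) ^ n, ?_⟩
    rw [aeval_monomial, Algebra.algebraMap_eq_smul_one, smul_mul_assoc, one_mul, mul_smul_comm,
      smul_mul_assoc]
    congr 1
    induction n with
    | zero => simp
    | succ n ih => rw [pow_succ', mul_assoc, ih, pow_succ']; simp only [mul_assoc]

end Gen

section Char0

variable {K V : Type*} [Field K] [CharZero K] [AddCommGroup V] [Module K V]

theorem ext_pow_mem (g : Submodule K (Module.End K V))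
    (hlie : ∀ a ∈ g, ∀ b ∈ g, a * b - b * a ∈ g) (c x : Module.End K V) (hcg : c ∈ g) (hx : x ∈ g)
    (hc : c * c = 0) (k : ℕ) : (c * x) ^ k * c ∈ g := by
  induction k with
  | zero => simpa using hcg
  | succ k ih =>
    have h1 := hlie _ (hlie c hcg x hx) _ ih
    have h2 := ext_cBc c x hc k
    have h3 : (c * x) ^ k * c * c = 0 := by rw [mul_assoc, hc, mul_zero]
    have e : (c * x - x * c) * ((c * x) ^ k * c) - (c * x) ^ k * c * (c * x - x * c) =
        (2 : K) • ((c * x) ^ (k + 1) * c) := by
      have e1 : (c * x - x * c) * ((c * x) ^ k * c) = (c * x) ^ (k + 1) * c := by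
        rw [sub_mul, mul_assoc x c, ← mul_assoc c ((c * x) ^ k), h2, mul_zero, sub_zero,
          pow_succ', mul_assoc (c * x)]
      have e2 : (c * x) ^ k * c * (c * x - x * c) = - ((c * x) ^ (k + 1) * c) := by
        rw [mul_sub, ← mul_assoc _ c x, h3, zero_mul, zero_sub, pow_succ]
        simp only [mul_assoc]
      rw [e1, e2, sub_neg_eq_add, two_smul]
    rw [e] at h1
    have h4 := g.smul_mem ((2 : K)⁻¹) h1
    rwa [smul_smul, inv_mul_cancel₀ (two_ne_zero), one_smul] at h4

theorem ext_aeval_mem (g : Submodule K (Module.End K V))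
    (hlie : ∀ a ∈ g, ∀ b ∈ g, a * b - b * a ∈ g) (c x : Module.End K V) (hcg : c ∈ g) (hx : x ∈ g)
    (hc : c * c = 0) (p : K[X]) : aeval (c * x) p * c ∈ g := by
  induction p using Polynomial.induction_on' with
  | add p q hp hq => rw [map_add, add_mul]; exact g.add_mem hp hq
  | monomial n a =>
    rw [aeval_monomial, Algebra.algebraMap_eq_smul_one, smul_mul_assoc, one_mul, smul_mul_assoc]
    exact g.smul_mem a (ext_pow_mem g hlie c x hcg hx hc n)

end Char0

section Main

variable {K V : Type*} [Field K] [CharZero K] [IsAlgClosed K] [AddCommGroup V] [Module K V]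
    [FiniteDimensional K V]

/-- the trace of `c x` when `c x - l` is nilpotent on the range of `c` -/
theorem ext_trace (c x : Module.End K V) (l : K) (k : ℕ)
    (hk : (c * x - algebraMap K _ l) ^ k * c = 0) :
    LinearMap.trace K V (c * x) = l * (Module.finrank K (LinearMap.range c) : K) ∧
    LinearMap.trace K V (c * x * (c * x)) =
      l * l * (Module.finrank K (LinearMap.range c) : K) := by
  set B := c * x with hB
  have hrange : ∀ v, B v ∈ LinearMap.range c := fun v => ⟨x v, rfl⟩
  have hrange2 : ∀ v, (B * B) v ∈ LinearMap.range c := fun v => ⟨x (B v), rfl⟩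
  set b : Module.End K (LinearMap.range c) := B.restrict (fun v _ => hrange v) with hb
  have ht1 : LinearMap.trace K V B = LinearMap.trace K _ b :=
    (LinearMap.trace_restrict_eq_of_forall_mem (LinearMap.range c) B hrange).symm
  have ht2 : LinearMap.trace K V (B * B) = LinearMap.trace K _ (b * b) := by
    rw [← LinearMap.trace_restrict_eq_of_forall_mem (LinearMap.range c) (B * B) hrange2]
    congr 1
  set n := b - algebraMap K _ l with hn
  have hnilp : n ^ k = 0 := by
    have h1 : ∀ (j : ℕ) (w : LinearMap.range c),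
        (((n ^ j) w : LinearMap.range c) : V) = ((B - algebraMap K _ l) ^ j) (w : V) := by
      intro j
      induction j with
      | zero => intro w; simp
      | succ j ih =>
        intro w
        rw [pow_succ, pow_succ, Module.End.mul_apply, Module.End.mul_apply, ih]
        congr 1
    ext ⟨w, v, rfl⟩
    rw [h1]
    have := congrArg (fun f : Module.End K V => f v) hk
    simpa using this
  have hnil : IsNilpotent n := ⟨k, hnilp⟩
  have t1 : LinearMap.trace K _ n = 0 :=
    (LinearMap.isNilpotent_trace_of_isNilpotent hnil).eq_zero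
  have t2 : LinearMap.trace K _ (n * n) = 0 :=
    (LinearMap.isNilpotent_trace_of_isNilpotent
      ((Commute.refl n).isNilpotent_mul_left hnil)).eq_zero
  have hbn : b = n + l • 1 := by rw [hn, Algebra.algebraMap_eq_smul_one]; abel
  constructor
  · rw [ht1, hbn, map_add, map_smul, t1, LinearMap.trace_one, zero_add, smul_eq_mul]
  · rw [ht2]
    have e : b * b = (l * l) • (1 : Module.End K (LinearMap.range c)) + (2 * l) • n + n * n := by
      rw [hbn]
      simp only [add_mul, mul_add, smul_mul_assoc, mul_smul_comm, mul_one, one_mul, smul_smul,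
        two_mul, add_smul, smul_add]
      abel
    rw [e, map_add, map_add, map_smul, map_smul, t1, t2, LinearMap.trace_one, smul_zero, add_zero,
      add_zero, smul_eq_mul]

/-- the dimension count -/
theorem ext_split (c E F P : Module.End K V) (hE : E = P * c) (hEF : E + F = c)
    (hPE : P * E = E) (hPF : P * F = 0) (hrE : ∃ y, E = c * y) (hrF : ∃ y, F = c * y) :
    Module.finrank K (LinearMap.range c) =
      Module.finrank K (LinearMap.range E) + Module.finrank K (LinearMap.range F) := by
  have hsup : LinearMap.range E ⊔ LinearMap.range F = LinearMap.range c := by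
    apply le_antisymm
    · apply sup_le
      · obtain ⟨y, hy⟩ := hrE
        rintro _ ⟨v, rfl⟩
        exact ⟨y v, by rw [hy]; rfl⟩
      · obtain ⟨y, hy⟩ := hrF
        rintro _ ⟨v, rfl⟩
        exact ⟨y v, by rw [hy]; rfl⟩
    · rintro _ ⟨v, rfl⟩
      rw [← hEF, LinearMap.add_apply]
      exact Submodule.add_mem_sup ⟨v, rfl⟩ ⟨v, rfl⟩
  have hinf : LinearMap.range E ⊓ LinearMap.range F = ⊥ := by
    rw [eq_bot_iff]
    rintro w ⟨⟨v, hv⟩, ⟨u, hu⟩⟩
    have h1 : P w = w := by
      rw [← hv]
      exact congrArg (fun f : Module.End K V => f v) hPE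
    have h2 : P w = 0 := by
      rw [← hu]
      exact congrArg (fun f : Module.End K V => f u) hPF
    rw [h1] at h2
    exact h2
  have h := Submodule.finrank_sup_add_finrank_inf_eq (LinearMap.range E) (LinearMap.range F)
  rw [hsup, hinf, finrank_bot, add_zero] at h
  exact h

theorem ext_eq_zero_of_finrank (F : Module.End K V)
    (h : Module.finrank K (LinearMap.range F) = 0) : F = 0 := by
  rw [Submodule.finrank_eq_zero, LinearMap.range_eq_bot] at h
  exact h

/-- the key step: `c x` has one eigenvalue on the range of `c` -/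
theorem ext_key (g : Submodule K (Module.End K V))
    (hlie : ∀ a ∈ g, ∀ b ∈ g, a * b - b * a ∈ g) (c : Module.End K V) (hcg : c ∈ g)
    (hc : c * c = 0) (hodd : Odd (Module.finrank K (LinearMap.range c)))
    (hmin : ∀ d ∈ g, d * d = 0 → Odd (Module.finrank K (LinearMap.range d)) →
      Module.finrank K (LinearMap.range c) ≤ Module.finrank K (LinearMap.range d))
    (x : Module.End K V) (hx : x ∈ g) :
    ∃ (l : K) (k : ℕ), (c * x - algebraMap K _ l) ^ k * c = 0 := by
  have hpos : 0 < Module.finrank K (LinearMap.range c) := hodd.pos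
  have : Nontrivial (LinearMap.range c) := Module.finrank_pos_iff.1 hpos
  set B := c * x with hB
  have hrange : ∀ v ∈ LinearMap.range c, B v ∈ LinearMap.range c := fun v _ => ⟨x v, rfl⟩
  obtain ⟨l, hl⟩ := Module.End.exists_eigenvalue (B.restrict hrange)
  obtain ⟨w, hw⟩ := hl.exists_hasEigenvector
  have hw0 : (w : V) ≠ 0 := by
    have := hw.2
    simpa using this
  have hwl : B (w : V) = l • (w : V) := by
    have := hw.apply_eq_smul
    have h2 := congrArg (fun z : LinearMap.range c => (z : V)) this
    simpa using h2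
  have hm0 : minpoly K B ≠ 0 := minpoly.ne_zero (Algebra.IsIntegral.isIntegral B)
  obtain ⟨q, hq1, hq2⟩ := Polynomial.exists_eq_pow_rootMultiplicity_mul_and_not_dvd
    (minpoly K B) hm0 l
  set k := rootMultiplicity l (minpoly K B) with hk
  have hcop : IsCoprime ((X - C l) ^ k) q :=
    IsCoprime.pow_left (((Polynomial.irreducible_X_sub_C l).coprime_iff_not_dvd).2 hq2)
  obtain ⟨u, v, huv⟩ := hcop
  have hmB : aeval B ((X - C l) ^ k * q) = 0 := by
    rw [← hq1]
    exact minpoly.aeval K B
  have hBl : aeval B (X - C l) = B - algebraMap K _ l := by simp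
  set P := aeval B (v * q) with hP
  set E := P * c with hE
  set F := aeval B (u * (X - C l) ^ k) * c with hF
  have hEF : E + F = c := by
    rw [hE, hF, hP, ← add_mul, ← map_add, add_comm, huv, map_one, one_mul]
  have hQ : P * aeval B (u * (X - C l) ^ k) = 0 := by
    rw [hP, ← map_mul, show v * q * (u * (X - C l) ^ k) = v * u * ((X - C l) ^ k * q) by ring,
      map_mul, hmB, mul_zero]
  have hPF : P * F = 0 := by rw [hF, ← mul_assoc, hQ, zero_mul]
  have hPE : P * E = E := by
    have h1 : P * c = P * (E + F) := by rw [hEF]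
    rw [mul_add, hPF, add_zero] at h1
    rw [← h1]
  have hdim := ext_split c E F P hE hEF hPE hPF (ext_pc_range c x _) (ext_pc_range c x _)
  have hEg : E ∈ g := ext_aeval_mem g hlie c x hcg hx hc _
  have hFg : F ∈ g := ext_aeval_mem g hlie c x hcg hx hc _
  have hEE : E * E = 0 := by
    have := ext_cpc c x hc (v * q)
    rw [hE, mul_assoc, ← mul_assoc c, hP, this, mul_zero]
  have hFF : F * F = 0 := by
    have := ext_cpc c x hc (u * (X - C l) ^ k)
    rw [hF, mul_assoc, ← mul_assoc c, this, mul_zero]
  rcases Nat.even_or_odd (Module.finrank K (LinearMap.range E)) with hev | hod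
  · -- F has odd rank
    have hFo : Odd (Module.finrank K (LinearMap.range F)) := by
      rw [hdim] at hodd
      rcases Nat.even_or_odd (Module.finrank K (LinearMap.range F)) with h | h
      · exact absurd (hev.add h) (Nat.not_even_iff_odd.2 hodd)
      · exact h
    have h1 := hmin F hFg hFF hFo
    have h2 : E = 0 := ext_eq_zero_of_finrank E (by omega)
    exfalso
    -- then `u(B) (B-l)^k c = c`
    have hk0 : k ≠ 0 := by
      intro h0
      rw [h0, pow_zero, one_mul] at hq1
      have h3 : aeval B (minpoly K B) (w : V) = (minpoly K B).eval l • (w : V) :=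
        Module.End.aeval_apply_of_hasEigenvector (f := B) (μ := l) (x := (w : V))
          ⟨Module.End.mem_eigenspace_iff.2 hwl, hw0⟩
      rw [minpoly.aeval, LinearMap.zero_apply] at h3
      have h4 : (minpoly K B).eval l = 0 := by
        rcases smul_eq_zero.1 h3.symm with h | h
        · exact h
        · exact absurd h hw0
      exact hq2 (by rw [← hq1]; exact Polynomial.dvd_iff_isRoot.2 h4)
    obtain ⟨y, hy⟩ := w.2
    have h3 : c = F := by rw [← hEF, h2, zero_add]
    have h4 : (w : V) = aeval B (u * (X - C l) ^ k) (w : V) := by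
      conv_lhs => rw [← hy, h3, hF]
      rw [Module.End.mul_apply, hy]
    obtain ⟨j, hj⟩ := Nat.exists_eq_succ_of_ne_zero hk0
    have h5 : (aeval B (X - C l)) (w : V) = 0 := by
      rw [hBl, LinearMap.sub_apply, hwl]
      simp [Algebra.algebraMap_eq_smul_one]
    rw [hj, Nat.succ_eq_add_one, pow_succ, ← mul_assoc, map_mul, Module.End.mul_apply, h5,
      map_zero] at h4
    exact hw0 h4
  · have h1 := hmin E hEg hEE hod
    have h2 : F = 0 := ext_eq_zero_of_finrank F (by omega)
    have h3 : c = P * c := by rw [← hE]; rw [h2, add_zero] at hEF; exact hEF.symm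
    refine ⟨l, k, ?_⟩
    rw [h3, ← mul_assoc, ← hBl, ← map_pow, hP, ← map_mul,
      show (X - C l) ^ k * (v * q) = v * ((X - C l) ^ k * q) by ring, map_mul, hmB, mul_zero,
      zero_mul]

theorem exists_extremal (g : Submodule K (Module.End K V))
    (hlie : ∀ a ∈ g, ∀ b ∈ g, a * b - b * a ∈ g)
    (hnd : ∀ x ∈ g, (∀ y ∈ g, LinearMap.trace K V (x * y) = 0) → x = 0)
    {N : Module.End K V} (hN : N ∈ g) (hNN : N * N = 0)
    (hodd : Odd (Module.finrank K (LinearMap.range N))) :
    ∃ (c : Module.End K V) (s : ℕ), Odd s ∧ c ∈ g ∧ c ≠ 0 ∧ c * c = 0 ∧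
      ∀ x ∈ g, c * x * c = (LinearMap.trace K V (c * x) / (s : K)) • c := by
  classical
  have hex : ∃ s : ℕ, Odd s ∧ ∃ c ∈ g, c * c = 0 ∧ Module.finrank K (LinearMap.range c) = s :=
    ⟨_, hodd, N, hN, hNN, rfl⟩
  obtain ⟨hs, c, hcg, hc, hcs⟩ := Nat.find_spec hex
  set s := Nat.find hex with hsdef
  have hmin : ∀ d ∈ g, d * d = 0 → Odd (Module.finrank K (LinearMap.range d)) →
      Module.finrank K (LinearMap.range c) ≤ Module.finrank K (LinearMap.range d) := by
    intro d hd hdd hdo
    rw [hcs]
    exact Nat.find_min' hex ⟨hdo, d, hd, hdd, rfl⟩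
  have hs0 : (s : K) ≠ 0 := Nat.cast_ne_zero.2 hs.pos.ne'
  have hsq : ∀ x ∈ g, (s : K) * LinearMap.trace K V (c * x * (c * x)) =
      LinearMap.trace K V (c * x) * LinearMap.trace K V (c * x) := by
    intro x hx
    obtain ⟨l, k, hk⟩ := ext_key g hlie c hcg hc (by rw [hcs]; exact hs) hmin x hx
    obtain ⟨h1, h2⟩ := ext_trace c x l k hk
    rw [h1, h2, hcs]
    ring
  have hpol : ∀ x ∈ g, ∀ y ∈ g, (s : K) * LinearMap.trace K V (c * x * c * y) =
      LinearMap.trace K V (c * x) * LinearMap.trace K V (c * y) := by
    intro x hx y hy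
    have h1 := hsq (x + y) (g.add_mem hx hy)
    have h2 := hsq x hx
    have h3 := hsq y hy
    have h4 : LinearMap.trace K V (c * y * (c * x)) = LinearMap.trace K V (c * x * (c * y)) :=
      LinearMap.trace_mul_comm K _ _
    rw [mul_add, mul_add, add_mul, add_mul, map_add, map_add, map_add, map_add, h4] at h1
    rw [show c * x * c * y = c * x * (c * y) by rw [mul_assoc (c * x)]]
    have h5 : (2 : K) * ((s : K) * LinearMap.trace K V (c * x * (c * y))) =
        2 * (LinearMap.trace K V (c * x) * LinearMap.trace K V (c * y)) := by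
      linear_combination h1 - h2 - h3
    exact mul_left_cancel₀ two_ne_zero h5
  refine ⟨c, s, hs, hcg, ?_, hc, ?_⟩
  · rintro rfl
    rw [LinearMap.range_zero, finrank_bot] at hcs
    rw [← hcs] at hs
    exact absurd hs (by decide)
  · intro x hx
    have hz : c * x * c - (LinearMap.trace K V (c * x) / (s : K)) • c ∈ g := by
      have := ext_pow_mem g hlie c x hcg hx hc 1
      rw [pow_one] at this
      exact g.sub_mem this (g.smul_mem _ hcg)
    refine sub_eq_zero.1 (hnd _ hz fun y hy => ?_)
    rw [sub_mul, map_sub, smul_mul_assoc, map_smul, smul_eq_mul, sub_eq_zero,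
      div_mul_eq_mul_div, eq_div_iff hs0, mul_comm]
    exact hpol x hx y hy

end Main

end Pool.Agent.OddRank
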