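import Pool.Agent.OddRank.Rank
import Pool.Agent.OddRank.Symp
import Pool.Agent.OddRank.Adjoint
import Pool.Agent.OddRank.TraceND
import Pool.Agent.OddRank.Extremal

/-!
# The irreducible case
-/

set_option autoImplicit false
set_option linter.unusedSectionVars false

namespace Pool.Agent.OddRank

variable {K V : Type*} [Field K] [CharZero K] [IsAlgClosed K] [AddCommGroup V] [Module K V]
  [FiniteDimensional K V]

/-- an idempotent of degree one -/
theorem exists_E {A : Type*} [Ring A] [Algebra K A] {g : Submodule K A}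
    (hlie : ∀ a ∈ g, ∀ b ∈ g, a * b - b * a ∈ g) {σ : A →ₗ[K] A} (hσ1 : σ 1 = 1)
    {e c : A} (he : e ∈ g) (hee : e * e = e) (hσe : σ e = 1 - e) (hec : e * c ≠ c * e) :
    ∃ E : A, E * E = E ∧ (∀ x ∈ g, E * x - x * E ∈ g) ∧ σ E = 1 - E ∧ E * c * (1 - E) ≠ 0 := by
  by_cases h : e * c * (1 - e) = 0
  · refine ⟨1 - e, ?_, ?_, ?_, ?_⟩
    · rw [mul_sub, sub_mul, sub_mul, mul_one, one_mul, hee, mul_one, sub_self, sub_zero]
    · intro x hx
      have := g.neg_mem (hlie _ he _ hx)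
      convert this using 1
      rw [sub_mul, mul_sub, one_mul, mul_one]
      abel
    · rw [map_sub, hσ1, hσe]
    · intro h'
      apply hec
      have h1 : e * c = e * c * e := by
        rw [mul_sub, mul_one, sub_eq_zero] at h
        exact h
      have h2 : c * e = e * c * e := by
        rw [sub_sub_cancel, sub_mul, sub_mul, one_mul, sub_eq_zero] at h'
        exact h'
      rw [h1, ← h2]
  · exact ⟨e, hee, fun x hx => hlie _ he _ hx, hσe, h⟩

theorem setup_irred {ψ : V →ₗ[K] V →ₗ[K] K} (halt : ∀ x, ψ x x = 0)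
    (hnd : ∀ x, (∀ y, ψ x y = 0) → x = 0) {g : Submodule K (Module.End K V)}
    (hlie : ∀ a ∈ g, ∀ b ∈ g, a * b - b * a ∈ g)
    (hgsp : ∀ x ∈ g, ∃ κ : K, ∀ u v, ψ (x u) v + ψ u (x v) = κ * ψ u v)
    (htr : ∀ x ∈ g, (∀ y ∈ g, LinearMap.trace K V (x * y) = 0) → x = 0) {s : ℕ} (hs : Odd s)
    {σ : Module.End K V →ₗ[K] Module.End K V}
    (hσ : (∀ D x y, ψ (D x) y = ψ x (σ D y)) ∧ (∀ D E, σ (D * E) = σ E * σ D) ∧
      (∀ D, σ (σ D) = D) ∧ (∀ D, LinearMap.trace K V (σ D) = LinearMap.trace K V D)) :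
    Setup (LinearMap.trace K V) σ g s := by
  obtain ⟨h1, h2, h3, h4⟩ := hσ
  refine ⟨LinearMap.trace_mul_comm K, fun p hp => trace_idem hp, h2, h3, h4, hlie, ?_, htr, hs⟩
  intro x hx
  obtain ⟨κ, hκ⟩ := hgsp x hx
  refine ⟨κ, ?_⟩
  ext v
  rw [← sub_eq_zero]
  apply hnd
  intro u
  rw [alt_neg halt, neg_eq_zero, map_sub, sub_eq_zero]
  have h5 := hκ u v
  rw [h1] at h5
  simp only [LinearMap.add_apply, map_add, LinearMap.smul_apply, Module.End.one_apply, map_smul,
    smul_eq_mul]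
  rw [← h5, add_comm]

theorem irred {ψ : V →ₗ[K] V →ₗ[K] K} (halt : ∀ x, ψ x x = 0)
    (hnd : ∀ x, (∀ y, ψ x y = 0) → x = 0) {g : Submodule K (Module.End K V)}
    (hlie : ∀ a ∈ g, ∀ b ∈ g, a * b - b * a ∈ g)
    (hgsp : ∀ x ∈ g, ∃ κ : K, ∀ u v, ψ (x u) v + ψ u (x v) = κ * ψ u v)
    {G : Set (Module.End K V)} (hG : ∀ e ∈ G, e ∈ g) (hGe : ∀ e ∈ G, e * e = e)
    (hGψ : ∀ e ∈ G, ∀ x y, ψ (e x) y + ψ x (e y) = ψ x y)
    (hirr : ∀ W : Submodule K V, (∀ e ∈ G, ∀ w ∈ W, e w ∈ W) → W = ⊥ ∨ W = ⊤)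
    {N : Module.End K V} (hN : N ∈ g) (hNN : N * N = 0)
    (hodd : Odd (Module.finrank K (LinearMap.range N))) (u v : V) : mm ψ u v ∈ g := by
  have hnt : Nontrivial V := by
    by_contra h
    rw [not_nontrivial_iff_subsingleton] at h
    have : Module.finrank K (LinearMap.range N) = 0 := Module.finrank_zero_of_subsingleton
    rw [this] at hodd
    exact (by decide : ¬ Odd 0) hodd
  have htr := trace_nondeg g hlie fun W hW => hirr W fun e he => hW e (hG e he)
  obtain ⟨c, s, hs, hc, hc0, hcc, hext⟩ := exists_extremal g hlie htr hN hNN hodd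
  obtain ⟨σ, hσ⟩ := exists_adjoint halt hnd
  have S := setup_irred halt hnd hlie hgsp htr hs hσ
  have hGσ : ∀ e ∈ G, σ e = 1 - e := by
    intro e he
    ext v
    rw [← sub_eq_zero]
    apply hnd
    intro u
    rw [alt_neg halt, neg_eq_zero, map_sub, ← hσ.1, sub_eq_zero]
    have := hGψ e he u v
    simp only [LinearMap.sub_apply, map_sub, Module.End.one_apply]
    rw [← this, add_sub_cancel_right]
  -- a generator that does not commute with `c`
  obtain ⟨e, he, hec⟩ : ∃ e ∈ G, e * c ≠ c * e := by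
    by_contra hcon
    push Not at hcon
    rcases hirr (LinearMap.ker c) (fun e he w hw => by
      rw [LinearMap.mem_ker] at hw ⊢
      rw [← Module.End.mul_apply, ← hcon e he, Module.End.mul_apply, hw, map_zero]) with h | h
    · apply hc0
      rw [LinearMap.ker_eq_bot] at h
      ext w
      apply h
      rw [← Module.End.mul_apply, hcc]
      simp
    · exact hc0 (LinearMap.ker_eq_top.1 h)
  obtain ⟨E, hEE, hEg, hσE, hEc⟩ := exists_E hlie S.σ_one (hG e he) (hGe e he) (hGσ e he) hec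
  obtain ⟨c', f, hpair⟩ := exists_pair S hEE hEg hσE hc hext hEc
  have B := hpair.blk
  obtain ⟨a, ha⟩ := B.rank_one S hG hGe hGσ hirr
  -- `c'` is a multiple of `m(a, a)`
  have hca : ∀ w, ∃ t : K, c' w = t • a := by
    intro w
    have h1 := ha (c' w)
    rw [← Module.End.mul_apply, B.Pc] at h1
    obtain ⟨t, ht⟩ := Submodule.mem_span_singleton.1 h1
    exact ⟨t, ht.symm⟩
  obtain ⟨w₁, hw₁⟩ : ∃ w₁, c' w₁ ≠ 0 := by
    by_contra h
    push Not at h
    exact hpair.c0 (LinearMap.ext h)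
  have ha0 : a ≠ 0 := by
    rintro rfl
    obtain ⟨t, ht⟩ := hca w₁
    rw [smul_zero] at ht
    exact hw₁ ht
  have hskew : ∀ x y, ψ (c' x) y = -ψ x (c' y) := by
    intro x y
    rw [hσ.1, hpair.σc, LinearMap.neg_apply, map_neg]
  obtain ⟨t₁, ht₁⟩ := hca w₁
  have ht₁0 : t₁ ≠ 0 := by
    rintro rfl
    rw [zero_smul] at ht₁
    exact hw₁ ht₁
  -- `ψ(a, w) t(w₁) = ψ(a, w₁) t(w)`
  have h1 : ∀ w t, c' w = t • a → t * ψ a w₁ = t₁ * ψ a w := by
    intro w t ht
    have h2 := hskew w w₁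
    rw [ht, ht₁, map_smul, map_smul, LinearMap.smul_apply, smul_eq_mul, smul_eq_mul,
      alt_neg halt w a] at h2
    rw [h2]
    ring
  have hψ1 : ψ a w₁ ≠ 0 := by
    intro h
    apply ha0
    apply hnd
    intro y
    obtain ⟨t, ht⟩ := hca y
    have h2 := h1 y t ht
    rw [h, mul_zero] at h2
    rcases mul_eq_zero.1 h2.symm with h3 | h3
    · exact absurd h3 ht₁0
    · exact h3
  have hm : mm ψ a a ∈ g := by
    have h2 : mm ψ a a = (2 * ψ a w₁ * t₁⁻¹) • c' := by
      ext w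
      obtain ⟨t, ht⟩ := hca w
      have h3 := h1 w t ht
      rw [mm_apply, LinearMap.smul_apply, ht, smul_smul, ← add_smul]
      congr 1
      field_simp
      linear_combination -2 * h3
    rw [h2]
    exact g.smul_mem _ hpair.cg
  exact mm_mem halt hnd hlie (fun e he b hb => hlie _ (hG e he) _ hb) hGe hGψ hirr ha0 hm u v

end Pool.Agent.OddRank
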