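import Pool.Agent.OddRank.Alg

/-!
# The block decomposition with respect to an extremal pair
-/

set_option autoImplicit false
set_option linter.unusedSectionVars false

namespace Pool.Agent.OddRank

variable {K A : Type*} [Field K] [CharZero K] [Ring A] [Algebra K A]

/-- An extremal pair with the orthogonal idempotents `P = c f`, `Q = f c`, `R = 1 - P - Q`. -/
structure Blk (tr : A →ₗ[K] K) (σ : A →ₗ[K] A) (g : Submodule K A) (s : ℕ) (E c f P Q R : A) :
    Prop extends Pair tr σ g s E c f where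
  cf : c * f = P
  fc : f * c = Q
  hR : R = 1 - P - Q

variable {tr : A →ₗ[K] K} {σ : A →ₗ[K] A} {g : Submodule K A} {s : ℕ} {E c f P Q R : A}

theorem Pair.blk (B : Pair tr σ g s E c f) :
    Blk tr σ g s E c f (c * f) (f * c) (1 - c * f - f * c) :=
  { B with cf := rfl, fc := rfl, hR := rfl }

namespace Blk

variable (B : Blk tr σ g s E c f P Q R)
include B

theorem cc : c * c = 0 := by
  calc c * c = c * (E * c) := by rw [B.Ec]
    _ = (c * E) * c := (mul_assoc _ _ _).symm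
    _ = 0 := by rw [B.cE, zero_mul]

theorem ff : f * f = 0 := by
  calc f * f = (f * E) * f := by rw [B.fE]
    _ = f * (E * f) := mul_assoc _ _ _
    _ = 0 := by rw [B.Ef, mul_zero]

theorem Pc : P * c = c := by rw [← B.cf, B.cfc]
theorem cQ : c * Q = c := by rw [← B.fc, ← mul_assoc, B.cfc]
theorem Qf : Q * f = f := by rw [← B.fc, B.fcf]
theorem fP : f * P = f := by rw [← B.cf, ← mul_assoc, B.fcf]
theorem cP : c * P = 0 := by rw [← B.cf, ← mul_assoc, B.cc, zero_mul]
theorem Qc : Q * c = 0 := by rw [← B.fc, mul_assoc, B.cc, mul_zero]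
theorem Pf : P * f = 0 := by rw [← B.cf, mul_assoc, B.ff, mul_zero]
theorem fQ : f * Q = 0 := by rw [← B.fc, ← mul_assoc, B.ff, zero_mul]
theorem PP : P * P = P := by
  calc P * P = P * (c * f) := by rw [B.cf]
    _ = P := by rw [← mul_assoc, B.Pc, B.cf]
theorem QQ : Q * Q = Q := by
  calc Q * Q = Q * (f * c) := by rw [B.fc]
    _ = Q := by rw [← mul_assoc, B.Qf, B.fc]
theorem PQ : P * Q = 0 := by
  calc P * Q = P * (f * c) := by rw [B.fc]
    _ = 0 := by rw [← mul_assoc, B.Pf, zero_mul]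
theorem QP : Q * P = 0 := by
  calc Q * P = Q * (c * f) := by rw [B.cf]
    _ = 0 := by rw [← mul_assoc, B.Qc, zero_mul]
theorem PR : P * R = 0 := by rw [B.hR, mul_sub, mul_sub, mul_one, B.PP, B.PQ, sub_self, sub_zero]
theorem RP : R * P = 0 := by rw [B.hR, sub_mul, sub_mul, one_mul, B.PP, B.QP, sub_self, sub_zero]
theorem QR : Q * R = 0 := by rw [B.hR, mul_sub, mul_sub, mul_one, B.QP, B.QQ, sub_zero, sub_self]
theorem RQ : R * Q = 0 := by rw [B.hR, sub_mul, sub_mul, one_mul, B.PQ, B.QQ, sub_zero, sub_self]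
theorem RR : R * R = R := by
  calc R * R = (1 - P - Q) * R := by rw [← B.hR]
    _ = R := by rw [sub_mul, sub_mul, one_mul, B.PR, B.QR, sub_zero, sub_zero]
theorem cR : c * R = 0 := by
  rw [B.hR, mul_sub, mul_sub, mul_one, B.cP, B.cQ, sub_zero, sub_self]
theorem Rc : R * c = 0 := by
  rw [B.hR, sub_mul, sub_mul, one_mul, B.Pc, B.Qc, sub_self, sub_zero]
theorem fR : f * R = 0 := by
  rw [B.hR, mul_sub, mul_sub, mul_one, B.fP, B.fQ, sub_self, sub_zero]
theorem Rf : R * f = 0 := by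
  rw [B.hR, sub_mul, sub_mul, one_mul, B.Pf, B.Qf, sub_zero, sub_self]
theorem EP : E * P = P := by rw [← B.cf, ← mul_assoc, B.Ec]
theorem PE : P * E = P := by rw [← B.cf, mul_assoc, B.fE]
theorem EQ : E * Q = 0 := by rw [← B.fc, ← mul_assoc, B.Ef, zero_mul]
theorem QE : Q * E = 0 := by rw [← B.fc, mul_assoc, B.cE, mul_zero]
theorem ER : E * R = R * E := by
  rw [B.hR, mul_sub, mul_sub, sub_mul, sub_mul, one_mul, mul_one, B.EP, B.PE, B.EQ, B.QE]

theorem one_eq : (1 : A) = P + Q + R := by rw [B.hR]; abel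

-- right associated forms
theorem PPa (x : A) : P * (P * x) = P * x := by rw [← mul_assoc, B.PP]
theorem QQa (x : A) : Q * (Q * x) = Q * x := by rw [← mul_assoc, B.QQ]
theorem RRa (x : A) : R * (R * x) = R * x := by rw [← mul_assoc, B.RR]
theorem PQa (x : A) : P * (Q * x) = 0 := by rw [← mul_assoc, B.PQ, zero_mul]
theorem QPa (x : A) : Q * (P * x) = 0 := by rw [← mul_assoc, B.QP, zero_mul]
theorem PRa (x : A) : P * (R * x) = 0 := by rw [← mul_assoc, B.PR, zero_mul]
theorem RPa (x : A) : R * (P * x) = 0 := by rw [← mul_assoc, B.RP, zero_mul]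
theorem QRa (x : A) : Q * (R * x) = 0 := by rw [← mul_assoc, B.QR, zero_mul]
theorem RQa (x : A) : R * (Q * x) = 0 := by rw [← mul_assoc, B.RQ, zero_mul]

theorem hmem (S : Setup tr σ g s) : P - Q ∈ g := by
  rw [← B.cf, ← B.fc]
  exact S.lie _ B.cg _ B.fg

theorem σP (S : Setup tr σ g s) : σ P = Q := by
  rw [← B.cf, S.σ_mul, B.σc, B.σf, neg_mul_neg, B.fc]

theorem σQ (S : Setup tr σ g s) : σ Q = P := by rw [← B.σP S, S.σσ]

theorem σR (S : Setup tr σ g s) : σ R = R := by
  rw [B.hR, map_sub, map_sub, S.σ_one, B.σP S, B.σQ S]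
  abel

theorem trP (S : Setup tr σ g s) : tr P = s := by
  have h1 := B.ext f B.fg
  rw [B.cfc, B.cf] at h1
  have h2 : (1 - tr P / s) • c = 0 := by rw [sub_smul, one_smul, ← h1, sub_self]
  rcases smul_eq_zero.1 h2 with h | h
  · have h3 : tr P / s = 1 := by linear_combination -h
    rw [div_eq_one_iff_eq S.s_ne] at h3
    exact h3
  · exact absurd h B.c0

/-- the component of weight two -/
theorem two (S : Setup tr σ g s) {D : A} (hD : D ∈ g) : ∃ κ : K, P * D * Q = κ • c := by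
  have h1 := B.ext _ (quad_mem S B.fg B.ff hD)
  refine ⟨tr (c * (f * D * f)) / s, ?_⟩
  rw [← h1, ← B.cf, ← B.fc]
  simp only [mul_assoc]

/-- the component of weight minus two -/
theorem mtwo {D : A} (hD : D ∈ g) : ∃ κ : K, Q * D * P = κ • f := by
  refine ⟨tr (c * D) / s, ?_⟩
  have h1 := B.ext D hD
  have h2 : Q * D * P = f * (c * D * c) * f := by
    rw [← B.cf, ← B.fc]
    simp only [mul_assoc]
  rw [h2, h1, mul_smul_comm, smul_mul_assoc, B.fcf]

theorem two_mem (S : Setup tr σ g s) {D : A} (hD : D ∈ g) : P * D * Q ∈ g := by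
  obtain ⟨κ, h⟩ := B.two S hD
  rw [h]
  exact g.smul_mem _ B.cg

theorem mtwo_mem {D : A} (hD : D ∈ g) : Q * D * P ∈ g := by
  obtain ⟨κ, h⟩ := B.mtwo hD
  rw [h]
  exact g.smul_mem _ B.fg

/-- the component of weight one -/
theorem up_mem (S : Setup tr σ g s) {D : A} (hD : D ∈ g) : P * D * R + R * D * Q ∈ g := by
  have h0 : D - P * D * Q - Q * D * P ∈ g :=
    g.sub_mem (g.sub_mem hD (B.two_mem S hD)) (B.mtwo_mem hD)
  have h1 := S.lie _ (B.hmem S) _ h0
  have h2 := S.lie _ (B.hmem S) _ h1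
  have h4 := g.smul_mem (2⁻¹ : K) (g.add_mem h2 h1)
  convert h4 using 1
  rw [eq_inv_smul_iff₀ (two_ne_zero), B.hR, two_smul]
  simp only [mul_sub, sub_mul, mul_one, one_mul, mul_assoc, B.PP, B.QQ, B.PQ, B.QP, B.PPa, B.QQa,
    B.PQa, B.QPa, mul_zero]
  abel

/-- the component of weight minus one -/
theorem dn_mem (S : Setup tr σ g s) {D : A} (hD : D ∈ g) : R * D * P + Q * D * R ∈ g := by
  have h0 : D - P * D * Q - Q * D * P ∈ g :=
    g.sub_mem (g.sub_mem hD (B.two_mem S hD)) (B.mtwo_mem hD)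
  have h1 := S.lie _ (B.hmem S) _ h0
  have h2 := S.lie _ (B.hmem S) _ h1
  have h4 := g.smul_mem (2⁻¹ : K) (g.sub_mem h2 h1)
  convert h4 using 1
  rw [eq_inv_smul_iff₀ (two_ne_zero), B.hR, two_smul]
  simp only [mul_sub, sub_mul, mul_one, one_mul, mul_assoc, B.PP, B.QQ, B.PQ, B.QP, B.PPa, B.QQa,
    B.PQa, B.QPa, mul_zero]
  abel

end Blk

end Pool.Agent.OddRank
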