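import Pool.Agent.OddRank.Scalar

/-!
# The corner `P g R g P` is scalar; idempotents of the Lie algebra
-/

set_option autoImplicit false
set_option linter.unusedSectionVars false

namespace Pool.Agent.OddRank

variable {K A : Type*} [Field K] [CharZero K] [Ring A] [Algebra K A]

variable {tr : A →ₗ[K] K} {σ : A →ₗ[K] A} {g : Submodule K A} {s : ℕ} {E c f P Q R : A}

namespace Blk

variable (B : Blk tr σ g s E c f P Q R)
include B

/-- the corner `P x R y P` is scalar for `x, y` in `g` -/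
theorem corner (S : Setup tr σ g s) [IsAlgClosed K] {x y : A} (hx : x ∈ g) (hy : y ∈ g) :
    ∃ κ : K, P * x * R * y * P = κ • P := by
  have hE1 : (1 - E) * E = 0 := by rw [sub_mul, one_mul, B.EE, sub_self]
  have h1E : E * (1 - E) = 0 := by rw [mul_sub, mul_one, B.EE, sub_self]
  have h11 : (1 - E) * (1 - E) = 1 - E := by rw [mul_sub, mul_one, hE1, sub_zero]
  -- the weight components
  obtain ⟨x', hx'⟩ : ∃ x', x' = P * x * R + R * x * Q := ⟨_, rfl⟩
  obtain ⟨y', hy'⟩ : ∃ y', y' = R * y * P + Q * y * R := ⟨_, rfl⟩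
  have hx'g : x' ∈ g := hx' ▸ B.up_mem S hx
  have hy'g : y' ∈ g := hy' ▸ B.dn_mem S hy
  have hxw : P * x' + x' * Q = x' := by
    rw [hx']
    simp only [mul_add, add_mul, mul_assoc, B.PPa, B.PRa, B.RQ, B.QQ, mul_zero, add_zero,
      zero_add]
  have hyw : Q * y' + y' * P = y' := by
    rw [hy']
    simp only [mul_add, add_mul, mul_assoc, B.QQa, B.QRa, B.RP, B.PP, mul_zero, add_zero,
      zero_add]
    abel
  have hxP : x' * P = 0 := by
    rw [hx']
    simp only [add_mul, mul_assoc, B.RP, B.QP, mul_zero, add_zero]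
  have hQx : Q * x' = 0 := by
    rw [hx']
    simp only [mul_add, mul_assoc, B.QPa, B.QRa, add_zero]
  have hPy : P * y' = 0 := by
    rw [hy']
    simp only [mul_add, mul_assoc, B.PRa, B.PQa, add_zero]
  have hyQ : y' * Q = 0 := by
    rw [hy']
    simp only [add_mul, mul_assoc, B.PQ, B.RQ, mul_zero, add_zero]
  have hgoal : P * x * R * y * P = P * x' * y' * P := by
    rw [hx', hy']
    simp only [mul_add, add_mul, mul_assoc, B.PPa, B.PRa, B.RP, B.PP, B.RRa, mul_zero,
      add_zero]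
  rw [hgoal]
  -- the degree components
  have e1 : (1 - E) * x' * E = 0 := by
    rw [hx']
    have a1 : (1 - E) * P = 0 := by rw [sub_mul, one_mul, B.EP, sub_self]
    calc (1 - E) * (P * x * R + R * x * Q) * E
        = ((1 - E) * P) * x * R * E + (1 - E) * R * x * (Q * E) := by
          simp only [mul_add, add_mul, mul_assoc]
      _ = 0 := by rw [a1, B.QE]; simp only [zero_mul, mul_zero, add_zero]
  have e2 : E * y' * (1 - E) = 0 := by
    rw [hy']
    have a1 : P * (1 - E) = 0 := by rw [mul_sub, mul_one, B.PE, sub_self]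
    calc E * (R * y * P + Q * y * R) * (1 - E)
        = E * R * y * (P * (1 - E)) + (E * Q) * y * R * (1 - E) := by
          simp only [mul_add, add_mul, mul_assoc]
      _ = 0 := by rw [a1, B.EQ]; simp only [zero_mul, mul_zero, add_zero]
  obtain ⟨x1, hx1⟩ : ∃ x1, x1 = E * x' * (1 - E) := ⟨_, rfl⟩
  obtain ⟨y1, hy1⟩ : ∃ y1, y1 = (1 - E) * y' * E := ⟨_, rfl⟩
  have hx1g : x1 ∈ g := hx1 ▸ deg_one_mem B.EE B.Eg hx'g
  have hy1g : y1 ∈ g := hy1 ▸ deg_neg_mem B.EE B.Eg hy'g
  obtain ⟨x0, hx0⟩ : ∃ x0, x0 = x' - x1 := ⟨_, rfl⟩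
  obtain ⟨y0, hy0⟩ : ∃ y0, y0 = y' - y1 := ⟨_, rfl⟩
  have hx0g : x0 ∈ g := hx0 ▸ g.sub_mem hx'g hx1g
  have hy0g : y0 ∈ g := hy0 ▸ g.sub_mem hy'g hy1g
  have hX1 : IsX g E P Q x1 := by
    refine ⟨hx1g, ?_, ?_, ?_⟩
    · rw [hx1, ← mul_assoc, ← mul_assoc, B.EE]
    · rw [hx1, mul_assoc, hE1, mul_zero]
    · have a1 : P * (E * x' * (1 - E)) = E * (P * x') * (1 - E) := by
        simp only [← mul_assoc, B.PE, B.EP]
      have a2 : Q * (1 - E) = (1 - E) * Q := by
        rw [mul_sub, sub_mul, mul_one, one_mul, B.QE, B.EQ]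
      have a3 : E * x' * (1 - E) * Q = E * (x' * Q) * (1 - E) := by
        rw [mul_assoc (E * x'), ← a2]
        simp only [mul_assoc]
      rw [hx1, a1, a3, ← add_mul, ← mul_add, hxw]
  have hY1 : IsY g E P Q y1 := by
    refine ⟨hy1g, ?_, ?_, ?_⟩
    · rw [hy1, ← mul_assoc, ← mul_assoc, h1E, zero_mul, zero_mul]
    · rw [hy1, mul_assoc ((1 - E) * y'), B.EE]
    · have a2 : Q * (1 - E) = (1 - E) * Q := by
        rw [mul_sub, sub_mul, mul_one, one_mul, B.QE, B.EQ]
      have a1 : Q * ((1 - E) * y' * E) = (1 - E) * (Q * y') * E := by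
        rw [← mul_assoc, ← mul_assoc, a2]
        simp only [mul_assoc]
      have a3 : (1 - E) * y' * E * P = (1 - E) * (y' * P) * E := by
        rw [mul_assoc ((1 - E) * y'), B.EP]
        simp only [mul_assoc, B.PE]
      rw [hy1, a1, a3, ← add_mul, ← mul_add, hyw]
  -- `x0` and `y0` commute with `E`
  have hx0E : x0 * E = E * x0 := by
    have a1 : x' * E = E * x' * E := by
      have := e1
      rw [sub_mul, sub_mul, one_mul, sub_eq_zero] at this
      exact this
    have b1 : x0 * E = x' * E := by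
      rw [hx0, hx1, sub_mul, mul_assoc (E * x') (1 - E) E, hE1, mul_zero, sub_zero]
    have b2 : E * x0 = E * x' * E := by
      rw [hx0, hx1, mul_sub, ← mul_assoc E (E * x'), ← mul_assoc E E, B.EE, mul_sub, mul_one,
        sub_sub_cancel]
    rw [b1, b2, a1]
  have hy0E : y0 * E = E * y0 := by
    have a1 : E * y' = E * y' * E := by
      have := e2
      rw [mul_sub, mul_one, sub_eq_zero] at this
      exact this
    have b1 : y0 * E = E * y' * E := by
      rw [hy0, hy1, sub_mul, mul_assoc ((1 - E) * y') E E, B.EE, sub_mul 1 E y', one_mul,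
        sub_mul, sub_sub_cancel]
    have b2 : E * y0 = E * y' := by
      rw [hy0, hy1, mul_sub, ← mul_assoc E, ← mul_assoc E (1 - E), h1E, zero_mul, zero_mul,
        sub_zero]
    rw [b1, b2, ← a1]
  have hx0w : P * x0 + x0 * Q = x0 := by
    rw [hx0, mul_sub, sub_mul]
    conv_rhs => rw [← hxw, ← hX1.wt]
    abel
  have hy0w : Q * y0 + y0 * P = y0 := by
    rw [hy0, mul_sub, sub_mul]
    conv_rhs => rw [← hyw, ← hY1.wt]
    abel
  have hx0P : x0 * P = 0 := by rw [hx0, sub_mul, hxP, B.X_xP hX1, sub_zero]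
  have hQx0 : Q * x0 = 0 := by rw [hx0, mul_sub, hQx, B.X_Qx hX1, sub_zero]
  have hPy0 : P * y0 = 0 := by rw [hy0, mul_sub, hPy, B.Y_Py hY1, sub_zero]
  have hy0Q : y0 * Q = 0 := by rw [hy0, sub_mul, hyQ, B.Y_yQ hY1, sub_zero]
  have hxs : x' = x1 + x0 := by rw [hx0]; abel
  have hys : y' = y1 + y0 := by rw [hy0]; abel
  have hexp : P * x' * y' * P = P * (x1 * y1 * P) + P * x0 * (y0 * P) := by
    have a1 : x1 * (y0 * P) = 0 := by
      have : y0 * P = E * (y0 * P) := by
        rw [← mul_assoc, ← hy0E, mul_assoc, B.EP]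
      rw [this, ← mul_assoc, hX1.xE, zero_mul]
    have a2 : P * x0 * y1 = 0 := by
      have : P * x0 = P * x0 * E := by
        rw [mul_assoc, hx0E, ← mul_assoc, B.PE]
      rw [this, mul_assoc, hY1.Ey, mul_zero]
    calc P * x' * y' * P = P * (x1 + x0) * (y1 + y0) * P := by rw [← hxs, ← hys]
      _ = P * (x1 * y1 * P) + P * (x1 * (y0 * P)) + (P * x0 * y1) * P + P * x0 * (y0 * P) := by
        simp only [mul_add, add_mul, mul_assoc]; abel
      _ = _ := by rw [a1, a2, mul_zero, zero_mul, add_zero, add_zero]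
  rw [hexp, B.XY_PxyP hX1 hY1, B.XY_scalar S hX1 hY1]
  -- the degree zero part
  obtain ⟨y2, hy2⟩ : ∃ y2, y2 = f * x0 - x0 * f := ⟨_, rfl⟩
  obtain ⟨x2, hx2⟩ : ∃ x2, x2 = c * y0 - y0 * c := ⟨_, rfl⟩
  have hY2 : IsY g E P Q y2 := by
    refine ⟨hy2 ▸ S.lie _ B.fg _ hx0g, ?_, ?_, ?_⟩
    · rw [hy2, mul_sub, ← mul_assoc, B.Ef, zero_mul, ← mul_assoc, ← hx0E, mul_assoc, B.Ef,
        mul_zero, sub_zero]
    · rw [hy2, sub_mul, mul_assoc, hx0E, ← mul_assoc, B.fE, mul_assoc x0, B.fE]
    · rw [hy2, mul_sub, sub_mul, ← mul_assoc, B.Qf, ← mul_assoc, hQx0, zero_mul, mul_assoc f,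
        hx0P, mul_zero, mul_assoc x0, B.fP]
      abel
  have hX2 : IsX g E P Q x2 := by
    refine ⟨hx2 ▸ S.lie _ B.cg _ hy0g, ?_, ?_, ?_⟩
    · rw [hx2, mul_sub, ← mul_assoc, B.Ec, ← mul_assoc, ← hy0E, mul_assoc, B.Ec]
    · rw [hx2, sub_mul, mul_assoc, hy0E, ← mul_assoc, B.cE, zero_mul, mul_assoc y0, B.cE,
        mul_zero, sub_zero]
    · rw [hx2, mul_sub, sub_mul, ← mul_assoc, B.Pc, ← mul_assoc, hPy0, zero_mul, mul_assoc c,
        hy0Q, mul_zero, mul_assoc y0, B.cQ]
      abel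
  have hc : P * x0 = c * y2 := by
    have a1 : x0 * f = x0 * Q * f := by rw [mul_assoc, B.Qf]
    have a2 : c * (x0 * f) = 0 := by
      have : c * x0 * Q = 0 := by
        have b1 : c * x0 = 0 := by
          calc c * x0 = c * Q * x0 := by rw [B.cQ]
            _ = 0 := by rw [mul_assoc, hQx0, mul_zero]
        rw [b1, zero_mul]
      rw [a1, ← mul_assoc, ← mul_assoc, this, zero_mul]
    rw [hy2, mul_sub, a2, sub_zero, ← mul_assoc, B.cf]
  have hf : y0 * P = -(x2 * f) := by
    have a1 : c * y0 * f = 0 := by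
      have b1 : y0 * f = 0 := by
        calc y0 * f = y0 * (Q * f) := by rw [B.Qf]
          _ = 0 := by rw [← mul_assoc, hy0Q, zero_mul]
      rw [mul_assoc, b1, mul_zero]
    rw [hx2, sub_mul, a1, mul_assoc y0, B.cf]
    abel
  have hst := B.star hX2 hY2 S
  have hs2 := B.XY_scalar S hX2 hY2
  refine ⟨tr (x1 * y1 * P) / s - tr (x2 * y2 * P) / s, ?_⟩
  have h3 : c * y2 * x2 * f = (tr (x2 * y2 * P) / s) • P := by
    have : c * y2 * x2 * f = (2 * (tr (x2 * y2 * P) / s)) • P - x2 * y2 * P := by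
      rw [← hst]; abel
    rw [this]
    conv_lhs => rw [hs2]
    have h4 : tr ((tr (x2 * y2 * P) / s) • P) = tr (x2 * y2 * P) := by rw [← hs2]
    rw [h4]
    module
  rw [hc, hf, mul_neg, ← mul_assoc, h3]
  module

/-- An idempotent of `g` with `σ e = 1 - e`: either `P e P` is scalar or the difference with
`P / 2` has square zero. -/
theorem idem (S : Setup tr σ g s) [IsAlgClosed K] {e : A} (he : e ∈ g) (hee : e * e = e)
    (hσe : σ e = 1 - e) : (∃ κ : K, P * e * P = κ • P) ∨
      (P * e * P - (2⁻¹ : K) • P) * (P * e * P - (2⁻¹ : K) • P) = 0 := by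
  obtain ⟨κ1, h1⟩ := B.corner S he he
  obtain ⟨l, hl⟩ := B.two S he
  obtain ⟨μ, hμ⟩ := B.mtwo he
  obtain ⟨ε, hε⟩ : ∃ ε, ε = P * e * P := ⟨_, rfl⟩
  obtain ⟨ε', hε'⟩ : ∃ ε', ε' = c * e * f := ⟨_, rfl⟩
  -- first quadratic equation
  have q1 : ε * ε + (κ1 + l * μ) • P = ε := by
    have a1 : ε = ε * ε + P * e * R * e * P + (P * e * Q) * (Q * e * P) := by
      calc ε = P * (e * (P + Q + R) * e) * P := by rw [← B.one_eq, mul_one, hee, hε]
        _ = P * e * P * e * P + P * e * Q * e * P + P * e * R * e * P := by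
          simp only [mul_add, add_mul, mul_assoc]
        _ = _ := by
          rw [hε]
          simp only [mul_assoc, B.PPa, B.QQa]
          abel
    rw [h1, hl, hμ, smul_mul_smul_comm, B.cf] at a1
    conv_rhs => rw [a1]
    module
  -- second quadratic equation
  have q2 : ε' * ε' + (κ1 + l * μ) • P = ε' := by
    have a0 : Q * e * R * e * Q = κ1 • Q := by
      have := congrArg σ h1
      simp only [S.σ_mul, B.σP S, B.σR S, hσe, map_smul] at this
      rw [← this]
      simp only [sub_mul, mul_sub, one_mul, mul_assoc, B.QRa, B.RQ, zero_sub, neg_neg, mul_neg]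
    have a1 : ε' = ε' * ε' + c * e * P * e * f + c * e * R * e * f := by
      calc ε' = c * (e * (P + Q + R) * e) * f := by rw [← B.one_eq, mul_one, hee, hε']
        _ = c * e * P * e * f + c * e * Q * e * f + c * e * R * e * f := by
          simp only [mul_add, add_mul, mul_assoc]
        _ = _ := by
          rw [hε', ← B.fc]
          simp only [mul_assoc]
          abel
    have a2 : c * e * P * e * f = (l * μ) • P := by
      calc c * e * P * e * f = c * (Q * e * P) * (P * e * Q) * f := by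
            have b1 : c * e * P * e * f = (c * Q) * e * (P * P) * e * (Q * f) := by
              rw [B.cQ, B.PP, B.Qf]
            rw [b1]
            simp only [mul_assoc]
        _ = (l * μ) • P := by
            rw [hl, hμ, mul_smul_comm, mul_smul_comm, smul_mul_assoc, smul_mul_assoc,
              smul_mul_assoc, B.cf, mul_assoc, B.cf, B.PP, smul_smul]
    have a3 : c * e * R * e * f = κ1 • P := by
      calc c * e * R * e * f = c * (Q * e * R * e * Q) * f := by
            have b1 : c * e * R * e * f = (c * Q) * e * R * e * (Q * f) := by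
              rw [B.cQ, B.Qf]
            rw [b1]
            simp only [mul_assoc]
        _ = κ1 • P := by
            rw [a0, mul_smul_comm, smul_mul_assoc, B.cQ, B.cf]
    rw [a2, a3] at a1
    conv_rhs => rw [a1]
    module
  -- the relation of the two
  obtain ⟨κ, hκ⟩ := B.two S (S.lie _ he _ B.cg)
  have rel : ε - ε' = κ • P := by
    have a1 := congrArg (fun z => z * f) hκ
    simp only [smul_mul_assoc, B.cf] at a1
    rw [← a1, hε, hε']
    have a2 : P * (e * c - c * e) * Q * f = P * e * (c * f) - (P * c) * e * f := by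
      rw [mul_assoc _ Q f, B.Qf]
      simp only [mul_sub, sub_mul, mul_assoc]
    rw [a2, B.cf, B.Pc]
  have hPε : P * ε = ε := by rw [hε, ← mul_assoc, ← mul_assoc, B.PP]
  have hεP : ε * P = ε := by rw [hε, mul_assoc, B.PP]
  rw [← hε]
  by_cases hk : κ = 0
  · right
    rw [hk, zero_smul, sub_eq_zero] at rel
    -- trace
    have t1 : tr ε = tr (P * e) := by
      rw [hε, S.tr_comm, ← mul_assoc, B.PP]
    have t2 : tr ε' = s - tr (P * e) := by
      have b1 : tr (c * e * f) = tr (e * Q) := by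
        rw [mul_assoc, S.tr_comm, mul_assoc, B.fc]
      have b2 : tr (e * Q) = tr (P * (1 - e)) := by
        rw [← S.tr_σ, S.σ_mul, B.σQ S, hσe]
      rw [hε', b1, b2, mul_sub, mul_one, map_sub, B.trP S]
    have t3 : tr ε = 2⁻¹ * s := by
      have : tr ε = s - tr ε := by
        conv_lhs => rw [rel, t2, ← t1]
      linear_combination this / 2
    have hPT : P * (ε - (2⁻¹ : K) • P) = ε - (2⁻¹ : K) • P := by
      rw [mul_sub, mul_smul_comm, hPε, B.PP]
    have hTP : (ε - (2⁻¹ : K) • P) * P = ε - (2⁻¹ : K) • P := by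
      rw [sub_mul, smul_mul_assoc, hεP, B.PP]
    have hsq : (ε - (2⁻¹ : K) • P) * (ε - (2⁻¹ : K) • P) = (4⁻¹ - (κ1 + l * μ)) • P := by
      have a1 : ε * ε = ε - (κ1 + l * μ) • P := by
        rw [eq_sub_iff_add_eq]; exact q1
      simp only [mul_sub, sub_mul, mul_smul_comm, smul_mul_assoc, hPε, hεP, B.PP]
      rw [a1]
      have : (4⁻¹ : K) = 2⁻¹ * 2⁻¹ := by norm_num
      rw [this]
      module
    have hz := S.skew_sq B.PP (B.trP S) hPT hTP hsq (by
      rw [map_sub, map_smul, t3, B.trP S, smul_eq_mul, sub_self])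
    rw [hsq, hz, zero_smul]
  · left
    have e1 : ε' = ε - κ • P := by rw [← rel]; abel
    rw [e1] at q2
    have e2 : (2 * κ) • ε = (κ ^ 2 + κ) • P := by
      have a1 : (ε - κ • P) * (ε - κ • P) = ε * ε - (2 * κ) • ε + (κ ^ 2) • P := by
        simp only [mul_sub, sub_mul, mul_smul_comm, smul_mul_assoc, hPε, hεP, B.PP]
        module
      rw [a1] at q2
      have a2 : ε * ε = ε - (κ1 + l * μ) • P := by
        rw [eq_sub_iff_add_eq]; exact q1
      rw [a2] at q2
      have a3 : (2 * κ) • ε = (2 * κ) • ε + ((ε - (κ1 + l * μ) • P - (2 * κ) • ε + κ ^ 2 • P +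
          (κ1 + l * μ) • P) - (ε - κ • P)) := by rw [q2, sub_self, add_zero]
      rw [a3]
      module
    refine ⟨(2 * κ)⁻¹ * (κ ^ 2 + κ), ?_⟩
    rw [← smul_smul, ← e2, smul_smul, inv_mul_cancel₀ (mul_ne_zero two_ne_zero hk), one_smul]

end Blk

end Pool.Agent.OddRank
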