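import Pool.Agent.OddRank.Two

/-!
# Several components
-/

set_option autoImplicit false
set_option linter.unusedSectionVars false

namespace Pool.Agent.OddRank

variable {K : Type*} [Field K] [CharZero K] [IsAlgClosed K] {ι : Type*} [Finite ι]
  {W : ι → Type*} [∀ i, AddCommGroup (W i)] [∀ i, Module K (W i)]
  [∀ i, FiniteDimensional K (W i)]

/-- the structural assumptions for a Lie algebra acting on several symplectic spaces -/
structure Data (ψ : ∀ i, W i →ₗ[K] W i →ₗ[K] K) (g : Submodule K (∀ i, Module.End K (W i)))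
    (G : Set (∀ i, Module.End K (W i))) : Prop where
  halt : ∀ i x, ψ i x x = 0
  hnd : ∀ i x, (∀ y, ψ i x y = 0) → x = 0
  hlie : ∀ a ∈ g, ∀ b ∈ g, a * b - b * a ∈ g
  hgsp : ∀ x ∈ g, ∃ κ : K, ∀ i u v, ψ i (x i u) v + ψ i u (x i v) = κ * ψ i u v
  hG : ∀ e ∈ G, e ∈ g
  hGe : ∀ e ∈ G, e * e = e
  hGψ : ∀ e ∈ G, ∀ i x y, ψ i (e i x) y + ψ i x (e i y) = ψ i x y
  hirr : ∀ i, ∀ U : Submodule K (W i), (∀ e ∈ G, ∀ w ∈ U, e i w ∈ U) → U = ⊥ ∨ U = ⊤
  hniso : ∀ i j, i ≠ j → ∀ φ : W i ≃ₗ[K] W j, ∃ e ∈ G, ∃ u, φ (e i u) ≠ e j (φ u)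
  hN : ∀ i, ∃ N ∈ g, N * N = 0 ∧ Odd (Module.finrank K (LinearMap.range (N i)))

variable {ψ : ∀ i, W i →ₗ[K] W i →ₗ[K] K} {g : Submodule K (∀ i, Module.End K (W i))}
  {G : Set (∀ i, Module.End K (W i))}

namespace Data

variable (H : Data ψ g G)
include H

theorem map_lie (i : ι) : ∀ a ∈ g.map (LinearMap.proj i), ∀ b ∈ g.map (LinearMap.proj i),
    a * b - b * a ∈ g.map (LinearMap.proj (R := K) (φ := fun i => Module.End K (W i)) i) := by
  rintro _ ⟨a, ha, rfl⟩ _ ⟨b, hb, rfl⟩
  exact ⟨_, H.hlie a ha b hb, rfl⟩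

theorem nontriv (i : ι) : Nontrivial (W i) := by
  obtain ⟨N, _, _, hodd⟩ := H.hN i
  by_contra h
  rw [not_nontrivial_iff_subsingleton] at h
  have : Module.finrank K (LinearMap.range (N i)) = 0 := Module.finrank_zero_of_subsingleton
  rw [this] at hodd
  exact (by decide : ¬ Odd 0) hodd

theorem mm_proj (i : ι) (u v : W i) :
    ∃ x ∈ g, x i = mm (ψ i) u v := by
  obtain ⟨N, hN, hNN, hodd⟩ := H.hN i
  have h := irred (g := g.map (LinearMap.proj (R := K) (φ := fun i => Module.End K (W i)) i))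
    (G := (fun e : ∀ i, Module.End K (W i) => e i) '' G) (H.halt i) (H.hnd i) (H.map_lie i)
    (by
      rintro _ ⟨x, hx, rfl⟩
      obtain ⟨κ, hκ⟩ := H.hgsp x hx
      exact ⟨κ, hκ i⟩)
    (by
      rintro _ ⟨e, he, rfl⟩
      exact ⟨e, H.hG e he, rfl⟩)
    (by
      rintro _ ⟨e, he, rfl⟩
      exact congrFun (H.hGe e he) i)
    (by
      rintro _ ⟨e, he, rfl⟩
      exact H.hGψ e he i)
    (by
      intro U hU
      exact H.hirr i U fun e he => hU _ ⟨e, he, rfl⟩)
    (N := N i) ⟨N, hN, rfl⟩ (congrFun hNN i) hodd u v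
  obtain ⟨x, hx, hx'⟩ := h
  exact ⟨x, hx, hx'⟩

theorem tr_nd (i : ι) : ∀ x ∈ g, (∀ y ∈ g, LinearMap.trace K (W i) (x i * y i) = 0) → x i = 0 := by
  have := H.nontriv i
  have h := trace_nondeg (g.map (LinearMap.proj (R := K) (φ := fun i => Module.End K (W i)) i))
    (H.map_lie i) (fun U hU => H.hirr i U fun e he => hU _ ⟨e, H.hG e he, rfl⟩)
  intro x hx hxy
  refine h (x i) ⟨x, hx, rfl⟩ ?_
  rintro _ ⟨y, hy, rfl⟩
  exact hxy y hy

open Classical in
/-- each component of type `sp` is contained in `g` -/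
theorem single_mem (i : ι) (u v : W i) : Pi.single i (mm (ψ i) u v) ∈ g := by
  have := Fintype.ofFinite ι
  obtain ⟨N, hN, hNN, hodd⟩ := H.hN i
  have hNi : N i ≠ 0 := by
    intro h
    rw [h, LinearMap.range_zero, finrank_bot] at hodd
    exact (by decide : ¬ Odd 0) hodd
  obtain ⟨c, hc, hcc, hci, hfit⟩ := exists_min H.hlie i hN hNN hNi
  -- skewness
  have hκ0 : ∀ x ∈ g, x * x = 0 → ∀ j a b, ψ j (x j a) b + ψ j a (x j b) = 0 := by
    intro x hx hxx j a b
    obtain ⟨κ, hκ⟩ := H.hgsp x hx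
    have h0 : ∀ w, x j (x j w) = 0 := by
      intro w
      exact LinearMap.congr_fun (congrFun hxx j) w
    by_cases hκ1 : κ = 0
    · rw [hκ, hκ1, zero_mul]
    · exfalso
      have := H.nontriv j
      obtain ⟨w, hw⟩ := exists_ne (0 : W j)
      obtain ⟨y, hy⟩ : ∃ y, ψ j w y ≠ 0 := by
        by_contra hcon
        push Not at hcon
        exact hw (H.hnd j w hcon)
      -- `κ² ψ = 2 ψ(x·, x·)` and `κ ψ(x·, x·) = 0`
      have e1 : κ * ψ j (x j w) (x j y) = 0 := by
        rw [← hκ j (x j w) (x j y), h0, h0, map_zero, map_zero, LinearMap.zero_apply, add_zero]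
      have e2 : κ * ψ j (x j w) y = ψ j (x j w) (x j y) := by
        rw [← hκ j (x j w) y, h0, map_zero, LinearMap.zero_apply, zero_add]
      have e3 : κ * ψ j w (x j y) = ψ j (x j w) (x j y) := by
        rw [← hκ j w (x j y), h0, map_zero, add_zero]
      have e4 : κ * (κ * ψ j w y) = 2 * ψ j (x j w) (x j y) := by
        rw [← hκ j w y, mul_add, e2, e3, two_mul]
      have e5 : ψ j (x j w) (x j y) = 0 := by
        rcases mul_eq_zero.1 e1 with h | h
        · exact absurd h hκ1
        · exact h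
      rw [e5, mul_zero] at e4
      rcases mul_eq_zero.1 e4 with h | h
      · exact hκ1 h
      · rcases mul_eq_zero.1 h with h | h
        · exact hκ1 h
        · exact hy h
  -- rank one
  have hrank : ∀ j, c j ≠ 0 → ∃ (b : W j) (μ : K), b ≠ 0 ∧ μ ≠ 0 ∧
      ∀ w, c j w = (μ * ψ j b w) • b := by
    intro j hcj
    refine rank_one_of (H.halt j) (H.hnd j) (hκ0 c hc hcc j) hcj fun u => ?_
    obtain ⟨x, hx, hxj⟩ := H.mm_proj j u u
    obtain ⟨t, k, htk⟩ := hfit x hx
    refine ⟨t, k, ?_⟩
    rw [← hxj]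
    exact congrFun htk j
  -- extremality
  have hext : ∀ x ∈ g, ∃ t : K, c * x * c = t • c := by
    intro x hx
    obtain ⟨t, k, htk⟩ := hfit x hx
    refine ⟨t, ?_⟩
    funext j
    change c j * x j * c j = t • c j
    by_cases hcj : c j = 0
    · rw [hcj, mul_zero, smul_zero]
    · obtain ⟨b, μ, hb, hμ, hcb⟩ := hrank j hcj
      have h1 : (c j * x j) b = (μ * ψ j b (x j b)) • b := by
        rw [Module.End.mul_apply, hcb]
      have h2 : ∀ n : ℕ, ((c j * x j - t • 1) ^ n) b = (μ * ψ j b (x j b) - t) ^ n • b := by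
        intro n
        induction n with
        | zero => simp
        | succ n ih =>
          rw [pow_succ, Module.End.mul_apply]
          have h3 : (c j * x j - t • (1 : Module.End K (W j))) b =
              (μ * ψ j b (x j b) - t) • b := by
            rw [LinearMap.sub_apply, h1, LinearMap.smul_apply, Module.End.one_apply, sub_smul]
          rw [h3, map_smul, ih, smul_smul, pow_succ, mul_comm]
      obtain ⟨w, hw⟩ : ∃ w, ψ j b w ≠ 0 := by
        by_contra hcon
        push Not at hcon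
        exact hb (H.hnd j b hcon)
      have h4 : ((c j * x j - t • 1) ^ k) (c j w) = 0 := LinearMap.congr_fun (congrFun htk j) w
      rw [hcb, map_smul, h2, smul_smul] at h4
      have h5 : μ * ψ j b (x j b) = t := by
        rcases smul_eq_zero.1 h4 with h6 | h6
        · rcases mul_eq_zero.1 h6 with h7 | h7
          · exact absurd h7 (mul_ne_zero hμ hw)
          · by_contra h8
            exact pow_ne_zero k (sub_ne_zero.2 h8) h7
        · exact absurd h6 hb
      ext v
      rw [Module.End.mul_apply, Module.End.mul_apply, LinearMap.smul_apply, hcb v, map_smul,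
        map_smul, hcb, h5, smul_comm]
  -- the other components vanish
  have hcj : ∀ j, j ≠ i → c j = 0 := by
    intro j hji
    by_contra hcj
    obtain ⟨b₁, μ₁, hb₁, hμ₁, hc₁⟩ := hrank i hci
    obtain ⟨b₂, μ₂, hb₂, hμ₂, hc₂⟩ := hrank j hcj
    let pr : (∀ i, Module.End K (W i)) →ₗ[K] Module.End K (W i) × Module.End K (W j) :=
      (LinearMap.proj i).prod (LinearMap.proj j)
    obtain ⟨φ, hφ⟩ := two_comp (g := g.map pr) (G := pr '' G) (c := pr c) (H.halt i) (H.hnd i)
      (H.halt j) (H.hnd j)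
      (by
        rintro _ ⟨a, ha, rfl⟩ _ ⟨b, hb, rfl⟩
        exact ⟨_, H.hlie a ha b hb, rfl⟩)
      (by
        rintro _ ⟨x, hx, rfl⟩
        obtain ⟨κ, hκ⟩ := H.hgsp x hx
        exact ⟨κ, hκ i, hκ j⟩)
      (by
        rintro _ ⟨e, he, rfl⟩
        exact ⟨e, H.hG e he, rfl⟩)
      (by
        rintro _ ⟨e, he, rfl⟩
        exact Prod.ext (congrFun (H.hGe e he) i) (congrFun (H.hGe e he) j))
      (by
        rintro _ ⟨e, he, rfl⟩
        exact H.hGψ e he i)
      (by
        rintro _ ⟨e, he, rfl⟩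
        exact H.hGψ e he j)
      (by
        intro U hU
        exact H.hirr i U fun e he => hU _ ⟨e, he, rfl⟩)
      (by
        intro U hU
        exact H.hirr j U fun e he => hU _ ⟨e, he, rfl⟩)
      (by
        intro u v
        obtain ⟨x, hx, hx'⟩ := H.mm_proj i u v
        exact ⟨pr x, ⟨x, hx, rfl⟩, hx'⟩)
      (by
        intro u v
        obtain ⟨x, hx, hx'⟩ := H.mm_proj j u v
        exact ⟨pr x, ⟨x, hx, rfl⟩, hx'⟩)
      (by
        rintro _ ⟨x, hx, rfl⟩ h
        exact H.tr_nd i x hx fun y hy => h _ ⟨y, hy, rfl⟩)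
      ⟨c, hc, rfl⟩
      (by
        exact Prod.ext (congrFun hcc i) (congrFun hcc j))
      hb₁ hb₂ hμ₁ hμ₂ hc₁ hc₂
      (by
        rintro _ ⟨x, hx, rfl⟩
        obtain ⟨t, ht⟩ := hext x hx
        exact ⟨t, Prod.ext (congrFun ht i) (congrFun ht j)⟩)
    obtain ⟨e, he, u, hu⟩ := H.hniso i j hji.symm φ
    exact hu (hφ _ ⟨e, he, rfl⟩ u)
  -- conclusion
  obtain ⟨b, μ, hb, hμ, hcb⟩ := hrank i hci
  have hcs : c = Pi.single i (c i) := by
    funext j
    by_cases h : j = i
    · subst h
      rw [Pi.single_eq_same]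
    · rw [hcj j h, Pi.single_eq_of_ne h]
  have hbb : mm (ψ i) b b = (2 * μ⁻¹) • c i := by
    ext w
    rw [mm_apply, LinearMap.smul_apply, hcb, smul_smul, ← add_smul]
    congr 1
    field_simp
    ring
  let sg : Module.End K (W i) →ₗ[K] ∀ i, Module.End K (W i) :=
    LinearMap.single K (fun i => Module.End K (W i)) i
  have hsg : ∀ a b : Module.End K (W i), sg (a * b - b * a) = sg a * sg b - sg b * sg a := by
    intro a b
    funext j
    change (Pi.single i (a * b - b * a) : ∀ i, Module.End K (W i)) j =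
      (Pi.single i a : ∀ i, Module.End K (W i)) j * (Pi.single i b : ∀ i, Module.End K (W i)) j -
        (Pi.single i b : ∀ i, Module.End K (W i)) j * (Pi.single i a : ∀ i, Module.End K (W i)) j
    by_cases h : j = i
    · subst h
      simp only [Pi.single_eq_same]
    · simp only [Pi.single_eq_of_ne h, mul_zero, sub_self]
  refine mm_mem (g := g.comap sg) (G := (fun e : ∀ i, Module.End K (W i) => e i) '' G) (H.halt i)
    (H.hnd i) ?_ ?_ ?_ ?_ ?_ hb ?_ u v
  · intro a ha b hb
    rw [Submodule.mem_comap] at ha hb ⊢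
    rw [hsg]
    exact H.hlie _ ha _ hb
  · rintro _ ⟨e, he, rfl⟩ b hb
    rw [Submodule.mem_comap] at hb ⊢
    have h1 := H.hlie _ (H.hG e he) _ hb
    convert h1 using 1
    funext j
    change (Pi.single i (e i * b - b * e i) : ∀ i, Module.End K (W i)) j =
      e j * (Pi.single i b : ∀ i, Module.End K (W i)) j -
        (Pi.single i b : ∀ i, Module.End K (W i)) j * e j
    by_cases h : j = i
    · subst h
      simp only [Pi.single_eq_same]
    · simp only [Pi.single_eq_of_ne h, mul_zero, zero_mul, sub_self]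
  · rintro _ ⟨e, he, rfl⟩
    exact congrFun (H.hGe e he) i
  · rintro _ ⟨e, he, rfl⟩
    exact H.hGψ e he i
  · intro U hU
    exact H.hirr i U fun e he => hU _ ⟨e, he, rfl⟩
  · rw [Submodule.mem_comap, hbb, map_smul]
    refine g.smul_mem _ ?_
    change Pi.single i (c i) ∈ g
    rw [← hcs]
    exact hc

/-- the full algebra of similitudes -/
theorem full (D : ∀ i, Module.End K (W i)) :
    D ∈ g ↔ ∃ κ : K, ∀ i u v, ψ i (D i u) v + ψ i u (D i v) = κ * ψ i u v := by
  classical
  have := Fintype.ofFinite ι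
  refine ⟨H.hgsp D, ?_⟩
  -- skew elements
  have hskew : ∀ D : ∀ i, Module.End K (W i),
      (∀ i u v, ψ i (D i u) v + ψ i u (D i v) = 0) → D ∈ g := by
    intro D hD
    have h1 : ∀ i, Pi.single i (D i) ∈ g := by
      intro i
      have h2 := skew_mem (g := g.comap (LinearMap.single K (fun i => Module.End K (W i)) i))
        (H.halt i) (H.hnd i) (fun u v => by
          rw [Submodule.mem_comap]
          have := H.single_mem i u v
          convert this using 1
          funext j
          by_cases h : j = i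
          · subst h
            simp
          · simp [Pi.single_eq_of_ne h]) (hD i)
      rw [Submodule.mem_comap] at h2
      exact h2
    have h2 : D = ∑ i, Pi.single i (D i) := (Finset.univ_sum_single D).symm
    rw [h2]
    exact Submodule.sum_mem _ fun i _ => h1 i
  rintro ⟨κ, hκ⟩
  rcases isEmpty_or_nonempty ι with hι | ⟨⟨i⟩⟩
  · have : D = 0 := funext fun i => (hι.false i).elim
    rw [this]
    exact g.zero_mem
  -- there is a generator
  obtain ⟨e, he⟩ : G.Nonempty := by
    by_contra hcon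
    rw [Set.not_nonempty_iff_eq_empty] at hcon
    have := H.nontriv i
    obtain ⟨b, hb⟩ := exists_ne (0 : W i)
    rcases H.hirr i (K ∙ b) (fun e he => by rw [hcon] at he; exact absurd he (Set.notMem_empty e))
      with h | h
    · rw [Submodule.span_singleton_eq_bot] at h
      exact hb h
    · apply hb
      apply H.hnd i
      intro y
      have hy : y ∈ K ∙ b := h ▸ Submodule.mem_top
      obtain ⟨t, rfl⟩ := Submodule.mem_span_singleton.1 hy
      rw [map_smul, H.halt, smul_zero]
  have h1 : (1 : ∀ i, Module.End K (W i)) ∈ g := by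
    have h2 : (e - (2⁻¹ : K) • 1 : ∀ i, Module.End K (W i)) ∈ g := by
      apply hskew
      intro i u v
      have h3 := H.hGψ e he i u v
      simp only [Pi.sub_apply, Pi.smul_apply, Pi.one_apply, LinearMap.sub_apply,
        LinearMap.smul_apply, Module.End.one_apply, map_sub, map_smul, smul_eq_mul]
      linear_combination h3
    have h3 := g.smul_mem (2 : K) (g.sub_mem (H.hG e he) h2)
    rwa [sub_sub_cancel, smul_smul, mul_inv_cancel₀ (two_ne_zero), one_smul] at h3
  have h2 : D - (2⁻¹ * κ) • 1 ∈ g := by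
    apply hskew
    intro i u v
    have h3 := hκ i u v
    simp only [Pi.sub_apply, Pi.smul_apply, Pi.one_apply, LinearMap.sub_apply,
      LinearMap.smul_apply, Module.End.one_apply, map_sub, map_smul, smul_eq_mul]
    linear_combination h3
  have h3 := g.add_mem h2 (g.smul_mem (2⁻¹ * κ) h1)
  rwa [sub_add_cancel] at h3

end Data

end Pool.Agent.OddRank
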