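import Mathlib

/-!
# Square-zero elements of minimal rank in a product
-/

set_option autoImplicit false
set_option linter.unusedSectionVars false

namespace Pool.Agent.OddRank

open Polynomial

section Alg

variable {K A : Type*} [Field K] [CharZero K] [Ring A] [Algebra K A] {g : Submodule K A}

theorem pow_mul_mem (hlie : ∀ a ∈ g, ∀ b ∈ g, a * b - b * a ∈ g) {c x : A} (hc : c ∈ g)
    (hcc : c * c = 0) (hx : x ∈ g) (k : ℕ) : (c * x) ^ k * c ∈ g := by
  induction k with
  | zero => rwa [pow_zero, one_mul]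
  | succ k ih =>
    have h1 := hlie _ (hlie _ hc _ hx) _ ih
    have h0 : c * ((c * x) ^ k * c) = 0 := by
      cases k with
      | zero => rw [pow_zero, one_mul, hcc]
      | succ k => rw [pow_succ', ← mul_assoc, ← mul_assoc, ← mul_assoc, hcc, zero_mul, zero_mul,
          zero_mul]
    have h2 : (c * x - x * c) * ((c * x) ^ k * c) - (c * x) ^ k * c * (c * x - x * c) =
        (2 : K) • ((c * x) ^ (k + 1) * c) := by
      have e1 : (c * x - x * c) * ((c * x) ^ k * c) = (c * x) ^ (k + 1) * c := by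
        rw [sub_mul, mul_assoc x c, h0, mul_zero, sub_zero, ← mul_assoc, ← pow_succ']
      have e2 : (c * x) ^ k * c * (c * x - x * c) = -((c * x) ^ (k + 1) * c) := by
        rw [mul_sub, mul_assoc _ c (c * x), ← mul_assoc c c x, hcc, zero_mul, mul_zero, zero_sub,
          pow_succ, neg_inj]
        simp only [mul_assoc]
      rw [e1, e2, sub_neg_eq_add, two_smul]
    rw [h2] at h1
    have h3 := g.smul_mem (2⁻¹ : K) h1
    rwa [smul_smul, inv_mul_cancel₀ (two_ne_zero), one_smul] at h3

theorem aeval_mul_mem (hlie : ∀ a ∈ g, ∀ b ∈ g, a * b - b * a ∈ g) {c x : A} (hc : c ∈ g)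
    (hcc : c * c = 0) (hx : x ∈ g) (p : K[X]) : aeval (c * x) p * c ∈ g := by
  rw [aeval_eq_sum_range, Finset.sum_mul]
  refine Submodule.sum_mem _ fun k _ => ?_
  rw [smul_mul_assoc]
  exact g.smul_mem _ (pow_mul_mem hlie hc hcc hx k)

theorem aeval_mul_comm (c x : A) (p : K[X]) : aeval (c * x) p * c = c * aeval (x * c) p := by
  rw [aeval_eq_sum_range, aeval_eq_sum_range, Finset.sum_mul, Finset.mul_sum]
  refine Finset.sum_congr rfl fun k _ => ?_
  rw [smul_mul_assoc, mul_smul_comm]
  congr 1
  have h : SemiconjBy c (x * c) (c * x) := by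
    rw [SemiconjBy, mul_assoc]
  exact (h.pow_right k).eq.symm

theorem aeval_sq {c x : A} (hcc : c * c = 0) (p : K[X]) :
    (aeval (c * x) p * c) * (aeval (c * x) p * c) = 0 := by
  rw [aeval_mul_comm c x p, mul_assoc, ← mul_assoc (aeval (x * c) p), ← mul_assoc]
  have : ∀ q : K[X], c * (aeval (x * c) q * c) = 0 := by
    intro q
    rw [aeval_eq_sum_range, Finset.sum_mul, Finset.mul_sum]
    refine Finset.sum_eq_zero fun k _ => ?_
    rw [smul_mul_assoc, mul_smul_comm]
    cases k with
    | zero => rw [pow_zero, one_mul, hcc, smul_zero]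
    | succ k => rw [pow_succ, mul_assoc, mul_assoc x, hcc, mul_zero, mul_zero, mul_zero, smul_zero]
  rw [mul_assoc c, ← mul_assoc c, this, zero_mul]

end Alg

section Prod

variable {K : Type*} [Field K] [CharZero K] [IsAlgClosed K] {ι : Type*} [Fintype ι]
  {W : ι → Type*} [∀ i, AddCommGroup (W i)] [∀ i, Module K (W i)]
  [∀ i, FiniteDimensional K (W i)]

theorem aeval_apply (B : ∀ i, Module.End K (W i)) (p : K[X]) (i : ι) :
    (aeval B p) i = aeval (B i) p := by
  rw [aeval_eq_sum_range, aeval_eq_sum_range, Finset.sum_apply]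
  rfl

theorem exists_min {g : Submodule K (∀ i, Module.End K (W i))}
    (hlie : ∀ a ∈ g, ∀ b ∈ g, a * b - b * a ∈ g) (i : ι) {N : ∀ i, Module.End K (W i)}
    (hN : N ∈ g) (hNN : N * N = 0) (hNi : N i ≠ 0) :
    ∃ c ∈ g, c * c = 0 ∧ c i ≠ 0 ∧ ∀ x ∈ g, ∃ (t : K) (k : ℕ), (c * x - t • 1) ^ k * c = 0 := by
  classical
  -- minimality
  have hex : ∃ n : ℕ, ∃ c ∈ g, c * c = 0 ∧ c i ≠ 0 ∧
      ∑ j, Module.finrank K (LinearMap.range (c j)) = n := ⟨_, N, hN, hNN, hNi, rfl⟩
  obtain ⟨c, hc, hcc, hci, hn⟩ := Nat.find_spec hex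
  refine ⟨c, hc, hcc, hci, fun x hx => ?_⟩
  -- an eigenvalue on the range of `c i`
  obtain ⟨B, hB⟩ : ∃ B, B = c * x := ⟨_, rfl⟩
  have hBi : ∀ j, B j = c j * x j := fun j => by rw [hB]; rfl
  obtain ⟨u₀, hu₀⟩ : ∃ u, c i u ≠ 0 := by
    by_contra h
    push Not at h
    exact hci (LinearMap.ext h)
  obtain ⟨t, w, hw, hw0, hwt⟩ : ∃ (t : K) (w : W i), w ∈ LinearMap.range (c i) ∧ w ≠ 0 ∧
      B i w = t • w := by
    have hmap : ∀ w ∈ LinearMap.range (c i), B i w ∈ LinearMap.range (c i) := by
      intro w _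
      exact ⟨x i w, by rw [hBi]; rfl⟩
    have : Nontrivial (LinearMap.range (c i)) :=
      ⟨⟨⟨c i u₀, u₀, rfl⟩, 0, fun h => hu₀ (congrArg Subtype.val h)⟩⟩
    obtain ⟨t, ht⟩ := Module.End.exists_eigenvalue ((B i).restrict hmap)
    obtain ⟨w, hw⟩ := ht.exists_hasEigenvector
    refine ⟨t, w.1, w.2, fun h => hw.2 (Subtype.ext h), ?_⟩
    have := congrArg Subtype.val hw.apply_eq_smul
    simpa using this
  -- the minimal polynomial
  have hint : IsIntegral K B := Algebra.IsIntegral.isIntegral B
  obtain ⟨q, hq, hqt⟩ := Polynomial.exists_eq_pow_rootMultiplicity_mul_and_not_dvd (minpoly K B)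
    (minpoly.ne_zero hint) t
  set k := (minpoly K B).rootMultiplicity t with hk
  have hroot : (minpoly K B).IsRoot t := by
    have h1 : aeval (B i) (minpoly K B) w = 0 := by
      rw [← aeval_apply, minpoly.aeval]
      rfl
    have h2 : aeval (B i) (minpoly K B) w = (minpoly K B).eval t • w := by
      have : (B i).HasEigenvector t w := ⟨Module.End.mem_eigenspace_iff.2 hwt, hw0⟩
      exact Module.End.aeval_apply_of_hasEigenvector this
    rw [h2] at h1
    rcases smul_eq_zero.1 h1 with h | h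
    · exact h
    · exact absurd h hw0
  have hk0 : k ≠ 0 := by
    have := (Polynomial.rootMultiplicity_pos (minpoly.ne_zero hint)).2 hroot
    rw [← hk] at this
    exact this.ne'
  have hcop : IsCoprime ((X - C t) ^ k) q :=
    IsCoprime.pow_left (((Polynomial.irreducible_X_sub_C t).coprime_iff_not_dvd).2 hqt)
  obtain ⟨a, b, hab⟩ := hcop
  -- the idempotent
  obtain ⟨P, hP⟩ : ∃ P, P = aeval B (b * q) := ⟨_, rfl⟩
  have hPP : P * P = P := by
    have h1 : P * (1 - P) = 0 := by
      have h2 : (1 : ∀ i, Module.End K (W i)) - P = aeval B (a * (X - C t) ^ k) := by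
        rw [hP, eq_comm, eq_sub_iff_add_eq, ← map_add, hab, map_one]
      rw [h2, hP, ← map_mul]
      have h3 : b * q * (a * (X - C t) ^ k) = (a * b) * minpoly K B := by
        rw [hq]
        ring
      rw [h3, map_mul, minpoly.aeval, mul_zero]
    rw [mul_sub, mul_one, sub_eq_zero] at h1
    exact h1.symm
  have hPg : P * c ∈ g := by
    rw [hP, hB]
    exact aeval_mul_mem hlie hc hcc hx _
  have hPsq : (P * c) * (P * c) = 0 := by
    rw [hP, hB]
    exact aeval_sq hcc _
  have hPi : (P * c) i ≠ 0 := by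
    obtain ⟨u, hu⟩ := hw
    intro h
    have h1 : (P * c) i u = w := by
      change P i (c i u) = w
      rw [hu, hP, aeval_apply]
      have : (B i).HasEigenvector t w := ⟨Module.End.mem_eigenspace_iff.2 hwt, hw0⟩
      rw [Module.End.aeval_apply_of_hasEigenvector this]
      have h2 := congrArg (Polynomial.eval t) hab
      simp only [Polynomial.eval_add, Polynomial.eval_mul, Polynomial.eval_pow,
        Polynomial.eval_sub, Polynomial.eval_X, Polynomial.eval_C, sub_self, zero_pow hk0,
        mul_zero, zero_add, Polynomial.eval_one] at h2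
      rw [Polynomial.eval_mul, h2, one_smul]
    rw [h] at h1
    exact hw0 h1.symm
  -- ranks
  have hle : ∀ j, LinearMap.range ((P * c) j) ≤ LinearMap.range (c j) := by
    intro j
    have h1 : P * c = c * aeval (x * c) (b * q) := by
      rw [hP, hB, aeval_mul_comm]
    rw [h1]
    exact LinearMap.range_comp_le_range _ (c j)
  have hfr : ∀ j, Module.finrank K (LinearMap.range ((P * c) j)) ≤
      Module.finrank K (LinearMap.range (c j)) := fun j => Submodule.finrank_mono (hle j)
  have hmin : ∑ j, Module.finrank K (LinearMap.range (c j)) ≤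
      ∑ j, Module.finrank K (LinearMap.range ((P * c) j)) := by
    rw [hn]
    exact Nat.find_min' hex ⟨P * c, hPg, hPsq, hPi, rfl⟩
  have heq : ∀ j, Module.finrank K (LinearMap.range ((P * c) j)) =
      Module.finrank K (LinearMap.range (c j)) := by
    have := (Finset.sum_eq_sum_iff_of_le (s := Finset.univ) (fun j _ => hfr j)).1
      (le_antisymm (Finset.sum_le_sum fun j _ => hfr j) hmin)
    exact fun j => this j (Finset.mem_univ j)
  have hPc : P * c = c := by
    funext j
    have h1 := Submodule.eq_of_le_of_finrank_eq (hle j) (heq j)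
    ext u
    have h2 : c j u ∈ LinearMap.range ((P * c) j) := h1 ▸ ⟨u, rfl⟩
    obtain ⟨u', hu'⟩ := h2
    change P j (c j u) = c j u
    rw [← hu']
    change P j (P j (c j u')) = P j (c j u')
    have h3 : (P * P) j = P j := by rw [hPP]
    exact LinearMap.congr_fun h3 (c j u')
  refine ⟨t, k, ?_⟩
  have h1 : (c * x - t • 1) ^ k = aeval B ((X - C t) ^ k) := by
    rw [map_pow, map_sub, aeval_X, aeval_C, hB, Algebra.algebraMap_eq_smul_one]
  have h2 : (X - C t) ^ k * (b * q) = b * minpoly K B := by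
    rw [hq]
    ring
  calc (c * x - t • 1) ^ k * c = (c * x - t • 1) ^ k * (P * c) := by rw [hPc]
    _ = aeval B ((X - C t) ^ k * (b * q)) * c := by rw [h1, hP, ← mul_assoc, ← map_mul]
    _ = 0 := by rw [h2, map_mul, minpoly.aeval, mul_zero, zero_mul]

end Prod

end Pool.Agent.OddRank
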