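import Pool.Agent.OddRank.Corner

/-!
# The extremal element has rank one
-/

set_option autoImplicit false
set_option linter.unusedSectionVars false

namespace Pool.Agent.OddRank

section Gen

variable {K W : Type*} [Field K] [AddCommGroup W] [Module K W]

/-- the smallest subspace containing `w` and stable under `N` -/
def gen (N : Set (Module.End K W)) (w : W) : Submodule K W :=
  sInf {X | w ∈ X ∧ ∀ y ∈ N, ∀ u ∈ X, y u ∈ X}

theorem gen_self (N : Set (Module.End K W)) (w : W) : w ∈ gen N w := by
  rw [gen, Submodule.mem_sInf]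
  exact fun X hX => hX.1

theorem gen_stable (N : Set (Module.End K W)) (w : W) {y : Module.End K W} (hy : y ∈ N) {u : W}
    (hu : u ∈ gen N w) : y u ∈ gen N w := by
  rw [gen, Submodule.mem_sInf] at hu ⊢
  exact fun X hX => hX.2 y hy u (hu X hX)

theorem gen_le {N : Set (Module.End K W)} {w : W} {X : Submodule K W} (hw : w ∈ X)
    (hX : ∀ y ∈ N, ∀ u ∈ X, y u ∈ X) : gen N w ≤ X :=
  sInf_le ⟨hw, hX⟩

/-- a family of operators that normalises `N` modulo the family preserves `gen N w` -/
theorem gen_stab {N D : Set (Module.End K W)} {w : W} (h1 : ∀ d ∈ D, d w ∈ gen N w)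
    (h2 : ∀ d ∈ D, ∀ y ∈ N, d * y - y * d ∈ D) :
    ∀ d ∈ D, ∀ u ∈ gen N w, d u ∈ gen N w := by
  let X : Submodule K W :=
    { carrier := {u | u ∈ gen N w ∧ ∀ d ∈ D, d u ∈ gen N w}
      add_mem' := fun {a b} ha hb => ⟨add_mem ha.1 hb.1, fun d hd => by
        rw [map_add]; exact add_mem (ha.2 d hd) (hb.2 d hd)⟩
      zero_mem' := ⟨zero_mem _, fun d _ => by rw [map_zero]; exact zero_mem _⟩
      smul_mem' := fun c a ha => ⟨Submodule.smul_mem _ _ ha.1, fun d hd => by
        rw [map_smul]; exact Submodule.smul_mem _ _ (ha.2 d hd)⟩ }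
  have hX : gen N w ≤ X := by
    refine gen_le ⟨gen_self N w, h1⟩ ?_
    rintro y hy u ⟨hu1, hu2⟩
    refine ⟨gen_stable N w hy hu1, fun d hd => ?_⟩
    have h3 := hu2 _ (h2 d hd y hy)
    have h4 := gen_stable N w hy (hu2 d hd)
    have h5 : d (y u) = (d * y - y * d) u + y (d u) := by
      simp [LinearMap.sub_apply, Module.End.mul_apply]
    rw [h5]
    exact add_mem h3 h4
  exact fun d hd u hu => (hX hu).2 d hd

end Gen

section RankA

variable {K A : Type*} [Field K] [CharZero K] [IsAlgClosed K] [Ring A] [Algebra K A]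
variable {tr : A →ₗ[K] K} {σ : A →ₗ[K] A} {g : Submodule K A} {s : ℕ} {E c f P Q R : A}

namespace Blk

variable (B : Blk tr σ g s E c f P Q R)
include B

/-- `P (D y) P` is a multiple of `P` if `P y = 0`. -/
theorem PDyP (S : Setup tr σ g s) {D y : A} (hD : D ∈ g) (hy : y ∈ g)
    (hPy : P * y = 0) : ∃ κ : K, P * (D * y - y * D) * P = κ • P := by
  obtain ⟨κ1, h1⟩ := B.corner S hD hy
  obtain ⟨κ2, h2⟩ := B.two S hD
  obtain ⟨κ3, h3⟩ := B.mtwo hy
  refine ⟨κ1 + κ2 * κ3, ?_⟩
  calc P * (D * y - y * D) * P = P * D * ((P + Q + R) * y) * P - (P * y) * D * P := by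
        rw [← B.one_eq, one_mul, mul_sub, sub_mul]
        simp only [mul_assoc]
    _ = P * D * (P * y) * P + (P * D * Q) * (Q * y * P) + P * D * R * y * P := by
        rw [hPy, zero_mul, zero_mul, sub_zero]
        simp only [add_mul, mul_add, mul_assoc, B.QQa, hPy]
    _ = _ := by
        rw [hPy, mul_zero, zero_mul, h1, h2, h3, smul_mul_smul_comm, B.cf, zero_add, add_smul,
          add_comm]

/-- In a representation `ρ` the smallest subspace that contains a vector of `P` and is stable
under all `y` with `P y = 0` is stable under all `D` such that `P D P` is a multiple of `P`. -/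
theorem gen_inv (S : Setup tr σ g s) {V' : Type*} [AddCommGroup V'] [Module K V']
    (ρ : A →ₐ[K] Module.End K V') {a : V'} (ha : ρ P a = a) :
    (∀ D ∈ g, (∃ κ : K, P * D * P = κ • P) →
      ∀ u ∈ gen {z | ∃ y ∈ g, P * y = 0 ∧ z = ρ y} a, ρ D u ∈ gen {z | ∃ y ∈ g, P * y = 0 ∧ z = ρ y} a) ∧
    (∀ u ∈ gen {z | ∃ y ∈ g, P * y = 0 ∧ z = ρ y} a, ρ P u ∈ K ∙ a) := by
  set N : Set (Module.End K V') := {z | ∃ y ∈ g, P * y = 0 ∧ z = ρ y} with hN
  constructor
  · have hst := gen_stab (N := N) (w := a)
      (D := {z | ∃ D ∈ g, (∃ κ : K, P * D * P = κ • P) ∧ z = ρ D}) ?_ ?_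
    · intro D hD hκ u hu
      exact hst _ ⟨D, hD, hκ, rfl⟩ u hu
    · rintro _ ⟨D, hD, ⟨κ, h⟩, rfl⟩
      obtain ⟨κ', h'⟩ := B.mtwo hD
      have h1 : ρ D a = κ • a + ρ (R * D * P + Q * D * R) a + κ' • ρ f a := by
        have h2 : ρ R a = 0 := by
          rw [← ha, ← Module.End.mul_apply, ← map_mul, B.RP, map_zero, LinearMap.zero_apply]
        have h3 : ρ D a = ρ (P * D * P + R * D * P + Q * D * P) a := by
          calc ρ D a = ρ ((P + Q + R) * D * P) a := by
                rw [← B.one_eq, one_mul, map_mul, Module.End.mul_apply, ha]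
            _ = _ := by
                congr 2
                simp only [add_mul]
                abel
        rw [h3, h, h']
        simp only [map_add, map_smul, LinearMap.add_apply, LinearMap.smul_apply, ha]
        rw [map_mul ρ (Q * D) R, Module.End.mul_apply, h2, map_zero, add_zero]
      rw [h1]
      refine add_mem (add_mem (Submodule.smul_mem _ _ (gen_self N a)) ?_)
        (Submodule.smul_mem _ _ ?_)
      · refine gen_stable N a ⟨_, B.dn_mem S hD, ?_, rfl⟩ (gen_self N a)
        simp only [mul_add, ← mul_assoc, B.PR, B.PQ, zero_mul, add_zero]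
      · exact gen_stable N a ⟨_, B.fg, B.Pf, rfl⟩ (gen_self N a)
    · rintro _ ⟨D, hD, _, rfl⟩ _ ⟨y, hy, hPy, rfl⟩
      refine ⟨_, S.lie _ hD _ hy, B.PDyP S hD hy hPy, ?_⟩
      rw [map_sub, map_mul, map_mul]
  · have hle : gen N a ≤ (K ∙ a).comap (ρ P) := by
      refine gen_le ?_ ?_
      · rw [Submodule.mem_comap, ha]
        exact Submodule.mem_span_singleton_self a
      · rintro _ ⟨y, _, hy, rfl⟩ u _
        rw [Submodule.mem_comap, ← Module.End.mul_apply, ← map_mul, hy, map_zero,
          LinearMap.zero_apply]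
        exact zero_mem _
    exact fun u hu => hle hu

end Blk

end RankA

section Rank

variable {K V : Type*} [Field K] [CharZero K] [IsAlgClosed K] [AddCommGroup V] [Module K V]
variable {tr : Module.End K V →ₗ[K] K} {σ : Module.End K V →ₗ[K] Module.End K V}
  {g : Submodule K (Module.End K V)} {s : ℕ} {E c f P Q R : Module.End K V}

namespace Blk

variable (B : Blk tr σ g s E c f P Q R)
include B

/-- the vector `D a` for `P D P = κ P`. -/
theorem D_apply {D : Module.End K V} (hD : D ∈ g) {a : V} (ha : P a = a) {κ : K}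
    (h : P * D * P = κ • P) : ∃ κ' : K, D a = κ • a + (R * D * P + Q * D * R) a + κ' • f a := by
  obtain ⟨κ', h'⟩ := B.mtwo hD
  refine ⟨κ', ?_⟩
  have h1 : D a = (P * D * P + R * D * P + Q * D * P) a := by
    calc D a = ((P + Q + R) * D * P) a := by
          rw [← B.one_eq, one_mul, Module.End.mul_apply, ha]
      _ = _ := by
          congr 1
          simp only [add_mul]
          abel
  have h2 : (Q * D * R) a = 0 := by
    rw [← ha, ← Module.End.mul_apply, mul_assoc, B.RP, mul_zero, LinearMap.zero_apply]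
  rw [h1, h, h', LinearMap.add_apply, LinearMap.add_apply, LinearMap.smul_apply, ha,
    LinearMap.add_apply, h2, add_zero, LinearMap.smul_apply]

/-- the case that all `P e P` are scalar -/
theorem rank_B (S : Setup tr σ g s) {G : Set (Module.End K V)} (hG : ∀ e ∈ G, e ∈ g)
    (hirr : ∀ W : Submodule K V, (∀ e ∈ G, ∀ w ∈ W, e w ∈ W) → W = ⊥ ∨ W = ⊤)
    (hsc : ∀ e ∈ G, ∃ κ : K, P * e * P = κ • P) : ∃ a : V, ∀ v, P v ∈ K ∙ a := by
  have hP0 : P ≠ 0 := by
    rintro rfl
    apply B.c0
    rw [← B.Pc, zero_mul]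
  obtain ⟨a₀, ha₀⟩ : ∃ a₀, P a₀ ≠ 0 := by
    by_contra h
    push Not at h
    exact hP0 (LinearMap.ext h)
  have ha : P (P a₀) = P a₀ := by rw [← Module.End.mul_apply, B.PP]
  generalize P a₀ = a at ha ha₀
  refine ⟨a, ?_⟩
  set N : Set (Module.End K V) := {y | y ∈ g ∧ P * y = 0} with hN
  have hst := gen_stab (N := N) (D := {D | D ∈ g ∧ ∃ κ : K, P * D * P = κ • P}) (w := a) ?_ ?_
  · have hU := hirr (gen N a) (fun e he w hw => hst e ⟨hG e he, hsc e he⟩ w hw)
    have hU' : gen N a = ⊤ := by
      rcases hU with h | h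
      · have := gen_self N a
        rw [h, Submodule.mem_bot] at this
        exact absurd this ha₀
      · exact h
    have hle : gen N a ≤ (K ∙ a).comap P := by
      refine gen_le ?_ ?_
      · rw [Submodule.mem_comap, ha]
        exact Submodule.mem_span_singleton_self a
      · rintro y ⟨_, hy⟩ u _
        rw [Submodule.mem_comap, ← Module.End.mul_apply, hy, LinearMap.zero_apply]
        exact zero_mem _
    intro v
    have : v ∈ gen N a := hU' ▸ Submodule.mem_top
    exact hle this
  · rintro D ⟨hD, κ, h⟩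
    obtain ⟨κ', h'⟩ := B.D_apply hD ha h
    rw [h']
    refine add_mem (add_mem (Submodule.smul_mem _ _ (gen_self N a)) ?_) (Submodule.smul_mem _ _ ?_)
    · refine gen_stable N a ⟨B.dn_mem S hD, ?_⟩ (gen_self N a)
      simp only [mul_add, ← mul_assoc, B.PR, B.PQ, zero_mul, add_zero]
    · exact gen_stable N a ⟨B.fg, B.Pf⟩ (gen_self N a)
  · rintro D ⟨hD, _⟩ y ⟨hy, hPy⟩
    exact ⟨S.lie _ hD _ hy, B.PDyP S hD hy hPy⟩

/-- the case that `P e P - 1/2 P` is a nonzero element of square zero is impossible -/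
theorem rank_A (S : Setup tr σ g s) {e : Module.End K V} (he : e ∈ g) (hee : e * e = e)
    (hσe : σ e = 1 - e)
    (hsq : (P * e * P - (2⁻¹ : K) • P) * (P * e * P - (2⁻¹ : K) • P) = 0) :
    P * e * P = (2⁻¹ : K) • P := by
  by_contra hne
  obtain ⟨a₀, ha₀⟩ : ∃ a₀, (P * e * P - (2⁻¹ : K) • P) a₀ ≠ 0 := by
    by_contra h
    push Not at h
    exact hne (sub_eq_zero.1 (LinearMap.ext h))
  -- the two vectors
  obtain ⟨a, ha⟩ : ∃ a, a = P a₀ := ⟨_, rfl⟩
  obtain ⟨a', ha'⟩ : ∃ a', a' = (P * e * P - (2⁻¹ : K) • P) a₀ := ⟨_, rfl⟩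
  have hPa : P a = a := by rw [ha, ← Module.End.mul_apply, B.PP]
  have hPa' : P a' = a' := by
    rw [ha', ← Module.End.mul_apply, mul_sub, mul_smul_comm, B.PP, mul_assoc P e P, B.PPa]
  have ha'0 : a' ≠ 0 := ha' ▸ ha₀
  have h1 : P (e a) = (2⁻¹ : K) • a + a' := by
    rw [ha', ha]
    simp only [LinearMap.sub_apply, Module.End.mul_apply, LinearMap.smul_apply]
    abel
  have h2 : P (e a') = (2⁻¹ : K) • a' := by
    have h3 : (P * e * P - (2⁻¹ : K) • P) a' = 0 := by
      rw [ha', ← Module.End.mul_apply, hsq, LinearMap.zero_apply]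
    simp only [LinearMap.sub_apply, Module.End.mul_apply, LinearMap.smul_apply, hPa'] at h3
    exact sub_eq_zero.1 h3
  clear ha ha' hsq hne
  set N : Set (Module.End K (V × V)) := {z | ∃ y ∈ g, P * y = 0 ∧ z = y.prodMap y} with hN
  set et : Module.End K (V × V) :=
    e.prodMap e - (LinearMap.inl K V V) ∘ₗ (LinearMap.snd K V V) with het
  set DD : Set (Module.End K (V × V)) :=
    {z | (∃ D ∈ g, (∃ κ : K, P * D * P = κ • P) ∧ z = D.prodMap D) ∨ z = et} with hDD
  have hN' : ∀ y ∈ g, P * y = 0 → ∀ u ∈ gen N (a, a'), (y u.1, y u.2) ∈ gen N (a, a') := by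
    intro y hy hPy u hu
    exact gen_stable N (a, a') ⟨y, hy, hPy, rfl⟩ hu
  have hself := gen_self N (a, a')
  have hst := gen_stab (N := N) (D := DD) (w := (a, a')) ?_ ?_
  · -- consequences
    have hD : ∀ D ∈ g, (∃ κ : K, P * D * P = κ • P) → ∀ u ∈ gen N (a, a'),
        (D u.1, D u.2) ∈ gen N (a, a') :=
      fun D hD hκ u hu => hst _ (Or.inl ⟨D, hD, hκ, rfl⟩) u hu
    have hle : gen N (a, a') ≤ (K ∙ ((a, a') : V × V)).comap (P.prodMap P) := by
      refine gen_le ?_ ?_
      · rw [Submodule.mem_comap]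
        change (P a, P a') ∈ _
        rw [hPa, hPa']
        exact Submodule.mem_span_singleton_self _
      · rintro _ ⟨y, _, hy, rfl⟩ u _
        rw [Submodule.mem_comap]
        change (P (y u.1), P (y u.2)) ∈ _
        rw [← Module.End.mul_apply, ← Module.End.mul_apply, hy, LinearMap.zero_apply,
          LinearMap.zero_apply]
        exact zero_mem _
    have hP0 : ∀ w, (w, (0 : V)) ∈ gen N (a, a') → P w = 0 := by
      intro w hw
      have h3 := hle hw
      rw [Submodule.mem_comap] at h3
      change (P w, P 0) ∈ _ at h3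
      rw [Submodule.mem_span_singleton] at h3
      obtain ⟨κ, hκ⟩ := h3
      rw [Prod.smul_mk, Prod.mk.injEq, map_zero] at hκ
      rcases smul_eq_zero.1 hκ.2 with h | h
      · rw [← hκ.1, h, zero_smul]
      · exact absurd h ha'0
    -- the vector `w0`
    have hw0 : (a' - (2 : K) • e a', (0 : V)) ∈ gen N (a, a') := by
      have h3 := hst et (Or.inr rfl) _ hself
      have h4 := hst et (Or.inr rfl) _ h3
      have h5 := sub_mem h4 h3
      convert h5 using 1
      have h6 : e (e a) = e a := by rw [← Module.End.mul_apply, hee]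
      have h7 : e (e a') = e a' := by rw [← Module.End.mul_apply, hee]
      simp only [het, LinearMap.sub_apply, LinearMap.prodMap_apply, LinearMap.comp_apply,
        LinearMap.snd_apply, LinearMap.inl_apply, Prod.mk_sub_mk, map_sub, sub_zero, h6, h7,
        sub_self, Prod.mk.injEq, and_true, two_smul]
      abel
    -- weight two
    have hQ : Q (e a') = 0 := by
      have h3 := hD c B.cg ⟨0, by rw [B.Pc, B.cP, zero_smul]⟩ _ hw0
      simp only [map_zero] at h3
      have h4 := hP0 _ h3
      have h5 : c a' = 0 := by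
        rw [← hPa', ← Module.End.mul_apply, B.cP, LinearMap.zero_apply]
      rw [← Module.End.mul_apply, B.Pc, map_sub, map_smul, h5, zero_sub, neg_eq_zero] at h4
      rcases smul_eq_zero.1 h4 with h | h
      · exact absurd h two_ne_zero
      · rw [← B.fc, Module.End.mul_apply, h, map_zero]
    -- weight one
    have hR : ∀ x ∈ g, P * x * R * e * P = 0 := by
      intro x hx
      have h3 := hD _ (B.up_mem S hx) ⟨0, by
        rw [mul_assoc, add_mul, mul_assoc (P * x) R P, B.RP, mul_assoc (R * x) Q P, B.QP, mul_zero,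
          mul_zero, add_zero, mul_zero, zero_smul]⟩ _ hw0
      simp only [map_zero] at h3
      have h4 := hP0 _ h3
      obtain ⟨κ, hκ⟩ := B.corner S hx he
      have h5 : P ((P * x * R + R * x * Q) (a' - (2 : K) • e a')) =
          (P * x * R) (a' - (2 : K) • e a') := by
        rw [← Module.End.mul_apply, mul_add]
        simp only [← mul_assoc, B.PP, B.PR, zero_mul, add_zero]
      have h6 : (P * x * R) a' = 0 := by
        rw [← hPa', ← Module.End.mul_apply, mul_assoc, B.RP, mul_zero, LinearMap.zero_apply]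
      have h7 : (P * x * R) (e a') = κ • a' := by
        rw [← hPa', ← LinearMap.smul_apply, ← hκ]
        simp only [Module.End.mul_apply, hPa']
      rw [h5, map_sub, map_smul, h6, h7, zero_sub, neg_eq_zero, smul_smul] at h4
      rcases smul_eq_zero.1 h4 with h | h
      · have : κ = 0 := by simpa using h
        rw [hκ, this, zero_smul]
      · exact absurd h ha'0
    have hY : R * e * P + Q * e * R = 0 := by
      apply S.nd _ (B.dn_mem S he)
      intro x hx
      obtain ⟨κ, hκ⟩ := S.gsp x hx
      have hσx : σ x = κ • 1 - x := by rw [← hκ]; abel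
      have h3 : tr (R * e * P * x) = 0 := by
        have : tr (R * e * P * x) = tr (P * x * R * e * P) := by
          rw [S.tr_comm (P * x * R * e) P, S.tr_comm (R * e * P) x]
          rw [S.tr_comm x (R * e * P), mul_assoc (R * e) P x, S.tr_comm (R * e) (P * x)]
          simp only [← mul_assoc, B.PP]
        rw [this, hR x hx, map_zero]
      have h4 : tr (Q * e * R * x) = 0 := by
        rw [← S.tr_σ]
        have h6 : σ (Q * e * R * x) = σ x * R * (1 - e) * P := by
          rw [S.σ_mul, S.σ_mul, S.σ_mul, B.σR S, hσe, B.σQ S]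
          simp only [← mul_assoc]
        have h7 : σ x * R * (1 - e) * P = x * (R * e * P) - κ • (R * e * P) := by
          rw [hσx]
          simp only [sub_mul, mul_sub, mul_one, smul_mul_assoc, one_mul, mul_assoc, B.RP, mul_zero,
            smul_zero]
          abel
        rw [h6, h7, map_sub, map_smul, S.tr_comm x, h3, S.tr_comm (R * e) P, ← mul_assoc, B.PR,
          zero_mul, map_zero, smul_zero, sub_zero]
      rw [add_mul, map_add, h3, h4, add_zero]
    have hR' : R (e a') = 0 := by
      have h3 := LinearMap.congr_fun hY a'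
      rw [LinearMap.add_apply, LinearMap.zero_apply] at h3
      have h4 : (Q * e * R) a' = 0 := by
        rw [← hPa', ← Module.End.mul_apply, mul_assoc, B.RP, mul_zero, LinearMap.zero_apply]
      rw [h4, add_zero] at h3
      simpa only [Module.End.mul_apply, hPa'] using h3
    have h8 : e a' = (2⁻¹ : K) • a' := by
      calc e a' = (P + Q + R) (e a') := by rw [← B.one_eq]; rfl
        _ = _ := by rw [LinearMap.add_apply, LinearMap.add_apply, h2, hQ, hR', add_zero, add_zero]
    have h9 : e (e a') = e a' := by rw [← Module.End.mul_apply, hee]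
    rw [h8, map_smul, h8, smul_smul] at h9
    have h10 : ((2⁻¹ * 2⁻¹ - 2⁻¹ : K)) • a' = 0 := by rw [sub_smul, h9, sub_self]
    rcases smul_eq_zero.1 h10 with h | h
    · norm_num at h
    · exact ha'0 h
  · -- the family maps the generator into the subspace
    have hmem : ∀ (κ κ' : K) (D : Module.End K V), D ∈ g →
        (κ • a + (R * D * P + Q * D * R) a + κ' • f a,
          κ • a' + (R * D * P + Q * D * R) a' + κ' • f a') ∈ gen N (a, a') := by
      intro κ κ' D hD
      have h3 := hN' _ (B.dn_mem S hD) (by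
        simp only [mul_add, ← mul_assoc, B.PR, B.PQ, zero_mul, add_zero]) _ hself
      have h4 := hN' _ B.fg B.Pf _ hself
      exact add_mem (add_mem (Submodule.smul_mem _ κ hself) h3) (Submodule.smul_mem _ κ' h4)
    rintro _ (⟨D, hD, ⟨κ, hκ⟩, rfl⟩ | rfl)
    · obtain ⟨κ', h'⟩ := B.mtwo hD
      have hDa : ∀ b, P b = b → D b = κ • b + (R * D * P + Q * D * R) b + κ' • f b := by
        intro b hb
        have h3 : D b = (P * D * P + R * D * P + Q * D * P) b := by
          calc D b = ((P + Q + R) * D * P) b := by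
                rw [← B.one_eq, one_mul, Module.End.mul_apply, hb]
            _ = _ := by
                congr 1
                simp only [add_mul]
                abel
        have h4 : (Q * D * R) b = 0 := by
          rw [← hb, ← Module.End.mul_apply, mul_assoc, B.RP, mul_zero, LinearMap.zero_apply]
        rw [h3, hκ, h', LinearMap.add_apply, LinearMap.add_apply, LinearMap.smul_apply, hb,
          LinearMap.add_apply, h4, add_zero, LinearMap.smul_apply]
      have h5 := hmem κ κ' D hD
      rw [← hDa a hPa, ← hDa a' hPa'] at h5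
      exact h5
    · obtain ⟨κ', h'⟩ := B.mtwo he
      have hea : ∀ b, P b = b → e b = P (e b) + (R * e * P + Q * e * R) b + κ' • f b := by
        intro b hb
        have h3 : e b = (P * e + R * e * P + Q * e * P) b := by
          calc e b = P (e b) + R (e b) + Q (e b) := by
                calc e b = (P + Q + R) (e b) := by rw [← B.one_eq]; rfl
                  _ = _ := by
                    rw [LinearMap.add_apply, LinearMap.add_apply]
                    abel
            _ = _ := by
                simp only [LinearMap.add_apply, Module.End.mul_apply, hb]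
        have h4 : (Q * e * R) b = 0 := by
          rw [← hb, ← Module.End.mul_apply, mul_assoc, B.RP, mul_zero, LinearMap.zero_apply]
        rw [LinearMap.add_apply (R * e * P), h4, add_zero]
        conv_lhs => rw [h3, h', LinearMap.add_apply, LinearMap.add_apply, LinearMap.smul_apply]
        rfl
      have h5 := hmem (2⁻¹ : K) κ' e he
      convert h5 using 1
      simp only [het, LinearMap.sub_apply, LinearMap.prodMap_apply, LinearMap.comp_apply,
        LinearMap.snd_apply, LinearMap.inl_apply, Prod.mk_sub_mk, sub_zero, Prod.mk.injEq]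
      constructor
      · rw [hea a hPa, h1]
        abel
      · rw [hea a' hPa', h2]
  · -- commutators
    rintro _ (⟨D, hD, ⟨κ, hκ⟩, rfl⟩ | rfl) _ ⟨y, hy, hPy, rfl⟩
    · refine Or.inl ⟨_, S.lie _ hD _ hy, B.PDyP S hD hy hPy, ?_⟩
      ext <;> simp
    · refine Or.inl ⟨_, S.lie _ he _ hy, B.PDyP S he hy hPy, ?_⟩
      ext <;> simp [het]

/-- the rank is one -/
theorem rank_one (S : Setup tr σ g s) {G : Set (Module.End K V)} (hG : ∀ e ∈ G, e ∈ g)
    (hGe : ∀ e ∈ G, e * e = e) (hGσ : ∀ e ∈ G, σ e = 1 - e)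
    (hirr : ∀ W : Submodule K V, (∀ e ∈ G, ∀ w ∈ W, e w ∈ W) → W = ⊥ ∨ W = ⊤) :
    ∃ a : V, ∀ v, P v ∈ K ∙ a := by
  refine B.rank_B S hG hirr fun e he => ?_
  rcases B.idem S (hG e he) (hGe e he) (hGσ e he) with h | h
  · exact h
  · exact ⟨_, B.rank_A S (hG e he) (hGe e he) (hGσ e he) h⟩

end Blk

end Rank

end Pool.Agent.OddRank
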