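import Pool.Agent.OddRank.Star

/-!
# Products of elements of weight one and minus one are scalar
-/

set_option autoImplicit false
set_option linter.unusedSectionVars false

namespace Pool.Agent.OddRank

variable {K A : Type*} [Field K] [CharZero K] [Ring A] [Algebra K A]

variable {tr : A →ₗ[K] K} {σ : A →ₗ[K] A} {g : Submodule K A} {s : ℕ} {E c f P Q R : A}

theorem IsX.sub_smul {x x' : A} (hx : IsX g E P Q x) (hx' : IsX g E P Q x') (b : K) :
    IsX g E P Q (x' - b • x) := by
  refine ⟨g.sub_mem hx'.mem (g.smul_mem _ hx.mem), ?_, ?_, ?_⟩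
  · rw [mul_sub, mul_smul_comm, hx.Ex, hx'.Ex]
  · rw [sub_mul, smul_mul_assoc, hx.xE, hx'.xE, smul_zero, sub_zero]
  · conv_rhs => rw [← hx.wt, ← hx'.wt]
    rw [mul_sub, sub_mul, mul_smul_comm, smul_mul_assoc, smul_add]
    abel

theorem IsY.add {y y' : A} (hy : IsY g E P Q y) (hy' : IsY g E P Q y') :
    IsY g E P Q (y + y') := by
  refine ⟨g.add_mem hy.mem hy'.mem, ?_, ?_, ?_⟩
  · rw [mul_add, hy.Ey, hy'.Ey, add_zero]
  · rw [add_mul, hy.yE, hy'.yE]
  · conv_rhs => rw [← hy.wt, ← hy'.wt]
    rw [mul_add, add_mul]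
    abel

namespace Blk

variable (B : Blk tr σ g s E c f P Q R)
include B

/-- the projection of an element of `g` to degree minus one and weight minus one -/
theorem Y_of (S : Setup tr σ g s) {D : A} (hD : D ∈ g) :
    IsY g E P Q (R * ((1 - E) * D * E) * P + Q * ((1 - E) * D * E) * R) := by
  have hE1 : (1 - E) * E = 0 := by rw [sub_mul, one_mul, B.EE, sub_self]
  have h1E : E * (1 - E) = 0 := by rw [mul_sub, mul_one, B.EE, sub_self]
  have hg := deg_neg_mem B.EE B.Eg hD
  have hEy : E * ((1 - E) * D * E) = 0 := by rw [← mul_assoc, ← mul_assoc, h1E, zero_mul, zero_mul]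
  have hyE : (1 - E) * D * E * E = (1 - E) * D * E := by rw [mul_assoc ((1 - E) * D), B.EE]
  generalize (1 - E) * D * E = y at hg hEy hyE ⊢
  refine ⟨B.dn_mem S hg, ?_, ?_, ?_⟩
  · rw [mul_add, ← mul_assoc, ← mul_assoc, ← mul_assoc, ← mul_assoc, B.EQ, zero_mul, zero_mul,
      add_zero, B.ER, mul_assoc R E y, hEy, mul_zero, zero_mul]
  · rw [add_mul, mul_assoc (R * y), B.PE, mul_assoc (Q * y), ← B.ER, ← mul_assoc (Q * y),
      mul_assoc Q y E, hyE]
  · simp only [mul_add, add_mul, mul_assoc, B.PP, B.QQa, B.QRa, B.RP, mul_zero, zero_add,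
      add_zero]
    abel

theorem tr_XY (S : Setup tr σ g s) {x y : A} (hx : IsX g E P Q x) (hy : IsY g E P Q y) :
    tr (x * y) = 2 * tr (x * y * P) := by
  have h1 : tr (x * y) = tr (P * (x * y)) + tr (x * Q * y) := by
    rw [← map_add]
    congr 1
    calc x * y = (P * x + x * Q) * y := by rw [hx.wt]
      _ = _ := by rw [add_mul, mul_assoc P]
  have h2 : tr (x * Q * y) = tr (P * (x * y)) := by
    rw [← S.tr_σ, S.σ_mul, S.σ_mul, B.X_skew hx S, B.Y_skew hy S, B.σQ S]
    have e1 : -y * (P * -x) = y * (P * x) := by simp only [neg_mul, mul_neg, neg_neg]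
    rw [e1, S.tr_comm, mul_assoc]
  rw [h1, h2, S.tr_comm P]
  ring

theorem X_nd (S : Setup tr σ g s) {x : A} (hx : IsX g E P Q x)
    (h : ∀ y, IsY g E P Q y → tr (x * y * P) = 0) : x = 0 := by
  apply S.nd x hx.mem
  intro D hD
  have hY := B.Y_of S hD
  have h1 := B.tr_XY S hx hY
  rw [h _ hY, mul_zero] at h1
  rw [← h1]
  have hE1 : (1 - E) * E = 0 := by rw [sub_mul, one_mul, B.EE, sub_self]
  have hEy : E * ((1 - E) * D * E) = 0 := by
    rw [← mul_assoc, ← mul_assoc, mul_sub, mul_one, B.EE, sub_self, zero_mul, zero_mul]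
  have hyE : (1 - E) * D * E * E = (1 - E) * D * E := by rw [mul_assoc ((1 - E) * D), B.EE]
  have hx1 : x * (1 - E) = x := by rw [mul_sub, mul_one, hx.xE, sub_zero]
  have h2 : tr (x * D) = tr (x * ((1 - E) * D * E)) := by
    have e1 : x * ((1 - E) * D * E) = x * D * E := by
      rw [← mul_assoc, ← mul_assoc, hx1]
    rw [e1, S.tr_comm (x * D), ← mul_assoc, hx.Ex]
  rw [h2]
  clear h1 h2 hY
  generalize (1 - E) * D * E = y at hEy hyE ⊢
  have hyQ : y * Q = 0 := by rw [← hyE, mul_assoc, B.EQ, mul_zero]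
  have hxP := B.X_xP hx
  have hRxR : R * x * R = 0 := by
    have := congrArg (fun z => R * z * R) hx.wt
    simp only [mul_add, add_mul, mul_assoc, B.RPa, B.QR, mul_zero, add_zero] at this
    rw [mul_assoc, ← this, zero_mul]
  -- `x y = x (P + Q + R) y (P + Q + R)`
  have h3 : x * y = x * Q * y * P + x * Q * y * R + (x * R * y * P + x * R * y * R) := by
    calc x * y = x * (P + Q + R) * y * (P + Q + R) := by rw [← B.one_eq, mul_one, mul_one]
      _ = (x * P) * y * (P + Q + R) + x * Q * y * P + x * Q * (y * Q) + x * Q * y * R +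
          (x * R * y * P + x * R * (y * Q) + x * R * y * R) := by
            simp only [mul_add, add_mul, mul_assoc]; abel
      _ = _ := by rw [hxP, hyQ, zero_mul, zero_mul, mul_zero, mul_zero]; abel
  have h4 : tr (x * Q * y * P) = 0 := by
    rw [S.tr_comm, ← mul_assoc, ← mul_assoc, B.X_PxQ hx, zero_mul, map_zero]
  have h5 : tr (x * R * y * R) = 0 := by
    rw [S.tr_comm, ← mul_assoc, ← mul_assoc, hRxR, zero_mul, map_zero]
  rw [h3, map_add, map_add, map_add, h4, h5]
  rw [mul_add, map_add]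
  simp only [mul_assoc, zero_add, add_zero]
  ring

/-- products `x y P` are scalar -/
theorem XY_scalar (S : Setup tr σ g s) [IsAlgClosed K] {x y : A} (hx : IsX g E P Q x)
    (hy : IsY g E P Q y) : x * y * P = (tr (x * y * P) / s) • P := by
  -- first `x y x = b x`
  have key : ∀ {y : A}, IsY g E P Q y → x * y * x = (tr (x * y * P) / s) • x := by
    intro y hy
    have hX := hx.sub_smul (B.X_xyx hx hy S) (tr (x * y * P) / s)
    have h0 : x * y * x - (tr (x * y * P) / s) • x = 0 := by
      apply B.X_nd S hX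
      intro y' hy'
      have e1 : (x * y * x - (tr (x * y * P) / s) • x) * y' * P =
          (x * y * P) * (x * y' * P) - (tr (x * y * P) / s) • (x * y' * P) := by
        rw [sub_mul, sub_mul, B.XY_mul hx hy hy', smul_mul_assoc, smul_mul_assoc]
      have hS := B.sq_zero hx hy S
      have hS' := B.sq_zero hx hy' S
      have hS'' := B.sq_zero hx (hy.add hy') S
      rw [e1]
      have hPM : P * (x * y * P) = x * y * P := B.XY_PxyP hx hy
      have hPM' : P * (x * y' * P) = x * y' * P := B.XY_PxyP hx hy'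
      have hMP : (x * y * P) * P = x * y * P := by rw [mul_assoc, B.PP]
      have hMP' : (x * y' * P) * P = x * y' * P := by rw [mul_assoc, B.PP]
      have e2 : x * (y + y') * P = x * y * P + x * y' * P := by rw [mul_add, add_mul]
      rw [e2] at hS''
      obtain ⟨M, hM⟩ : ∃ M, M = x * y * P := ⟨_, rfl⟩
      obtain ⟨M', hM'⟩ : ∃ M', M' = x * y' * P := ⟨_, rfl⟩
      rw [← hM] at hS hS'' hPM hMP ⊢
      rw [← hM'] at hS' hS'' hPM' hMP' ⊢
      obtain ⟨b, hb⟩ : ∃ b, b = tr M / s := ⟨_, rfl⟩
      obtain ⟨b', hb'⟩ : ∃ b', b' = tr M' / s := ⟨_, rfl⟩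
      have e3 : tr (M + M') / s = b + b' := by rw [map_add, add_div, hb, hb']
      have e5 : tr M = b * s := by rw [hb, div_mul_cancel₀ _ S.s_ne]
      have e6 : tr M' = b' * s := by rw [hb', div_mul_cancel₀ _ S.s_ne]
      rw [e3] at hS''
      rw [← hb] at hS ⊢
      rw [← hb'] at hS'
      have e4 : M * M' + M' * M - (2 * b) • M' - (2 * b') • M + (2 * b * b') • P = 0 := by
        have e7 : (M + M' - (b + b') • P) * (M + M' - (b + b') • P) =
            (M - b • P) * (M - b • P) + (M' - b' • P) * (M' - b' • P) +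
              (M * M' + M' * M - (2 * b) • M' - (2 * b') • M + (2 * b * b') • P) := by
          simp only [mul_sub, sub_mul, mul_add, add_mul, smul_mul_assoc, mul_smul_comm, hPM, hMP,
            hPM', hMP', B.PP]
          module
        rw [hS'', hS, hS', zero_add, zero_add] at e7
        exact e7.symm
      have e8 := congrArg tr e4
      rw [map_add, map_sub, map_sub, map_add, map_smul, map_smul, map_smul, S.tr_comm M' M,
        B.trP S, map_zero, smul_eq_mul, smul_eq_mul, smul_eq_mul, e5, e6] at e8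
      rw [map_sub, map_smul, smul_eq_mul, e6]
      linear_combination e8 / 2
    exact sub_eq_zero.1 h0
  -- second step
  have key2 : ∀ {y : A}, IsY g E P Q y → tr (x * y * P) ≠ 0 →
      x * y * P = (tr (x * y * P) / s) • P := by
    intro y hy hne
    have h1 := key hy
    have h2 : (x * y * P) * (x * y * P) = (tr (x * y * P) / s) • (x * y * P) := by
      rw [← B.XY_mul hx hy hy, h1, smul_mul_assoc, smul_mul_assoc]
    have h3 := B.sq_zero hx hy S
    have hPM : P * (x * y * P) = x * y * P := B.XY_PxyP hx hy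
    have hMP : (x * y * P) * P = x * y * P := by rw [mul_assoc, B.PP]
    obtain ⟨b, hb⟩ : ∃ b, b = tr (x * y * P) / s := ⟨_, rfl⟩
    have hb0 : b ≠ 0 := by
      rw [hb]
      exact div_ne_zero hne S.s_ne
    rw [← hb] at h2 h3 ⊢
    obtain ⟨M, hM⟩ : ∃ M, M = x * y * P := ⟨_, rfl⟩
    rw [← hM] at h2 h3 hPM hMP ⊢
    have h4 : (M - b • P) * (M - b • P) = b • (b • P - M) := by
      simp only [mul_sub, sub_mul, smul_mul_assoc, mul_smul_comm, hPM, hMP, B.PP, h2]
      module
    rw [h3] at h4
    rcases smul_eq_zero.1 h4.symm with h | h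
    · exact absurd h hb0
    · exact (sub_eq_zero.1 h).symm
  by_cases hne : tr (x * y * P) = 0
  · rw [hne, zero_div, zero_smul]
    by_cases hx0 : x = 0
    · rw [hx0, zero_mul, zero_mul]
    · obtain ⟨y0, hy0, hne0⟩ : ∃ y0, IsY g E P Q y0 ∧ tr (x * y0 * P) ≠ 0 := by
        by_contra hcon
        push Not at hcon
        exact hx0 (B.X_nd S hx hcon)
      have h1 := key2 hy0 hne0
      have e2 : x * (y + y0) * P = x * y * P + x * y0 * P := by rw [mul_add, add_mul]
      have e3 : tr (x * (y + y0) * P) = tr (x * y0 * P) := by rw [e2, map_add, hne, zero_add]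
      have h2 := key2 (hy.add hy0) (by rw [e3]; exact hne0)
      rw [e3, ← h1, e2] at h2
      exact (add_eq_right).1 h2
  · exact key2 hy hne

end Blk

end Pool.Agent.OddRank
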