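import Pool.Agent.OddRank.Blocks

/-!
# Elements of weight one
-/

set_option autoImplicit false
set_option linter.unusedSectionVars false

namespace Pool.Agent.OddRank

variable {K A : Type*} [Field K] [CharZero K] [Ring A] [Algebra K A]

/-- degree one, weight one -/
structure IsX (g : Submodule K A) (E P Q x : A) : Prop where
  mem : x ∈ g
  Ex : E * x = x
  xE : x * E = 0
  wt : P * x + x * Q = x

/-- degree minus one, weight minus one -/
structure IsY (g : Submodule K A) (E P Q y : A) : Prop where
  mem : y ∈ g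
  Ey : E * y = 0
  yE : y * E = y
  wt : Q * y + y * P = y

variable {tr : A →ₗ[K] K} {σ : A →ₗ[K] A} {g : Submodule K A} {s : ℕ} {E c f P Q R : A}

namespace Blk

variable (B : Blk tr σ g s E c f P Q R)
include B

section X

variable {x y : A} (hx : IsX g E P Q x) (hy : IsY g E P Q y)

include hx

theorem X_xP : x * P = 0 := by rw [← B.EP, ← mul_assoc, hx.xE, zero_mul]
theorem X_Qx : Q * x = 0 := by rw [← hx.Ex, ← mul_assoc, B.QE, zero_mul]
theorem X_xc : x * c = 0 := by rw [← B.Ec, ← mul_assoc, hx.xE, zero_mul]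
theorem X_cx : c * x = 0 := by rw [← hx.Ex, ← mul_assoc, B.cE, zero_mul]
theorem X_xx : x * x = 0 := by
  calc x * x = x * (E * x) := by rw [hx.Ex]
    _ = 0 := by rw [← mul_assoc, hx.xE, zero_mul]
theorem X_PxQ : P * x * Q = 0 := by
  have h := congrArg (fun z => P * z) hx.wt
  simp only [mul_add, ← mul_assoc, B.PP] at h
  exact (add_eq_left).1 h

theorem X_skew (S : Setup tr σ g s) : σ x = -x := by
  obtain ⟨κ, hκ⟩ := S.gsp _ hx.mem
  have h1 : E * x - x * E = x := by rw [hx.Ex, hx.xE, sub_zero]
  have h2 := S.skew_comm (x := E) (y := x) (κ := 1) (by rw [B.σE, one_smul]; abel) hκ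
  rwa [h1] at h2

omit hx
include hy

theorem Y_Py : P * y = 0 := by rw [← B.PE, mul_assoc, hy.Ey, mul_zero]
theorem Y_yQ : y * Q = 0 := by rw [← hy.yE, mul_assoc, B.EQ, mul_zero]
theorem Y_yy : y * y = 0 := by
  calc y * y = (y * E) * y := by rw [hy.yE]
    _ = 0 := by rw [mul_assoc, hy.Ey, mul_zero]
theorem Y_QyP : Q * y * P = 0 := by
  have h := congrArg (fun z => Q * z) hy.wt
  simp only [mul_add, ← mul_assoc, B.QQ] at h
  exact (add_eq_left).1 h

theorem Y_skew (S : Setup tr σ g s) : σ y = -y := by
  obtain ⟨κ, hκ⟩ := S.gsp _ hy.mem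
  have h1 : y * E - E * y = y := by rw [hy.Ey, hy.yE, sub_zero]
  have h2 := S.skew_comm (x := y) (y := E) (κ' := 1) hκ (by rw [B.σE, one_smul]; abel)
  rwa [h1] at h2

include hx

theorem XY_PxyP : P * (x * y * P) = x * y * P := by
  have h1 : x * y * P = P * x * y * P + x * (Q * y * P) := by
    calc x * y * P = (P * x + x * Q) * y * P := by rw [hx.wt]
      _ = _ := by simp only [add_mul, mul_assoc]
  rw [B.Y_QyP hy, mul_zero, add_zero] at h1
  conv_rhs => rw [h1]
  simp only [mul_assoc]

theorem XY_QyxQ : Q * y * x * Q = Q * y * x := by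
  have h1 : Q * y * x = Q * y * (P * x + x * Q) := by rw [hx.wt]
  rw [mul_add, ← mul_assoc, B.Y_QyP hy, zero_mul, zero_add, ← mul_assoc] at h1
  exact h1.symm

/-- the fundamental identity -/
theorem star (S : Setup tr σ g s) :
    x * y * P + c * y * x * f = (2 * (tr (x * y * P) / s)) • P := by
  have hz : x * y * c + c * y * x ∈ g := by
    have h1 := S.lie _ (S.lie _ hx.mem _ hy.mem) _ B.cg
    have h2 : (x * y - y * x) * c - c * (x * y - y * x) = x * y * c + c * y * x := by
      have e1 := B.X_xc hx
      have e2 := B.X_cx hx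
      calc (x * y - y * x) * c - c * (x * y - y * x)
          = x * y * c - y * (x * c) - (c * x) * y + c * y * x := by
            simp only [sub_mul, mul_sub, mul_assoc]; abel
        _ = _ := by rw [e1, e2, mul_zero, zero_mul, sub_zero, sub_zero]
    rwa [h2] at h1
  have hzPQ : P * (x * y * c + c * y * x) * Q = x * y * c + c * y * x := by
    have e1 : x * y * c = x * y * P * c := by rw [mul_assoc (x * y), B.Pc]
    have e2 : P * (x * y * c) * Q = x * y * c := by
      rw [e1, ← mul_assoc P, B.XY_PxyP hx hy, mul_assoc (x * y * P), B.cQ]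
    have e3 : P * (c * y * x) * Q = c * y * x := by
      calc P * (c * y * x) * Q = (P * c) * y * x * Q := by simp only [mul_assoc]
        _ = (c * Q) * y * x * Q := by rw [B.Pc, B.cQ]
        _ = c * (Q * y * x * Q) := by simp only [mul_assoc]
        _ = c * (Q * y * x) := by rw [B.XY_QyxQ hx hy]
        _ = (c * Q) * y * x := by simp only [mul_assoc]
        _ = c * y * x := by rw [B.cQ]
    rw [mul_add, add_mul, e2, e3]
  obtain ⟨β, hβ⟩ := B.two S hz
  rw [hzPQ] at hβ
  have h1 : x * y * P + c * y * x * f = β • P := by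
    have h2 := congrArg (fun z => z * f) hβ
    simp only [add_mul, smul_mul_assoc, B.cf] at h2
    rwa [mul_assoc (x * y), B.cf] at h2
  have h3 : tr (c * y * x * f) = tr (x * y * P) := by
    rw [← S.tr_σ, S.σ_mul, S.σ_mul, S.σ_mul, B.σf, B.σc, B.X_skew hx S, B.Y_skew hy S]
    have e1 : -f * (-x * (-y * -c)) = f * (x * y * c) := by
      simp only [neg_mul, mul_neg, neg_neg, mul_assoc]
    rw [e1, S.tr_comm, mul_assoc (x * y), B.cf]
  have h4 := congrArg tr h1
  rw [map_add, h3, map_smul, B.trP S, smul_eq_mul] at h4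
  have h5 : β = 2 * (tr (x * y * P) / s) := by
    have := S.s_ne
    field_simp
    linear_combination -h4
  rw [h1, h5]

/-- `x y x` is again of weight one -/
theorem X_xyx (S : Setup tr σ g s) : IsX g E P Q (x * y * x) := by
  refine ⟨quad_mem S hx.mem (B.X_xx hx) hy.mem, ?_, ?_, ?_⟩
  · rw [← mul_assoc, ← mul_assoc, hx.Ex]
  · rw [mul_assoc, hx.xE, mul_zero]
  · -- `P (xyx) + (xyx) Q = xyx`
    have hP : P * (x * y * x) = P * x * y * x := by simp only [mul_assoc]
    have h1 : x * y * x = P * x * y * x + x * (Q * y * x) := by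
      calc x * y * x = (P * x + x * Q) * y * x := by rw [hx.wt]
        _ = _ := by simp only [add_mul, mul_assoc]
    have h2 : x * y * x * Q = x * (Q * y * x) := by
      have e1 : x * y * x * Q = P * x * y * x * Q + x * (Q * y * x * Q) := by
        calc x * y * x * Q = (P * x * y * x + x * (Q * y * x)) * Q := by rw [← h1]
          _ = _ := by simp only [add_mul, mul_assoc]
      have e2 : P * x * y * x * Q = 0 := by
        -- `y (x Q) = Q y (x Q) + y P (x Q)`
        have e3 : y * (x * Q) = Q * y * x * Q + y * (P * x * Q) := by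
          calc y * (x * Q) = (Q * y + y * P) * (x * Q) := by rw [hy.wt]
            _ = _ := by simp only [add_mul, mul_assoc]
        rw [B.X_PxQ hx, mul_zero, add_zero, B.XY_QyxQ hx hy] at e3
        calc P * x * y * x * Q = P * x * (y * (x * Q)) := by simp only [mul_assoc]
          _ = P * x * Q * (y * x) := by rw [e3]; simp only [mul_assoc]
          _ = 0 := by rw [B.X_PxQ hx, zero_mul]
      rw [e1, e2, zero_add, B.XY_QyxQ hx hy]
    rw [hP, h2, ← h1]

theorem XY_mul {y' : A} (hy' : IsY g E P Q y') :
    (x * y * x) * y' * P = (x * y * P) * (x * y' * P) := by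
  rw [mul_assoc (x * y) P, B.XY_PxyP hx hy']
  simp only [mul_assoc]

/-- the skew part of `x y P` has square zero -/
theorem sq_zero (S : Setup tr σ g s) [IsAlgClosed K] :
    (x * y * P - (tr (x * y * P) / s) • P) * (x * y * P - (tr (x * y * P) / s) • P) = 0 := by
  have h1 := B.star hx hy S
  have h2 := B.star (B.X_xyx hx hy S) hy S
  set M := x * y * P with hM
  set b := tr M / s with hb
  have hMM : (x * y * x) * y * P = M * M := by rw [B.XY_mul hx hy hy]
  have hM' : c * y * x * f = (2 * b) • P - M := by rw [← h1]; abel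
  have hMM' : c * y * (x * y * x) * f = ((2 * b) • P - M) * ((2 * b) • P - M) := by
    rw [← hM']
    have e1 : c * y * x = c * y * x * Q := by
      calc c * y * x = c * Q * y * x := by rw [B.cQ]
        _ = c * (Q * y * x) := by simp only [mul_assoc]
        _ = c * (Q * y * x * Q) := by rw [B.XY_QyxQ hx hy]
        _ = (c * Q) * y * x * Q := by simp only [mul_assoc]
        _ = _ := by rw [B.cQ]
    calc c * y * (x * y * x) * f = c * y * x * (y * x * f) := by simp only [mul_assoc]
      _ = c * y * x * Q * (y * x * f) := by rw [← e1]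
      _ = c * y * x * (f * c) * (y * x * f) := by rw [B.fc]
      _ = _ := by simp only [mul_assoc]
  have hPM : P * M = M := B.XY_PxyP hx hy
  have hMP : M * P = M := by rw [hM, mul_assoc, B.PP]
  rw [hMM, hMM'] at h2
  obtain ⟨κ, hκ⟩ : ∃ κ : K, κ = tr (M * M) / s := ⟨_, rfl⟩
  rw [← hκ] at h2
  have hsq : (M - b • P) * (M - b • P) = (κ - b ^ 2) • P := by
    have e1 : (M - b • P) * (M - b • P) = M * M - (2 * b) • M + (b * b) • P := by
      simp only [mul_sub, sub_mul, smul_mul_assoc, mul_smul_comm, hPM, hMP, B.PP]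
      module
    have e2 : ((2 * b) • P - M) * ((2 * b) • P - M) = M * M - (4 * b) • M + (4 * b * b) • P := by
      simp only [mul_sub, sub_mul, smul_mul_assoc, mul_smul_comm, hPM, hMP, B.PP]
      module
    rw [e2] at h2
    have e3 : M * M - (2 * b) • M = (κ - 2 * b ^ 2) • P := by
      have e4 : (2 : K) • (M * M - (2 * b) • M) = (2 : K) • ((κ - 2 * b ^ 2) • P) := by
        calc (2 : K) • (M * M - (2 * b) • M)
            = (M * M + (M * M - (4 * b) • M + (4 * b * b) • P)) - (4 * b * b) • P := by module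
          _ = _ := by rw [h2]; module
      exact smul_right_injective A (two_ne_zero (α := K)) e4
    rw [e1, e3]
    module
  have htr : tr (M - b • P) = 0 := by
    rw [map_sub, map_smul, B.trP S, smul_eq_mul, hb, div_mul_cancel₀ _ S.s_ne, sub_self]
  have hk : κ - b ^ 2 = 0 := S.skew_sq B.PP (B.trP S)
    (by rw [mul_sub, mul_smul_comm, hPM, B.PP]) (by rw [sub_mul, smul_mul_assoc, hMP, B.PP])
    hsq htr
  rw [hsq, hk, zero_smul]

end X

end Blk

end Pool.Agent.OddRank
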