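import Pool.Agent.OddRank.Irred
import Pool.Agent.OddRank.Minimal

/-!
# Two components
-/

set_option autoImplicit false
set_option linter.unusedSectionVars false

namespace Pool.Agent.OddRank

section One

variable {K V : Type*} [Field K] [CharZero K] [AddCommGroup V] [Module K V]
  {ψ : V →ₗ[K] V →ₗ[K] K}

/-- a skew element `c` such that `c m(u,u)` has one eigenvalue on the range of `c` for all `u`
has rank one -/
theorem rank_one_of (halt : ∀ x, ψ x x = 0) (hnd : ∀ x, (∀ y, ψ x y = 0) → x = 0)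
    {c : Module.End K V} (hskew : ∀ x y, ψ (c x) y + ψ x (c y) = 0) (hc0 : c ≠ 0)
    (h : ∀ u, ∃ (t : K) (k : ℕ), (c * mm ψ u u - t • 1) ^ k * c = 0) :
    ∃ (b : V) (μ : K), b ≠ 0 ∧ μ ≠ 0 ∧ ∀ w, c w = (μ * ψ b w) • b := by
  have hs := alt_neg halt
  have hsym : ∀ u v, ψ u (c v) = ψ v (c u) := by
    intro u v
    have := hskew u v
    rw [hs (c u) v] at this
    linear_combination this
  obtain ⟨u, hu⟩ : ∃ u, ψ u (c u) ≠ 0 := by
    by_contra hcon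
    push Not at hcon
    apply hc0
    ext v
    rw [LinearMap.zero_apply]
    apply hnd
    intro y
    rw [hs, neg_eq_zero]
    have h1 := hcon (y + v)
    rw [map_add c, map_add ψ, LinearMap.add_apply, map_add, map_add, hcon y, hcon v, hsym v y,
      zero_add, add_zero, ← two_mul] at h1
    rcases mul_eq_zero.1 h1 with h2 | h2
    · exact absurd h2 two_ne_zero
    · exact h2
  obtain ⟨t, k, ht⟩ := h u
  obtain ⟨b, hb⟩ : ∃ b, b = c u := ⟨_, rfl⟩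
  rw [← hb] at hu
  have hb0 : b ≠ 0 := by
    rintro rfl
    rw [map_zero] at hu
    exact hu rfl
  have hcM : ∀ w, (c * mm ψ u u) w = (2 * ψ u w) • b := by
    intro w
    rw [Module.End.mul_apply, mm_apply, map_add, map_smul, hb]
    module
  have hpow : ∀ (v : V) (r : K), (c * mm ψ u u) v = r • v → ∀ n : ℕ,
      ((c * mm ψ u u - t • 1) ^ n) v = (r - t) ^ n • v := by
    intro v r hv n
    induction n with
    | zero => simp
    | succ n ih =>
      rw [pow_succ, Module.End.mul_apply]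
      have h1 : (c * mm ψ u u - t • (1 : Module.End K V)) v = (r - t) • v := by
        rw [LinearMap.sub_apply, hv, LinearMap.smul_apply, Module.End.one_apply, sub_smul]
      rw [h1, map_smul, ih, smul_smul, pow_succ, mul_comm]
  have h1 : ((c * mm ψ u u - t • 1) ^ k) b = 0 := by
    have := LinearMap.congr_fun ht u
    rw [Module.End.mul_apply, ← hb, LinearMap.zero_apply] at this
    exact this
  have h2 : t = 2 * ψ u b := by
    rw [hpow b (2 * ψ u b) (hcM b)] at h1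
    rcases smul_eq_zero.1 h1 with h3 | h3
    · have h4 : 2 * ψ u b - t = 0 := by
        by_contra h5
        exact pow_ne_zero k h5 h3
      linear_combination -h4
    · exact absurd h3 hb0
  have ht0 : t ≠ 0 := by
    rw [h2]
    exact mul_ne_zero two_ne_zero hu
  refine ⟨b, -(ψ u b)⁻¹, hb0, neg_ne_zero.2 (inv_ne_zero hu), fun w => ?_⟩
  -- the vector `c w - (ψ u (c w) / ψ u b) b`
  obtain ⟨w', hw'⟩ : ∃ w', w' = c w - (ψ u (c w) / ψ u b) • b := ⟨_, rfl⟩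
  have h3 : (c * mm ψ u u) w' = (0 : K) • w' := by
    rw [hcM, hw', map_sub, map_smul, smul_eq_mul, div_mul_cancel₀ _ hu, sub_self, mul_zero,
      zero_smul, zero_smul]
  have h4 : ((c * mm ψ u u - t • 1) ^ k) w' = 0 := by
    have h5 := LinearMap.congr_fun ht w
    rw [Module.End.mul_apply, LinearMap.zero_apply] at h5
    rw [hw', map_sub, map_smul, h1, smul_zero, sub_zero, h5]
  rw [hpow w' 0 h3] at h4
  have h5 : w' = 0 := by
    rcases smul_eq_zero.1 h4 with h6 | h6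
    · exfalso
      rw [zero_sub] at h6
      exact pow_ne_zero k (neg_ne_zero.2 ht0) h6
    · exact h6
  rw [h5, eq_comm, sub_eq_zero] at hw'
  rw [hw', hsym u w, ← hb, hs w b]
  congr 1
  field_simp

/-- an ideal without matrix coefficient at `b` is zero -/
theorem ideal_zero (halt : ∀ x, ψ x x = 0) (hnd : ∀ x, (∀ y, ψ x y = 0) → x = 0)
    {I : Set (Module.End K V)} (hI : ∀ z ∈ I, ∀ u v, mm ψ u v * z - z * mm ψ u v ∈ I)
    (hskew : ∀ z ∈ I, ∀ x y, ψ (z x) y + ψ x (z y) = 0) {b : V} (hb : b ≠ 0)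
    (h : ∀ z ∈ I, ψ b (z b) = 0) : ∀ z ∈ I, z = 0 := by
  have hs := alt_neg halt
  obtain ⟨v₀, hv₀⟩ : ∃ v, ψ b v ≠ 0 := by
    by_contra hcon
    push Not at hcon
    exact hb (hnd b hcon)
  obtain ⟨v, hv⟩ : ∃ v, ψ b v = 1 := ⟨(ψ b v₀)⁻¹ • v₀, by
    rw [map_smul, smul_eq_mul, inv_mul_cancel₀ hv₀]⟩
  have key : ∀ z ∈ I, ∀ x y, ψ b (z x) * ψ b y + ψ b x * ψ b (z y) = 0 := by
    intro z hz x y
    have h1 := h _ (hI z hz x y)
    have h2 : mm ψ x y * z - z * mm ψ x y = -(mm ψ (z x) y + mm ψ x (z y)) := by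
      have h3 : ∀ x y, ψ (z x) y + ψ x (z y) = 0 * ψ x y := by
        intro x y
        rw [hskew z hz, zero_mul]
      have h4 := comm_mm h3 x y
      rw [zero_smul, sub_zero] at h4
      rw [← h4, neg_sub]
    rw [h2, LinearMap.neg_apply, LinearMap.add_apply, mm_apply, mm_apply] at h1
    simp only [map_neg, map_add, map_smul, smul_eq_mul] at h1
    rw [hs (z x) b, hs y b, hs x b, hs (z y) b] at h1
    have h5 : (2 : K) * (ψ b (z x) * ψ b y + ψ b x * ψ b (z y)) = 0 := by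
      linear_combination h1
    rcases mul_eq_zero.1 h5 with h6 | h6
    · exact absurd h6 two_ne_zero
    · exact h6
  have hzb : ∀ z ∈ I, z b = 0 := by
    intro z hz
    have h1 := key z hz v v
    rw [hv, mul_one, one_mul, ← two_mul] at h1
    have h2 : ψ b (z v) = 0 := by
      rcases mul_eq_zero.1 h1 with h6 | h6
      · exact absurd h6 two_ne_zero
      · exact h6
    apply hnd
    intro y
    have h3 := key z hz y v
    rw [hv, h2, mul_one, mul_zero, add_zero] at h3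
    have h4 := hskew z hz b y
    rw [h3, add_zero] at h4
    exact h4
  intro z hz
  have h1 : ∀ x y, z (mm ψ x y b) = 0 := by
    intro x y
    have h2 := hzb _ (hI z hz x y)
    rw [LinearMap.sub_apply, Module.End.mul_apply, Module.End.mul_apply, hzb z hz, map_zero,
      zero_sub, neg_eq_zero] at h2
    exact h2
  have hv' : ψ v b = -1 := by rw [hs, hv]
  have hzv : z v = 0 := by
    have h2 := h1 v v
    rw [mm_apply, hv', ← two_smul K, smul_smul, map_smul] at h2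
    rcases smul_eq_zero.1 h2 with h3 | h3
    · exact absurd h3 (by norm_num)
    · exact h3
  ext y
  have h2 := h1 v y
  rw [mm_apply, hv', map_add, map_smul, map_smul, hzv, smul_zero, add_zero, neg_smul, one_smul,
    neg_eq_zero] at h2
  rw [h2, LinearMap.zero_apply]

end One

section Graph

variable {K : Type*} [Field K] [CharZero K] {A : Type*} [Ring A] [Algebra K A]
  {V₁ : Type*} [AddCommGroup V₁] [Module K V₁] {ψ₁ : V₁ →ₗ[K] V₁ →ₗ[K] K}
  {V₂ : Type*} [AddCommGroup V₂] [Module K V₂] {ψ₂ : V₂ →ₗ[K] V₂ →ₗ[K] K}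

/-- an element that vanishes in the first component vanishes in the second -/
theorem graph (hψ₁ : ∃ u v, ψ₁ u v ≠ 0) (halt₂ : ∀ x, ψ₂ x x = 0)
    (hnd₂ : ∀ x, (∀ y, ψ₂ x y = 0) → x = 0) {g : Submodule K A}
    (hlie : ∀ a ∈ g, ∀ b ∈ g, a * b - b * a ∈ g)
    (p₁ : A →ₐ[K] Module.End K V₁) (p₂ : A →ₐ[K] Module.End K V₂)
    (hgsp : ∀ x ∈ g, ∃ κ : K, (∀ u v, ψ₁ (p₁ x u) v + ψ₁ u (p₁ x v) = κ * ψ₁ u v) ∧
      (∀ u v, ψ₂ (p₂ x u) v + ψ₂ u (p₂ x v) = κ * ψ₂ u v))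
    (hm₂ : ∀ u v, ∃ x ∈ g, p₂ x = mm ψ₂ u v)
    {c : A} (hc₁ : p₁ c ≠ 0) {b₂ : V₂} {μ₂ : K} (hb₂ : b₂ ≠ 0) (hμ₂ : μ₂ ≠ 0)
    (hc₂ : ∀ w, p₂ c w = (μ₂ * ψ₂ b₂ w) • b₂) (hext : ∀ x ∈ g, ∃ t : K, c * x * c = t • c) :
    ∀ z ∈ g, p₁ z = 0 → p₂ z = 0 := by
  intro z hz hz1
  refine ideal_zero halt₂ hnd₂ (I := {z' | ∃ z ∈ g, p₁ z = 0 ∧ p₂ z = z'}) ?_ ?_ hb₂ ?_ (p₂ z)
    ⟨z, hz, hz1, rfl⟩
  · rintro _ ⟨z, hz, hz1, rfl⟩ u v
    obtain ⟨x, hx, hx2⟩ := hm₂ u v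
    refine ⟨_, hlie _ hx _ hz, ?_, ?_⟩
    · rw [map_sub, map_mul, map_mul, hz1, mul_zero, zero_mul, sub_zero]
    · rw [map_sub, map_mul, map_mul, hx2]
  · rintro _ ⟨z, hz, hz1, rfl⟩ x y
    obtain ⟨κ, h1, h2⟩ := hgsp z hz
    obtain ⟨u, v, huv⟩ := hψ₁
    have h3 := h1 u v
    rw [hz1, LinearMap.zero_apply, LinearMap.zero_apply, map_zero, map_zero,
      LinearMap.zero_apply, add_zero] at h3
    have hκ : κ = 0 := by
      rcases mul_eq_zero.1 h3.symm with h | h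
      · exact h
      · exact absurd h huv
    rw [h2, hκ, zero_mul]
  · rintro _ ⟨z, hz, hz1, rfl⟩
    obtain ⟨t, ht⟩ := hext z hz
    have h1 := congrArg p₁ ht
    rw [map_mul, map_mul, hz1, mul_zero, zero_mul, map_smul, eq_comm] at h1
    have ht0 : t = 0 := by
      rcases smul_eq_zero.1 h1 with h | h
      · exact h
      · exact absurd h hc₁
    have h2 := congrArg p₂ ht
    rw [map_mul, map_mul, ht0, zero_smul, map_zero] at h2
    obtain ⟨w, hw⟩ : ∃ w, ψ₂ b₂ w ≠ 0 := by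
      by_contra hcon
      push Not at hcon
      exact hb₂ (hnd₂ b₂ hcon)
    have h3 := LinearMap.congr_fun h2 w
    rw [Module.End.mul_apply, Module.End.mul_apply, hc₂ w, map_smul, map_smul, hc₂,
      LinearMap.zero_apply, smul_smul] at h3
    rcases smul_eq_zero.1 h3 with h4 | h4
    · rcases mul_eq_zero.1 h4 with h5 | h5
      · rcases mul_eq_zero.1 h5 with h6 | h6
        · exact absurd h6 hμ₂
        · exact absurd h6 hw
      · rcases mul_eq_zero.1 h5 with h6 | h6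
        · exact absurd h6 hμ₂
        · exact h6
    · exact absurd h4 hb₂

end Graph

section Two

variable {K : Type*} [Field K] [CharZero K] [IsAlgClosed K]
  {V₁ : Type*} [AddCommGroup V₁] [Module K V₁] [FiniteDimensional K V₁]
  {ψ₁ : V₁ →ₗ[K] V₁ →ₗ[K] K}
  {V₂ : Type*} [AddCommGroup V₂] [Module K V₂] [FiniteDimensional K V₂]
  {ψ₂ : V₂ →ₗ[K] V₂ →ₗ[K] K}

omit [CharZero K] [IsAlgClosed K] in
theorem add_adj {ψ : V₁ →ₗ[K] V₁ →ₗ[K] K} (halt : ∀ x, ψ x x = 0)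
    (hnd : ∀ x, (∀ y, ψ x y = 0) → x = 0) {σ : Module.End K V₁ →ₗ[K] Module.End K V₁}
    (hσ : ∀ D x y, ψ (D x) y = ψ x (σ D y)) {x : Module.End K V₁} {κ : K}
    (hκ : ∀ u v, ψ (x u) v + ψ u (x v) = κ * ψ u v) : x + σ x = κ • 1 := by
  ext v
  rw [← sub_eq_zero]
  apply hnd
  intro u
  rw [alt_neg halt, neg_eq_zero, map_sub, sub_eq_zero]
  have h5 := hκ u v
  rw [hσ] at h5
  simp only [LinearMap.add_apply, map_add, LinearMap.smul_apply, Module.End.one_apply, map_smul,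
    smul_eq_mul]
  rw [← h5, add_comm]

/-- rank one elements give scalars -/
theorem corner_scalar {P c x : Module.End K V₁} {b : V₁} {μ : K}
    (hc : ∀ w, c w = (μ * ψ₁ b w) • b) {f : Module.End K V₁} (hP : P = c * f) :
    ∃ κ : K, P * x * P = κ • P := by
  refine ⟨μ * ψ₁ b (f (x b)), ?_⟩
  ext w
  simp only [hP, Module.End.mul_apply, LinearMap.smul_apply, hc, map_smul, smul_smul]
  congr 1
  ring

/-- two components of a minimal element are isomorphic -/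
theorem two_comp (halt₁ : ∀ x, ψ₁ x x = 0) (hnd₁ : ∀ x, (∀ y, ψ₁ x y = 0) → x = 0)
    (halt₂ : ∀ x, ψ₂ x x = 0) (hnd₂ : ∀ x, (∀ y, ψ₂ x y = 0) → x = 0)
    {g : Submodule K (Module.End K V₁ × Module.End K V₂)}
    (hlie : ∀ a ∈ g, ∀ b ∈ g, a * b - b * a ∈ g)
    (hgsp : ∀ x ∈ g, ∃ κ : K, (∀ u v, ψ₁ (x.1 u) v + ψ₁ u (x.1 v) = κ * ψ₁ u v) ∧
      (∀ u v, ψ₂ (x.2 u) v + ψ₂ u (x.2 v) = κ * ψ₂ u v))
    {G : Set (Module.End K V₁ × Module.End K V₂)} (hG : ∀ e ∈ G, e ∈ g)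
    (hGe : ∀ e ∈ G, e * e = e)
    (hGψ₁ : ∀ e ∈ G, ∀ x y, ψ₁ (e.1 x) y + ψ₁ x (e.1 y) = ψ₁ x y)
    (hGψ₂ : ∀ e ∈ G, ∀ x y, ψ₂ (e.2 x) y + ψ₂ x (e.2 y) = ψ₂ x y)
    (hirr₁ : ∀ U : Submodule K V₁, (∀ e ∈ G, ∀ w ∈ U, e.1 w ∈ U) → U = ⊥ ∨ U = ⊤)
    (hirr₂ : ∀ U : Submodule K V₂, (∀ e ∈ G, ∀ w ∈ U, e.2 w ∈ U) → U = ⊥ ∨ U = ⊤)
    (hm₁ : ∀ u v, ∃ x ∈ g, x.1 = mm ψ₁ u v) (hm₂ : ∀ u v, ∃ x ∈ g, x.2 = mm ψ₂ u v)
    (htr : ∀ x ∈ g, (∀ y ∈ g, LinearMap.trace K V₁ (x.1 * y.1) = 0) → x.1 = 0)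
    {c : Module.End K V₁ × Module.End K V₂} (hc : c ∈ g) (hcc : c * c = 0)
    {b₁ : V₁} {b₂ : V₂} {μ₁ μ₂ : K} (hb₁ : b₁ ≠ 0) (hb₂ : b₂ ≠ 0) (hμ₁ : μ₁ ≠ 0) (hμ₂ : μ₂ ≠ 0)
    (hc₁ : ∀ w, c.1 w = (μ₁ * ψ₁ b₁ w) • b₁) (hc₂ : ∀ w, c.2 w = (μ₂ * ψ₂ b₂ w) • b₂)
    (hext : ∀ x ∈ g, ∃ t : K, c * x * c = t • c) :
    ∃ φ : V₁ ≃ₗ[K] V₂, ∀ e ∈ G, ∀ u, φ (e.1 u) = e.2 (φ u) := by
  obtain ⟨v₁, hv₁⟩ : ∃ w, ψ₁ b₁ w ≠ 0 := by
    by_contra hcon
    push Not at hcon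
    exact hb₁ (hnd₁ b₁ hcon)
  obtain ⟨v₂, hv₂⟩ : ∃ w, ψ₂ b₂ w ≠ 0 := by
    by_contra hcon
    push Not at hcon
    exact hb₂ (hnd₂ b₂ hcon)
  have hc10 : c.1 ≠ 0 := by
    intro h
    have h1 := hc₁ v₁
    rw [h, LinearMap.zero_apply, eq_comm] at h1
    rcases smul_eq_zero.1 h1 with h2 | h2
    · exact mul_ne_zero hμ₁ hv₁ h2
    · exact hb₁ h2
  have hc20 : c.2 ≠ 0 := by
    intro h
    have h1 := hc₂ v₂
    rw [h, LinearMap.zero_apply, eq_comm] at h1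
    rcases smul_eq_zero.1 h1 with h2 | h2
    · exact mul_ne_zero hμ₂ hv₂ h2
    · exact hb₂ h2
  -- the graph property
  have hg12 : ∀ z ∈ g, z.1 = 0 → z.2 = 0 :=
    graph ⟨b₁, v₁, hv₁⟩ halt₂ hnd₂ hlie (AlgHom.fst K (Module.End K V₁) (Module.End K V₂))
      (AlgHom.snd K (Module.End K V₁) (Module.End K V₂)) hgsp hm₂ hc10 hb₂ hμ₂ hc₂ hext
  have hg21 : ∀ z ∈ g, z.2 = 0 → z.1 = 0 :=
    graph ⟨b₂, v₂, hv₂⟩ halt₁ hnd₁ hlie (AlgHom.snd K (Module.End K V₁) (Module.End K V₂))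
      (AlgHom.fst K (Module.End K V₁) (Module.End K V₂))
      (fun x hx => (hgsp x hx).imp fun κ h => ⟨h.2, h.1⟩) hm₁ hc20 hb₁ hμ₁ hc₁ hext
  -- the setup
  obtain ⟨σ₁, hσ₁⟩ := exists_adjoint halt₁ hnd₁
  obtain ⟨σ₂, hσ₂⟩ := exists_adjoint halt₂ hnd₂
  have S : Setup ((LinearMap.trace K V₁).comp (LinearMap.fst K _ (Module.End K V₂)))
      (LinearMap.prodMap σ₁ σ₂) g 1 := by
    refine ⟨?_, ?_, ?_, ?_, ?_, hlie, ?_, ?_, odd_one⟩
    · intro x y
      exact LinearMap.trace_mul_comm K x.1 y.1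
    · intro p hp
      exact trace_idem (congrArg Prod.fst hp)
    · intro x y
      exact Prod.ext (hσ₁.2.1 _ _) (hσ₂.2.1 _ _)
    · intro x
      exact Prod.ext (hσ₁.2.2.1 _) (hσ₂.2.2.1 _)
    · intro x
      exact hσ₁.2.2.2 _
    · intro x hx
      obtain ⟨κ, h1, h2⟩ := hgsp x hx
      exact ⟨κ, Prod.ext (add_adj halt₁ hnd₁ hσ₁.1 h1) (add_adj halt₂ hnd₂ hσ₂.1 h2)⟩
    · intro x hx h
      have h1 : x.1 = 0 := htr x hx h
      exact Prod.ext h1 (hg12 x hx h1)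
  have hext1 : ∀ x ∈ g, c * x * c = (((LinearMap.trace K V₁).comp
      (LinearMap.fst K _ (Module.End K V₂))) (c * x) / ((1 : ℕ) : K)) • c := by
    intro x hx
    obtain ⟨t, ht⟩ := hext x hx
    rw [ht, Nat.cast_one, div_one]
    congr 1
    have h1 : c.1 * x.1 = (μ₁ • (ψ₁ b₁).comp x.1).smulRight b₁ := by
      ext w
      rw [Module.End.mul_apply, hc₁]
      rfl
    have h2 : LinearMap.trace K V₁ (c.1 * x.1) = μ₁ * ψ₁ b₁ (x.1 b₁) := by
      rw [h1, LinearMap.trace_smulRight]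
      rfl
    change t = LinearMap.trace K V₁ (c.1 * x.1)
    rw [h2]
    have h3 := LinearMap.congr_fun (congrArg Prod.fst ht) v₁
    change c.1 (x.1 (c.1 v₁)) = t • c.1 v₁ at h3
    rw [hc₁ v₁, map_smul, map_smul, hc₁, smul_smul, smul_smul] at h3
    have h4 : (μ₁ * ψ₁ b₁ v₁ * (μ₁ * ψ₁ b₁ (x.1 b₁)) - t * (μ₁ * ψ₁ b₁ v₁)) • b₁ = 0 := by
      rw [sub_smul, h3, sub_self]
    rcases smul_eq_zero.1 h4 with h5 | h5
    · have h6 : (μ₁ * ψ₁ b₁ v₁) * ((μ₁ * ψ₁ b₁ (x.1 b₁)) - t) = 0 := by linear_combination h5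
      rcases mul_eq_zero.1 h6 with h7 | h7
      · exact absurd h7 (mul_ne_zero hμ₁ hv₁)
      · exact (sub_eq_zero.1 h7).symm
    · exact absurd h5 hb₁
  have hGσ : ∀ e ∈ G, LinearMap.prodMap σ₁ σ₂ e = 1 - e := by
    intro e he
    have h1 := add_adj halt₁ hnd₁ hσ₁.1 (x := e.1) (κ := 1) (fun u v => by
      rw [hGψ₁ e he, one_mul])
    have h2 := add_adj halt₂ hnd₂ hσ₂.1 (x := e.2) (κ := 1) (fun u v => by
      rw [hGψ₂ e he, one_mul])
    rw [one_smul] at h1 h2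
    refine Prod.ext ?_ ?_
    · change σ₁ e.1 = 1 - e.1
      rw [← h1, add_sub_cancel_left]
    · change σ₂ e.2 = 1 - e.2
      rw [← h2, add_sub_cancel_left]
  -- a generator that does not commute with `c`
  obtain ⟨e, he, hec⟩ : ∃ e ∈ G, e * c ≠ c * e := by
    by_contra hcon
    push Not at hcon
    have hcom : ∀ e ∈ G, e.1 * c.1 = c.1 * e.1 := fun e he => congrArg Prod.fst (hcon e he)
    rcases hirr₁ (LinearMap.ker c.1) (fun e he w hw => by
      rw [LinearMap.mem_ker] at hw ⊢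
      rw [← Module.End.mul_apply, ← hcom e he, Module.End.mul_apply, hw, map_zero]) with h | h
    · apply hc10
      rw [LinearMap.ker_eq_bot] at h
      ext w
      apply h
      have : c.1 * c.1 = 0 := congrArg Prod.fst hcc
      rw [← Module.End.mul_apply, this]
      simp
    · exact hc10 (LinearMap.ker_eq_top.1 h)
  obtain ⟨E, hEE, hEg, hσE, hEc⟩ := exists_E hlie S.σ_one (hG e he) (hGe e he) (hGσ e he) hec
  obtain ⟨c', f, hpair⟩ := exists_pair S hEE hEg hσE hc hext1 hEc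
  have B := hpair.blk
  -- the components of `c'`
  have hc'1 : c'.1 ≠ 0 := fun h => hpair.c0 (Prod.ext h (hg12 c' hpair.cg h))
  have hc'2 : c'.2 ≠ 0 := fun h => hpair.c0 (Prod.ext (hg21 c' hpair.cg h) h)
  have hskew1 : ∀ x y, ψ₁ (c'.1 x) y + ψ₁ x (c'.1 y) = 0 := by
    intro x y
    have : σ₁ c'.1 = -c'.1 := congrArg Prod.fst hpair.σc
    rw [hσ₁.1, this, LinearMap.neg_apply, map_neg, neg_add_cancel]
  have hskew2 : ∀ x y, ψ₂ (c'.2 x) y + ψ₂ x (c'.2 y) = 0 := by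
    intro x y
    have : σ₂ c'.2 = -c'.2 := congrArg Prod.snd hpair.σc
    rw [hσ₂.1, this, LinearMap.neg_apply, map_neg, neg_add_cancel]
  have hext' : ∀ x ∈ g, ∃ t : K, c' * x * c' = t • c' := fun x hx => ⟨_, hpair.ext x hx⟩
  obtain ⟨a₁, ν₁, ha₁, hν₁, hca₁⟩ := rank_one_of halt₁ hnd₁ hskew1 hc'1 fun u => by
    obtain ⟨x, hx, hxm⟩ := hm₁ u u
    obtain ⟨t, ht⟩ := hext' x hx
    have h1 : c'.1 * x.1 * c'.1 = t • c'.1 := congrArg Prod.fst ht
    refine ⟨t, 1, ?_⟩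
    rw [pow_one, ← hxm, sub_mul, h1, smul_mul_assoc, one_mul, sub_self]
  obtain ⟨a₂, ν₂, ha₂, hν₂, hca₂⟩ := rank_one_of halt₂ hnd₂ hskew2 hc'2 fun u => by
    obtain ⟨x, hx, hxm⟩ := hm₂ u u
    obtain ⟨t, ht⟩ := hext' x hx
    have h1 : c'.2 * x.2 * c'.2 = t • c'.2 := congrArg Prod.snd ht
    refine ⟨t, 1, ?_⟩
    rw [pow_one, ← hxm, sub_mul, h1, smul_mul_assoc, one_mul, sub_self]
  obtain ⟨P, hP⟩ : ∃ P, P = c' * f := ⟨_, rfl⟩
  have hPc : P * c' = c' := by rw [hP, hpair.cfc]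
  -- the vector `(a₁, a₂)`
  have hPa1 : P.1 a₁ = a₁ := by
    obtain ⟨w, hw⟩ : ∃ w, ψ₁ a₁ w ≠ 0 := by
      by_contra hcon
      push Not at hcon
      exact ha₁ (hnd₁ a₁ hcon)
    have h1 := LinearMap.congr_fun (congrArg Prod.fst hPc) w
    change P.1 (c'.1 w) = c'.1 w at h1
    rw [hca₁, map_smul] at h1
    exact smul_right_injective V₁ (mul_ne_zero hν₁ hw) h1
  have hPa2 : P.2 a₂ = a₂ := by
    obtain ⟨w, hw⟩ : ∃ w, ψ₂ a₂ w ≠ 0 := by
      by_contra hcon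
      push Not at hcon
      exact ha₂ (hnd₂ a₂ hcon)
    have h1 := LinearMap.congr_fun (congrArg Prod.snd hPc) w
    change P.2 (c'.2 w) = c'.2 w at h1
    rw [hca₂, map_smul] at h1
    exact smul_right_injective V₂ (mul_ne_zero hν₂ hw) h1
  have hP1 : P.1 = c'.1 * f.1 := congrArg Prod.fst hP
  have hP2 : P.2 = c'.2 * f.2 := congrArg Prod.snd hP
  have hP10 : P.1 ≠ 0 := by
    intro h
    rw [h, LinearMap.zero_apply] at hPa1
    exact ha₁ hPa1.symm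
  have hP20 : P.2 ≠ 0 := by
    intro h
    rw [h, LinearMap.zero_apply] at hPa2
    exact ha₂ hPa2.symm
  -- `P e P` is a scalar multiple of `P`
  have hsc : ∀ e ∈ G, ∃ κ : K, P * e * P = κ • P := by
    intro e he
    rcases B.idem S (hG e he) (hGe e he) (hGσ e he) with h | h
    · rw [← hP] at h
      exact h
    · rw [← hP] at h
      have hPP : P * P = P := by rw [hP]; exact B.PP
      obtain ⟨κ₁, h1⟩ := corner_scalar (x := e.1) hca₁ hP1
      obtain ⟨κ₂, h2⟩ := corner_scalar (x := e.2) hca₂ hP2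
      refine ⟨2⁻¹, Prod.ext ?_ ?_⟩
      · change P.1 * e.1 * P.1 = (2⁻¹ : K) • P.1
        have h3 := congrArg Prod.fst h
        have hPP1 : P.1 * P.1 = P.1 := congrArg Prod.fst hPP
        change (P.1 * e.1 * P.1 - (2⁻¹ : K) • P.1) * (P.1 * e.1 * P.1 - (2⁻¹ : K) • P.1) = 0 at h3
        rw [h1, ← sub_smul, smul_mul_smul_comm, hPP1] at h3
        rcases smul_eq_zero.1 h3 with h4 | h4
        · rw [h1, sub_eq_zero.1 (mul_self_eq_zero.1 h4)]
        · exact absurd h4 hP10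
      · change P.2 * e.2 * P.2 = (2⁻¹ : K) • P.2
        have h3 := congrArg Prod.snd h
        have hPP2 : P.2 * P.2 = P.2 := congrArg Prod.snd hPP
        change (P.2 * e.2 * P.2 - (2⁻¹ : K) • P.2) * (P.2 * e.2 * P.2 - (2⁻¹ : K) • P.2) = 0 at h3
        rw [h2, ← sub_smul, smul_mul_smul_comm, hPP2] at h3
        rcases smul_eq_zero.1 h3 with h4 | h4
        · rw [h2, sub_eq_zero.1 (mul_self_eq_zero.1 h4)]
        · exact absurd h4 hP20
  -- the graph of the isomorphism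
  have hρ : LinearMap.prodMapAlgHom K V₁ V₂ (c' * f) (a₁, a₂) = (a₁, a₂) := by
    rw [← hP]
    exact Prod.ext hPa1 hPa2
  obtain ⟨hinv, hline⟩ := B.gen_inv S (LinearMap.prodMapAlgHom K V₁ V₂) hρ
  have hself := gen_self {z | ∃ y ∈ g, c' * f * y = 0 ∧ z = LinearMap.prodMapAlgHom K V₁ V₂ y}
    (a₁, a₂)
  generalize gen {z | ∃ y ∈ g, c' * f * y = 0 ∧ z = LinearMap.prodMapAlgHom K V₁ V₂ y}
    (a₁, a₂) = Γ at hinv hline hself
  have hinvG : ∀ e ∈ G, ∀ u ∈ Γ, (e.1 u.1, e.2 u.2) ∈ Γ := by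
    intro e he u hu
    refine hinv e (hG e he) ?_ u hu
    rw [← hP]
    exact hsc e he
  have hlineP : ∀ u ∈ Γ, ∃ t : K, P.1 u.1 = t • a₁ ∧ P.2 u.2 = t • a₂ := by
    intro u hu
    have h1 := hline u hu
    rw [← hP] at h1
    obtain ⟨t, ht⟩ := Submodule.mem_span_singleton.1 h1
    refine ⟨t, ?_, ?_⟩
    · exact (congrArg Prod.fst ht).symm
    · exact (congrArg Prod.snd ht).symm
  -- the kernels of the projections
  have hk2 : ∀ u : V₁, (u, (0 : V₂)) ∈ Γ → u = 0 := by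
    rcases hirr₁ (Γ.comap (LinearMap.inl K V₁ V₂)) (fun e he w hw => by
      have h1 := hinvG e he _ hw
      simpa using h1) with h | h
    · intro u hu
      have : u ∈ Γ.comap (LinearMap.inl K V₁ V₂) := hu
      rwa [h, Submodule.mem_bot] at this
    · exfalso
      have h1 : a₁ ∈ Γ.comap (LinearMap.inl K V₁ V₂) := h ▸ Submodule.mem_top
      obtain ⟨t, h2, h3⟩ := hlineP _ h1
      simp only [LinearMap.inl_apply, map_zero] at h2 h3
      rw [hPa1] at h2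
      have h4 : t = 0 := by
        rcases smul_eq_zero.1 h3.symm with h5 | h5
        · exact h5
        · exact absurd h5 ha₂
      rw [h4, zero_smul] at h2
      exact ha₁ h2
  have hk1 : ∀ u : V₂, ((0 : V₁), u) ∈ Γ → u = 0 := by
    rcases hirr₂ (Γ.comap (LinearMap.inr K V₁ V₂)) (fun e he w hw => by
      have h1 := hinvG e he _ hw
      simpa using h1) with h | h
    · intro u hu
      have : u ∈ Γ.comap (LinearMap.inr K V₁ V₂) := hu
      rwa [h, Submodule.mem_bot] at this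
    · exfalso
      have h1 : a₂ ∈ Γ.comap (LinearMap.inr K V₁ V₂) := h ▸ Submodule.mem_top
      obtain ⟨t, h2, h3⟩ := hlineP _ h1
      simp only [LinearMap.inr_apply, map_zero] at h2 h3
      rw [hPa2] at h3
      have h4 : t = 0 := by
        rcases smul_eq_zero.1 h2.symm with h5 | h5
        · exact h5
        · exact absurd h5 ha₁
      rw [h4, zero_smul] at h3
      exact ha₂ h3
  have hs1 : ∀ u : V₁, ∃ v : V₂, (u, v) ∈ Γ := by
    rcases hirr₁ (Γ.map (LinearMap.fst K V₁ V₂)) (fun e he w hw => by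
      obtain ⟨x, hx, rfl⟩ := hw
      exact ⟨_, hinvG e he _ hx, rfl⟩) with h | h
    · exfalso
      have h1 : a₁ ∈ Γ.map (LinearMap.fst K V₁ V₂) := ⟨(a₁, a₂), hself, rfl⟩
      rw [h, Submodule.mem_bot] at h1
      exact ha₁ h1
    · intro u
      have h1 : u ∈ Γ.map (LinearMap.fst K V₁ V₂) := h ▸ Submodule.mem_top
      obtain ⟨⟨x, y⟩, hx, rfl⟩ := h1
      exact ⟨y, hx⟩
  have hs2 : ∀ v : V₂, ∃ u : V₁, (u, v) ∈ Γ := by
    rcases hirr₂ (Γ.map (LinearMap.snd K V₁ V₂)) (fun e he w hw => by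
      obtain ⟨x, hx, rfl⟩ := hw
      exact ⟨_, hinvG e he _ hx, rfl⟩) with h | h
    · exfalso
      have h1 : a₂ ∈ Γ.map (LinearMap.snd K V₁ V₂) := ⟨(a₁, a₂), hself, rfl⟩
      rw [h, Submodule.mem_bot] at h1
      exact ha₂ h1
    · intro v
      have h1 : v ∈ Γ.map (LinearMap.snd K V₁ V₂) := h ▸ Submodule.mem_top
      obtain ⟨⟨x, y⟩, hx, rfl⟩ := h1
      exact ⟨x, hx⟩
  let q₁ : Γ →ₗ[K] V₁ := (LinearMap.fst K V₁ V₂).comp Γ.subtype
  let q₂ : Γ →ₗ[K] V₂ := (LinearMap.snd K V₁ V₂).comp Γ.subtype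
  have hq₁ : Function.Bijective q₁ := by
    constructor
    · rw [injective_iff_map_eq_zero]
      rintro ⟨⟨x, y⟩, hxy⟩ hx
      have hx' : x = 0 := hx
      subst hx'
      have hy := hk1 y hxy
      subst hy
      rfl
    · intro u
      obtain ⟨v, hv⟩ := hs1 u
      exact ⟨⟨(u, v), hv⟩, rfl⟩
  have hq₂ : Function.Bijective q₂ := by
    constructor
    · rw [injective_iff_map_eq_zero]
      rintro ⟨⟨x, y⟩, hxy⟩ hy
      have hy' : y = 0 := hy
      subst hy'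
      have hx := hk2 x hxy
      subst hx
      rfl
    · intro v
      obtain ⟨u, hu⟩ := hs2 v
      exact ⟨⟨(u, v), hu⟩, rfl⟩
  refine ⟨(LinearEquiv.ofBijective q₁ hq₁).symm.trans (LinearEquiv.ofBijective q₂ hq₂), ?_⟩
  have hval : ∀ x : Γ, ((LinearEquiv.ofBijective q₁ hq₁).symm.trans
      (LinearEquiv.ofBijective q₂ hq₂)) x.1.1 = x.1.2 := by
    intro x
    have h1 : (LinearEquiv.ofBijective q₁ hq₁).symm x.1.1 = x := by
      rw [LinearEquiv.symm_apply_eq]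
      rfl
    rw [LinearEquiv.trans_apply, h1]
    rfl
  intro e he u
  obtain ⟨v, hv⟩ := hs1 u
  have h1 := hval ⟨(u, v), hv⟩
  have h2 := hval ⟨(e.1 u, e.2 v), hinvG e he _ hv⟩
  simp only at h1 h2
  rw [h1, h2]

end Two

end Pool.Agent.OddRank
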